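import Pool.Agent.Lib.H57N.C4

/-! # H57N, chunk C5: THE CYCLIC FIELD B -/

open NumberField IsDedekindDomain

namespace H57N

/-- Chunk C5 (S/M), only Mathlib. x in Z = Zf m fixed by all σ in Gal(Z/ℚ) which fix the l-th roots of unity, l ∣ m: then x is in ℚ(ζ) with ζ a primitive l-th root of unity in Z (power of IsCyclotomicExtension.zeta; Galois correspondence:
IntermediateField.fixedField_fixingSubgroup, mem_fixedField_iff; σ fixes ℚ(ζ) iff σ ζ = ζ, then σ fixes all powers of ζ, which are all the x with x^l = 1). -/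
theorem c5_mem {m l : ℕ} [NeZero m] (hl : l ∣ m) {ζ : Zf m} (hζ : IsPrimitiveRoot ζ l) (x : Zf m)
    (hx : ∀ σ : Zf m ≃ₐ[ℚ] Zf m, (∀ y : Zf m, y ^ l = 1 → σ y = y) → σ x = x) : x ∈ IntermediateField.adjoin ℚ {ζ} := by
  have hce : IsCyclotomicExtension {m} ℚ (Zf m) := CyclotomicField.isCyclotomicExtension m ℚ
  have hg : IsGalois ℚ (Zf m) := IsCyclotomicExtension.isGalois {m} ℚ (Zf m)
  have hl0 : NeZero l := ⟨fun h => (NeZero.ne m) (by rw [h] at hl; exact Nat.eq_zero_of_zero_dvd hl)⟩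
  rw [← IsGalois.fixedField_fixingSubgroup (IntermediateField.adjoin ℚ {ζ}), IntermediateField.mem_fixedField_iff]
  intro σ hσ
  apply hx
  intro y hy
  obtain ⟨i, _, rfl⟩ := hζ.eq_pow_of_pow_eq_one hy
  rw [map_pow]
  congr 1
  exact (IntermediateField.mem_fixingSubgroup_iff _ _).1 hσ ζ (IntermediateField.mem_adjoin_simple_self ℚ ζ)

/-- Chunk C5 (M), assembly. ρ from c2_gal, B and B' from c2_fields (Z = Zf (md l Q), Galois: IsCyclotomicExtension.isGalois). unr: c4_unr (r does not divide md l Q = l ∏ q: r ≠ l, r not in Q, primes: Prime.dvd_finset_prod_iff). ram: c4_ram. For B': let ζ be a primitive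
l-th root of unity in Z, Z_l = adjoin ℚ {ζ} (IsPrimitiveRoot.intermediateField_adjoin_isCyclotomicExtension ℚ hζ: IsCyclotomicExtension {l} ℚ Z_l); every x in B' is in Z_l (c5_mem, and c2_gal (second), c2_fields (last)), so there is a ring homomorphism
B' → Z_l (codRestrict), an algebra; unr': c4_unr with m = l (r ≠ l); ine: c4_ine and deg'. -/
theorem c5_exists {p n l : ℕ} {Q : Finset ℕ} (h : Prm p n l Q) : ∃ (B : Type) (_ : Field B) (_ : NumberField B) (B' : IntermediateField ℚ B),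
    Cy p n l Q B B' := by
  obtain ⟨ρ, hρs, hρl, hρq⟩ := c2_gal h
  have hne : NeZero (md l Q) := md_ne h
  have hce : IsCyclotomicExtension {md l Q} ℚ (Zf (md l Q)) := CyclotomicField.isCyclotomicExtension (md l Q) ℚ
  have hg : IsGalois ℚ (Zf (md l Q)) := IsCyclotomicExtension.isGalois {md l Q} ℚ (Zf (md l Q))
  obtain ⟨B, B', hgal, hcyc, hdeg, hgal', hdeg', hfix, hfix'⟩ := c2_fields h.hp (Zf (md l Q)) ρ hρs
  have hl0 : NeZero l := ⟨h.hl.ne_zero⟩
  have hldvd : l ∣ md l Q := Dvd.intro _ rfl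
  -- the primitive root of unity of order l
  have hζ : IsPrimitiveRoot ((IsCyclotomicExtension.zeta (md l Q) ℚ (Zf (md l Q))) ^ (∏ q ∈ Q, q)) l :=
    (IsCyclotomicExtension.zeta_spec (md l Q) ℚ (Zf (md l Q))).pow (NeZero.pos _) (by rw [md, mul_comm])
  generalize hζe : (IsCyclotomicExtension.zeta (md l Q) ℚ (Zf (md l Q))) ^ (∏ q ∈ Q, q) = ζ at hζ
  have hcyl : IsCyclotomicExtension {l} ℚ (IntermediateField.adjoin ℚ {ζ}) :=
    IsPrimitiveRoot.intermediateField_adjoin_isCyclotomicExtension ℚ hζ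
  have hmem : ∀ x : B', ((algebraMap B (Zf (md l Q))).comp (algebraMap B' B)) x ∈ IntermediateField.adjoin ℚ {ζ} := by
    intro x
    apply c5_mem hldvd hζ
    intro σ hσ
    exact hfix' σ (hρl σ hσ) x
  let _ : Algebra B' (IntermediateField.adjoin ℚ {ζ}) :=
    (((algebraMap B (Zf (md l Q))).comp (algebraMap B' B)).codRestrict (IntermediateField.adjoin ℚ {ζ}) hmem).toAlgebra
  have hnd : ∀ r : ℕ, r.Prime → r ≠ l → r ∉ Q → ¬ r ∣ md l Q := by
    intro r hr hrl hrQ hdvd
    rw [md, hr.dvd_mul] at hdvd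
    rcases hdvd with h1 | h1
    · exact hrl ((Nat.prime_dvd_prime_iff_eq hr h.hl).1 h1)
    · obtain ⟨q, hq, h2⟩ := (Prime.dvd_finsetProd_iff hr.prime _).1 h1
      exact hrQ (by rw [(Nat.prime_dvd_prime_iff_eq hr (h.hq q hq).1).1 h2]; exact hq)
  refine ⟨B, inferInstance, inferInstance, B', ?_⟩
  exact
    { gal := hgal
      cyc := hcyc
      deg := hdeg
      gal' := hgal'
      deg' := hdeg'
      unr := fun w r hr hw hrl hrQ => c4_unr (m := md l Q) (Zf (md l Q)) B hr (hnd r hr hrl hrQ) w hw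
      unr' := fun w r hr hw hrl => c4_unr (m := l) (IntermediateField.adjoin ℚ {ζ}) B' hr
        (fun h1 => hrl ((Nat.prime_dvd_prime_iff_eq hr h.hl).1 h1)) w hw
      ram := fun w q hq hw => c4_ram h ρ hρq B (fun σ hσ => (hfix σ).1 hσ) w q hq hw
      ine := fun w q hq hw => by
        have h1 := h.hq q hq
        have h2 := c4_ine h.hl h1.1 h1.2.2.1 h1.2.2.2 (IntermediateField.adjoin ℚ {ζ}) B' w hw
        rw [hdeg'] at h2
        exact h2 }

end H57N
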