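import Pool.Agent.Lib.H57N.P1

/-! # H57N, chunk P2: the degree of the compositum -/

open NumberField IsDedekindDomain

namespace H57N

/-- Chunk P2 (S/M), only Mathlib. NumberField.not_dvd_discr_iff_forall_mem E (𝓞 E) (prime of ℤ from hr), Ideal.ramificationIdx_eq_one_iff : q.ramificationIdx R = 1 ↔ Algebra.IsUnramifiedAt R q (R = ℤ; the residue field at the prime below is
finite or of characteristic 0: PerfectField instance; look at the last lines of Mathlib/NumberTheory/NumberField/ExistsRamified.lean). A prime ideal P of 𝓞 E containing r is not ⊥ (r ≠ 0), so it is the ideal of a HeightOneSpectrum. -/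
theorem p2_unr (E : Type) [Field E] [NumberField E] {r : ℕ} (hr : r.Prime) :
    ¬ (r : ℤ) ∣ discr E ↔ ∀ w : HeightOneSpectrum (𝓞 E), (r : 𝓞 E) ∈ w.asIdeal → w.asIdeal.ramificationIdx ℤ = 1 := by
  rw [NumberField.not_dvd_discr_iff_forall_mem E (𝓞 E) (Nat.prime_iff_prime_int.1 hr)]
  constructor
  · intro h w hw
    haveI := w.isPrime
    haveI := h w.asIdeal w.isPrime (by exact_mod_cast hw)
    exact Ideal.ramificationIdx_eq_one w.asIdeal ℤ
  · intro h P hP hr'
    haveI := hP
    have hr'' : (r : 𝓞 E) ∈ P := by exact_mod_cast hr'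
    have hne : P ≠ ⊥ := by
      rintro rfl
      rw [Ideal.mem_bot] at hr''
      exact hr.ne_zero (by exact_mod_cast hr'')
    have h1 := h ⟨P, hP, hne⟩ hr''
    exact Ideal.ramificationIdx_eq_one_iff.1 h1

/-- Chunk P2 (S), only Mathlib. If the discriminants are not coprime, there is a prime number r dividing both (Int.isCoprime_iff_gcd_eq_one, Nat.exists_prime_and_dvd), which contradicts p2_unr for B. -/
theorem p2_cop (C B : Type) [Field C] [NumberField C] [Field B] [NumberField B]
    (h : ∀ r : ℕ, r.Prime → (r : ℤ) ∣ discr C → ∀ w : HeightOneSpectrum (𝓞 B), (r : 𝓞 B) ∈ w.asIdeal → w.asIdeal.ramificationIdx ℤ = 1) :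
    IsCoprime (discr C) (discr B) := by
  rw [Int.isCoprime_iff_gcd_eq_one]
  by_contra hne
  obtain ⟨r, hr, hrd⟩ := Nat.exists_prime_and_dvd hne
  have h1 : (r : ℤ) ∣ discr C := (Int.natCast_dvd_natCast.2 hrd).trans (Int.gcd_dvd_left ..)
  have h2 : (r : ℤ) ∣ discr B := (Int.natCast_dvd_natCast.2 hrd).trans (Int.gcd_dvd_right ..)
  exact (p2_unr B hr).2 (h r hr h1) h2

variable {C B E : Type} [Field C] [NumberField C] [Field B] [NumberField B] [Field E] [NumberField E] [Algebra C E] [Algebra B E]

/-- Chunk P2 (M), only Mathlib. Let K₁ = (B → E).fieldRange, K₂ = (C → E).fieldRange in IntermediateField ℚ E (ℚ-algebra maps: IsScalarTower.toAlgHom ℚ B E or RingHom.toRatAlgHom), K₁ ⊔ K₂ = ⊤ (from h.gen: the intermediate field K₁ ⊔ K₂ is closed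
under multiplication by C, so it gives an intermediate field of E/C: IntermediateField.extendScalars or direct; it contains the range of B). discr K₁ = discr B (NumberField.discr_eq_discr_of_algEquiv with AlgEquiv.ofInjectiveField), the same for K₂.
NumberField.linearDisjoint_of_isGalois_isCoprime_discr E K₁ K₂ (IsGalois ℚ K₁: IsGalois.of_algEquiv) gives LinearDisjoint, finrank_sup: [E : ℚ] = [B : ℚ] [C : ℚ] (finrank of ⊤), and Module.finrank_mul_finrank ℚ C E; cancel [C : ℚ] > 0.
For e: p1_res is injective and both groups have the same finite order (IsGalois.card_aut_eq_finrank, p1_gal), so it is bijective: MulEquiv.ofBijective. -/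
theorem p2_deg [IsGalois ℚ B] (h : Cmp C B E) (hd : IsCoprime (discr C) (discr B)) :
    Module.finrank C E = Module.finrank ℚ B ∧ ∃ e : (E ≃ₐ[C] E) ≃* (B ≃ₐ[ℚ] B),
      ∀ (g : E ≃ₐ[C] E) (x : B), g (algebraMap B E x) = algebraMap B E (e g x) := by
  have tC : IsScalarTower ℚ C E := IsScalarTower.of_algebraMap_eq' (Subsingleton.elim _ _)
  have tB : IsScalarTower ℚ B E := IsScalarTower.of_algebraMap_eq' (Subsingleton.elim _ _)
  let φB : B →ₐ[ℚ] E := IsScalarTower.toAlgHom ℚ B E
  let φC : C →ₐ[ℚ] E := IsScalarTower.toAlgHom ℚ C E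
  let e1 : B ≃ₐ[ℚ] φB.fieldRange := φB.equivFieldRange
  let e2 : C ≃ₐ[ℚ] φC.fieldRange := φC.equivFieldRange
  have g1 : IsGalois ℚ φB.fieldRange := IsGalois.of_algEquiv e1
  have hsup : φB.fieldRange ⊔ φC.fieldRange = ⊤ := by
    rw [eq_top_iff]
    intro x _
    have hx : x ∈ IntermediateField.adjoin C (Set.range (algebraMap B E)) := by
      rw [h.gen]; trivial
    refine IntermediateField.adjoin_induction (F := C) (s := Set.range (algebraMap B E))
      (p := fun y _ => y ∈ φB.fieldRange ⊔ φC.fieldRange) ?_ ?_ ?_ ?_ ?_ hx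
    · rintro _ ⟨b, rfl⟩
      exact le_sup_left (a := φB.fieldRange) (b := φC.fieldRange) ⟨b, rfl⟩
    · intro c
      exact le_sup_right (a := φB.fieldRange) (b := φC.fieldRange) ⟨c, rfl⟩
    · intro a b _ _ ha hb
      exact add_mem ha hb
    · intro a _ ha
      exact inv_mem ha
    · intro a b _ _ ha hb
      exact mul_mem ha hb
  have d1 : discr φB.fieldRange = discr B := (NumberField.discr_eq_discr_of_algEquiv B e1).symm
  have d2 : discr φC.fieldRange = discr C := (NumberField.discr_eq_discr_of_algEquiv C e2).symm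
  have hlin := NumberField.linearDisjoint_of_isGalois_isCoprime_discr E φB.fieldRange φC.fieldRange (by
    rw [d1, d2]; exact hd.symm)
  have hf := hlin.finrank_sup
  rw [hsup, IntermediateField.finrank_top', ← e1.toLinearEquiv.finrank_eq, ← e2.toLinearEquiv.finrank_eq] at hf
  have hm := Module.finrank_mul_finrank ℚ C E
  have hpos : 0 < Module.finrank ℚ C := Module.finrank_pos
  have hdeg : Module.finrank C E = Module.finrank ℚ B := by
    rw [hf, mul_comm (Module.finrank ℚ B)] at hm
    exact Nat.eq_of_mul_eq_mul_left hpos hm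
  refine ⟨hdeg, ?_⟩
  have fE : FiniteDimensional C E := Module.Finite.of_restrictScalars_finite ℚ C E
  have gE : IsGalois C E := p1_gal h
  obtain ⟨res, hinj, hres⟩ := p1_res h
  have hcard : Nat.card (E ≃ₐ[C] E) = Nat.card (B ≃ₐ[ℚ] B) := by
    rw [IsGalois.card_aut_eq_finrank, IsGalois.card_aut_eq_finrank, hdeg]
  have hbij : Function.Bijective res := (Nat.bijective_iff_injective_and_card res).2 ⟨hinj, hcard⟩
  exact ⟨MulEquiv.ofBijective res hbij, fun g x => hres g x⟩

end H57N
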