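import Pool.Agent.Lib.H57N.P1

/-! # H57N, chunk P3: ramification in the compositum; the compositum of two Galois extensions -/

open NumberField IsDedekindDomain

namespace H57N

variable {C B E : Type} [Field C] [NumberField C] [Field B] [NumberField B] [Field E] [NumberField E] [Algebra C E] [Algebra B E]

omit [NumberField C] in
theorem p3_cardZ {K : Type} [Field K] [NumberField K] [IsGalois ℚ K]
    (w : HeightOneSpectrum (𝓞 K)) :
    Nat.card (w.asIdeal.inertia (K ≃ₐ[ℚ] K)) = w.asIdeal.ramificationIdx ℤ := by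
  have hwm := w.isMaximal
  have hwp := w.isPrime
  have hp : (w.asIdeal.under ℤ).IsPrime := inferInstance
  have hne : w.asIdeal.under ℤ ≠ ⊥ := by
    intro h
    exact w.ne_bot (Ideal.eq_bot_of_comap_eq_bot (R := ℤ) (I := w.asIdeal) h)
  have hvm : (w.asIdeal.under ℤ).IsMaximal := hp.isMaximal hne
  have hl : w.asIdeal.LiesOver (w.asIdeal.under ℤ) := ⟨rfl⟩
  rw [Ideal.card_inertia_eq_ramificationIdxIn (G := K ≃ₐ[ℚ] K) (w.asIdeal.under ℤ) w.asIdeal,
    Ideal.ramificationIdxIn_eq_ramificationIdx (w.asIdeal.under ℤ) w.asIdeal (K ≃ₐ[ℚ] K)]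

theorem p3_card {F L : Type} [Field F] [NumberField F] [Field L] [NumberField L] [Algebra F L]
    (hG : IsGalois F L) (w : HeightOneSpectrum (𝓞 L)) :
    Nat.card (w.asIdeal.inertia (L ≃ₐ[F] L)) = w.asIdeal.ramificationIdx (𝓞 F) := by
  have hwm := w.isMaximal
  have hwp := w.isPrime
  have hl : w.asIdeal.LiesOver (w.asIdeal.under (𝓞 F)) := ⟨rfl⟩
  have hum : (w.asIdeal.under (𝓞 F)).IsMaximal := Ideal.IsMaximal.under _ _
  have hub : w.asIdeal.under (𝓞 F) ≠ ⊥ := Ideal.IsIntegral.comap_ne_bot _ w.ne_bot
  have hfin : Finite (𝓞 F ⧸ w.asIdeal.under (𝓞 F)) :=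
    Ideal.finiteQuotientOfFreeOfNeBot _ hub
  rw [Ideal.card_inertia_eq_ramificationIdxIn (G := L ≃ₐ[F] L)
      (w.asIdeal.under (𝓞 F)) w.asIdeal,
      Ideal.ramificationIdxIn_eq_ramificationIdx (w.asIdeal.under (𝓞 F)) w.asIdeal (L ≃ₐ[F] L)]

/-- Chunk P3 (M). P is a prime of E, w the prime of B below; w is unramified over the rationals: then P is unramified over C. Model: aq3_ram in H28T/AQ3.lean. E/C is Galois (p1_gal), the order of the inertia group of P in Gal(E/C) is the
ramification index (Ideal.card_inertia_eq_ramificationIdxIn and Ideal.ramificationIdxIn_eq_ramificationIdx, see ge_card in H28T/Gen.lean; it is general: copy the proof or import Pool.Agent.Lib.H28T.Gen); if g is in it, res g (p1_res) is in the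
inertia group of w in Gal(B/ℚ) (algebraMap (𝓞 B) (𝓞 E) (res g • y - y) = g • y' - y' in P), which has order w.ramificationIdx ℤ = 1 (the same theorems with ℤ; or H55D.X3_inertia, as in aq3_ram), so res g = 1, g = 1. So the order is 1. -/
theorem p3_unr [IsGalois ℚ B] (h : Cmp C B E) (P : HeightOneSpectrum (𝓞 E)) (w : HeightOneSpectrum (𝓞 B))
    (hw : w.asIdeal = P.asIdeal.under (𝓞 B)) (he : w.asIdeal.ramificationIdx ℤ = 1) : P.asIdeal.ramificationIdx (𝓞 C) = 1 := by
  obtain ⟨res, hinj, hres⟩ := p1_res h
  have hG := p1_gal h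
  rw [← p3_card hG P, Subgroup.card_eq_one, Subgroup.eq_bot_iff_forall]
  intro g hg
  have hw1 : Nat.card (w.asIdeal.inertia (B ≃ₐ[ℚ] B)) = 1 := (p3_cardZ w).trans he
  rw [Subgroup.card_eq_one, Subgroup.eq_bot_iff_forall] at hw1
  have hg1 : res g = 1 := by
    have hmem : ∀ y : 𝓞 B, res g • y - y ∈ w.asIdeal := by
      intro y
      rw [hw]
      show algebraMap (𝓞 B) (𝓞 E) (res g • y - y) ∈ P.asIdeal
      have h2 : algebraMap (𝓞 B) (𝓞 E) (res g • y) = g • algebraMap (𝓞 B) (𝓞 E) y := by
        apply NumberField.RingOfIntegers.ext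
        exact (hres g _).symm
      rw [map_sub, h2]
      exact hg _
    exact hw1 (res g) hmem
  exact hinj (hg1.trans (map_one res).symm)

/-- Chunk P3 (M), only Mathlib and p1_gal. C/F and B/Q are Galois: E/F is Galois. Let K₁ = (IsScalarTower.toAlgHom F C E).fieldRange and K₂ = IntermediateField.adjoin F (Set.range (algebraMap B E)), both IntermediateField F E. K₁/F is Galois
(IsGalois.of_algEquiv). K₂/F is Galois: p1_gal with C := F, E := K₂, the algebra B → K₂ is the corestriction of algebraMap B E, Cmp F B K₂: the adjoin of the range in K₂ is ⊤ (IntermediateField.lift_adjoin, lift_top, or adjoin_adjoin / restrict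
lemmas). K₁ ⊔ K₂ = ⊤: it contains the image of C, so the set is closed under multiplication by C (IntermediateField.extendScalars, or: restrictScalars F of adjoin C S is K₁ ⊔ adjoin F S, IntermediateField.restrictScalars_adjoin), and h.gen.
Normal: IntermediateField.normal_sup gives Normal F (K₁ ⊔ K₂), = ⊤, then Normal F E (Normal.of_algEquiv with IntermediateField.topEquiv); characteristic 0 gives separable: IsGalois. -/
theorem p3_gal {F : Type} [Field F] [NumberField F] [Algebra F C] [Algebra F E] [IsScalarTower F C E] [IsGalois F C] [IsGalois ℚ B]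
    (h : Cmp C B E) : IsGalois F E := by
  have hspl : ∀ x ∈ (Set.range (algebraMap C E) ∪ Set.range (algebraMap B E)),
      IsIntegral F x ∧ ((minpoly F x).map (algebraMap F E)).Splits := by
    rintro x (⟨c, rfl⟩ | ⟨b, rfl⟩)
    · refine ⟨Algebra.IsIntegral.isIntegral _, ?_⟩
      rw [minpoly.algebraMap_eq (algebraMap C E).injective]
      have h1 := (IsGalois.splits F c).map (algebraMap C E)
      rwa [Polynomial.map_map, ← IsScalarTower.algebraMap_eq] at h1
    · refine ⟨Algebra.IsIntegral.isIntegral _, ?_⟩
      have h1 := (IsGalois.splits ℚ b).map (algebraMap B E)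
      have h0 : (minpoly ℚ b) ≠ 0 := minpoly.ne_zero (Algebra.IsIntegral.isIntegral b)
      have e1 : ((minpoly ℚ b).map (algebraMap ℚ B)).map (algebraMap B E) =
          ((minpoly ℚ b).map (algebraMap ℚ F)).map (algebraMap F E) := by
        have e0 : (algebraMap B E).comp (algebraMap ℚ B) = (algebraMap F E).comp (algebraMap ℚ F) :=
          Subsingleton.elim _ _
        rw [Polynomial.map_map, Polynomial.map_map, e0]
      rw [e1] at h1
      refine h1.of_dvd ?_ ?_
      · exact Polynomial.map_ne_zero (Polynomial.map_ne_zero h0)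
      · refine Polynomial.map_dvd _ (minpoly.dvd F _ ?_)
        rw [Polynomial.aeval_def, Polynomial.eval₂_map]
        have e2 : (algebraMap F E).comp (algebraMap ℚ F) = (algebraMap B E).comp (algebraMap ℚ B) :=
          Subsingleton.elim _ _
        rw [e2, ← Polynomial.hom_eval₂]
        have e3 : Polynomial.eval₂ (algebraMap ℚ B) b (minpoly ℚ b) = 0 := minpoly.aeval ℚ b
        rw [e3, map_zero]
  have hN : Normal F E := by
    rw [normal_iff]
    intro y
    refine ⟨Algebra.IsIntegral.isIntegral y, ?_⟩
    refine IntermediateField.splits_of_mem_adjoin F E (L := E) hspl ?_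
    have hy : y ∈ IntermediateField.adjoin C (Set.range (algebraMap B E)) := by
      rw [h.gen]
      exact IntermediateField.mem_top
    induction hy using IntermediateField.adjoin_induction with
    | mem x hx => exact IntermediateField.subset_adjoin F _ (Or.inr hx)
    | algebraMap x => exact IntermediateField.subset_adjoin F _ (Or.inl ⟨x, rfl⟩)
    | add x y hx hy h1 h2 => exact add_mem h1 h2
    | inv x hx h1 => exact inv_mem h1
    | mul x y hx hy h1 h2 => exact mul_mem h1 h2
  exact { to_normal := hN }

end H57N
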