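import Pool.Agent.Lib.H57N.Defs

/-! # H57N, chunk P4: general facts on primes -/

open NumberField IsDedekindDomain

namespace H57N

/-- Chunk P4 (S), only Mathlib. Ideal.ramificationIdx_tower and Ideal.inertiaDeg_tower with R = 𝓞 A, S = 𝓞 B, T = 𝓞 E, q = w, r = P (P.LiesOver w: ⟨hw⟩; Module.Flat (𝓞 B) (𝓞 E): torsion free over a Dedekind domain, an instance or
Module.Flat from Module.IsTorsionFree; compare e2 in x1_split, H55Z/X1.lean). -/
theorem p4_tower {A B E : Type} [Field A] [NumberField A] [Field B] [NumberField B] [Field E] [NumberField E] [Algebra A B] [Algebra A E]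
    [Algebra B E] [IsScalarTower A B E] (P : HeightOneSpectrum (𝓞 E)) (w : HeightOneSpectrum (𝓞 B)) (hw : w.asIdeal = P.asIdeal.under (𝓞 B)) :
    P.asIdeal.ramificationIdx (𝓞 A) = w.asIdeal.ramificationIdx (𝓞 A) * P.asIdeal.ramificationIdx (𝓞 B) ∧
      P.asIdeal.inertiaDeg (𝓞 A) = w.asIdeal.inertiaDeg (𝓞 A) * P.asIdeal.inertiaDeg (𝓞 B) := by
  have hP := P.isPrime
  have hl : P.asIdeal.LiesOver w.asIdeal := ⟨hw⟩
  exact ⟨Ideal.ramificationIdx_tower (R := 𝓞 A) w.asIdeal P.asIdeal, Ideal.inertiaDeg_tower (R := 𝓞 A) w.asIdeal P.asIdeal⟩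

/-- Chunk P4 (S), only Mathlib. The same with R = ℤ. -/
theorem p4_towerZ {B E : Type} [Field B] [NumberField B] [Field E] [NumberField E] [Algebra B E] (P : HeightOneSpectrum (𝓞 E))
    (w : HeightOneSpectrum (𝓞 B)) (hw : w.asIdeal = P.asIdeal.under (𝓞 B)) :
    P.asIdeal.ramificationIdx ℤ = w.asIdeal.ramificationIdx ℤ * P.asIdeal.ramificationIdx (𝓞 B) ∧
      P.asIdeal.inertiaDeg ℤ = w.asIdeal.inertiaDeg ℤ * P.asIdeal.inertiaDeg (𝓞 B) := by
  have hP := P.isPrime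
  have hl : P.asIdeal.LiesOver w.asIdeal := ⟨hw⟩
  exact ⟨Ideal.ramificationIdx_tower (R := ℤ) w.asIdeal P.asIdeal, Ideal.inertiaDeg_tower (R := ℤ) w.asIdeal P.asIdeal⟩

/-- Chunk P4 (S), only Mathlib. The prime below: P ∩ 𝓞 B is prime and not zero (Ideal.IsIntegral.comap_ne_bot; see ge_card in H28T/Gen.lean or aq3_ram in H28T/AQ3.lean). -/
theorem p4_below {B E : Type} [Field B] [NumberField B] [Field E] [NumberField E] [Algebra B E] (P : HeightOneSpectrum (𝓞 E)) :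
    ∃ w : HeightOneSpectrum (𝓞 B), w.asIdeal = P.asIdeal.under (𝓞 B) := by
  have hP := P.isPrime
  have hne : P.asIdeal.under (𝓞 B) ≠ ⊥ := fun h => P.ne_bot (Ideal.eq_bot_of_comap_eq_bot (R := 𝓞 B) (I := P.asIdeal) h)
  exact ⟨⟨P.asIdeal.under (𝓞 B), inferInstance, hne⟩, rfl⟩

/-- The ideal of a prime number below. -/
theorem p4_over {E : Type} [Field E] [NumberField E] {r : ℕ} (hr : r.Prime) (Q : Ideal (𝓞 E)) (hQ : Q.IsPrime) :
    (r : 𝓞 E) ∈ Q ↔ Q.LiesOver (Ideal.span {(r : ℤ)}) := by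
  have hF : Fact r.Prime := ⟨hr⟩
  have hm : (Ideal.span {(r : ℤ)}).IsMaximal := Int.ideal_span_isMaximal_of_prime r
  have hc : algebraMap ℤ (𝓞 E) (r : ℤ) = (r : 𝓞 E) := by simp
  constructor
  · intro h
    refine ⟨hm.eq_of_le (Ideal.IsPrime.ne_top inferInstance) ?_⟩
    rw [Ideal.span_singleton_le_iff_mem]
    show algebraMap ℤ (𝓞 E) (r : ℤ) ∈ Q
    rw [hc]
    exact h
  · intro h
    rw [← hc]
    exact (Ideal.mem_of_liesOver Q (Ideal.span {(r : ℤ)}) (r : ℤ)).1 (Ideal.mem_span_singleton_self _)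

/-- Chunk P4 (S), only Mathlib. A prime of E above a prime number: a maximal ideal containing (r) ≠ ⊤ (r is not a unit in 𝓞 E: its norm is r^[E:ℚ]; Ideal.exists_le_maximal), not ⊥ since r ≠ 0. -/
theorem p4_above (E : Type) [Field E] [NumberField E] {r : ℕ} (hr : r.Prime) : ∃ w : HeightOneSpectrum (𝓞 E), (r : 𝓞 E) ∈ w.asIdeal := by
  have hF : Fact r.Prime := ⟨hr⟩
  have hm : (Ideal.span {(r : ℤ)}).IsMaximal := Int.ideal_span_isMaximal_of_prime r
  have hb : Ideal.span {(r : ℤ)} ≠ ⊥ := by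
    rw [Ne, Ideal.span_singleton_eq_bot]
    exact_mod_cast hr.ne_zero
  obtain ⟨Q, hQ1, hQ2⟩ := Ideal.exists_maximal_ideal_liesOver_of_isIntegral (S := 𝓞 E) (Ideal.span {(r : ℤ)})
  exact ⟨⟨Q, hQ1.isPrime, Ideal.ne_bot_of_liesOver_of_ne_bot hb Q⟩, (p4_over hr Q hQ1.isPrime).2 hQ2⟩

/-- Chunk P4 (S), only Mathlib. The prime number in a prime: absNorm w is a power of a prime number or: some prime factor of absNorm w ∈ w (Ideal.absNorm_mem, w prime; Nat.recOnMul or induction on the factors; see mem_factor in H28T/A3.lean). -/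
theorem p4_char {E : Type} [Field E] [NumberField E] (w : HeightOneSpectrum (𝓞 E)) : ∃ r : ℕ, r.Prime ∧ (r : 𝓞 E) ∈ w.asIdeal := by
  have hwp := w.isPrime
  have hone : (1 : 𝓞 E) ∉ w.asIdeal := fun h => hwp.ne_top ((Ideal.eq_top_iff_one _).2 h)
  have key : ∀ n : ℕ, n ≠ 0 → (n : 𝓞 E) ∈ w.asIdeal → ∃ l : ℕ, l.Prime ∧ (l : 𝓞 E) ∈ w.asIdeal := by
    intro n
    induction n using Nat.strong_induction_on with
    | _ n ih =>
      intro hn hnw
      have h1 : n ≠ 1 := by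
        rintro rfl
        rw [Nat.cast_one] at hnw
        exact hone hnw
      obtain ⟨k, hk⟩ := Nat.minFac_dvd n
      have hp := Nat.minFac_prime h1
      have hnw' : ((n.minFac * k : ℕ) : 𝓞 E) ∈ w.asIdeal := by rw [← hk]; exact hnw
      rw [Nat.cast_mul] at hnw'
      rcases hwp.mem_or_mem hnw' with h2 | h2
      · exact ⟨n.minFac, hp, h2⟩
      · have hk0 : k ≠ 0 := by
          rintro rfl
          rw [mul_zero] at hk
          exact hn hk
        have hkn : k < n := by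
          have h3 := hp.two_le
          have h4 : 2 * k ≤ n.minFac * k := Nat.mul_le_mul_right k h3
          omega
        exact ih k hkn hk0 h2
  refine key (Ideal.absNorm w.asIdeal) ?_ (Ideal.absNorm_mem w.asIdeal)
  rw [Ne, Ideal.absNorm_eq_zero_iff]
  exact w.ne_bot

/-- Chunk P4 (S), only Mathlib. Bezout. -/
theorem p4_uniq {E : Type} [Field E] [NumberField E] (w : HeightOneSpectrum (𝓞 E)) {r s : ℕ} (hr : r.Prime) (hs : s.Prime)
    (h1 : (r : 𝓞 E) ∈ w.asIdeal) (h2 : (s : 𝓞 E) ∈ w.asIdeal) : r = s := by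
  by_contra hne
  have hc : IsCoprime (r : ℤ) (s : ℤ) := Nat.isCoprime_iff_coprime.2 ((Nat.coprime_primes hr hs).2 hne)
  obtain ⟨a, b, hab⟩ := hc
  have h3 := congrArg (fun z : ℤ => (z : 𝓞 E)) hab
  simp only [Int.cast_add, Int.cast_mul, Int.cast_natCast, Int.cast_one] at h3
  refine w.isPrime.ne_top ((Ideal.eq_top_iff_one _).2 ?_)
  rw [← h3]
  exact add_mem (Ideal.mul_mem_left _ _ h1) (Ideal.mul_mem_left _ _ h2)

/-- Chunk P4 (M), only Mathlib. The number of primes above q, if all residue degrees are at least f: sum of e_P f_P over the primes P above q is [E : ℚ] (Ideal.sum_ramification_inertia, deprecated: the current form is in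
Mathlib/RingTheory/RamificationInertia/Basic.lean; or: the absolute norm of (q) is q^[E:ℚ], divisible by the product of the norms of the different primes containing q, each at least q^f), each term is at least f. -/
theorem p4_count (E : Type) [Field E] [NumberField E] {q : ℕ} (hq : q.Prime) (f : ℕ)
    (hf : ∀ w : HeightOneSpectrum (𝓞 E), (q : 𝓞 E) ∈ w.asIdeal → f ≤ w.asIdeal.inertiaDeg ℤ) :
    {w : HeightOneSpectrum (𝓞 E) | (q : 𝓞 E) ∈ w.asIdeal}.Finite ∧
      {w : HeightOneSpectrum (𝓞 E) | (q : 𝓞 E) ∈ w.asIdeal}.ncard * f ≤ Module.finrank ℚ E := by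
  have hF : Fact q.Prime := ⟨hq⟩
  have hm : (Ideal.span {(q : ℤ)}).IsMaximal := Int.ideal_span_isMaximal_of_prime q
  have hmp := hm.isPrime
  have hb : Ideal.span {(q : ℤ)} ≠ ⊥ := by
    rw [Ne, Ideal.span_singleton_eq_bot]
    exact_mod_cast hq.ne_zero
  have hfin : ((Ideal.span {(q : ℤ)}).primesOver (𝓞 E)).Finite := IsDedekindDomain.primesOver_finite (Ideal.span {(q : ℤ)}) (𝓞 E)
  have hft : Fintype ((Ideal.span {(q : ℤ)}).primesOver (𝓞 E)) := hfin.fintype
  have hsum := Ideal.sum_ramification_inertia_eq_finrank (Ideal.span {(q : ℤ)}) (𝓞 E)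
  rw [RingOfIntegers.rank] at hsum
  have hmaps : Set.MapsTo (fun w : HeightOneSpectrum (𝓞 E) => w.asIdeal) {w : HeightOneSpectrum (𝓞 E) | (q : 𝓞 E) ∈ w.asIdeal}
      ((Ideal.span {(q : ℤ)}).primesOver (𝓞 E)) := by
    intro w hw
    exact ⟨w.isPrime, (p4_over hq w.asIdeal w.isPrime).1 hw⟩
  have hinj : Set.InjOn (fun w : HeightOneSpectrum (𝓞 E) => w.asIdeal) {w : HeightOneSpectrum (𝓞 E) | (q : 𝓞 E) ∈ w.asIdeal} := by
    intro w _ w' _ h
    exact HeightOneSpectrum.ext h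
  refine ⟨Set.Finite.of_injOn hmaps hinj hfin, ?_⟩
  have h1 : {w : HeightOneSpectrum (𝓞 E) | (q : 𝓞 E) ∈ w.asIdeal}.ncard ≤ ((Ideal.span {(q : ℤ)}).primesOver (𝓞 E)).ncard :=
    Set.ncard_le_ncard_of_injOn _ hmaps hinj hfin
  have h2 : ∀ Q : (Ideal.span {(q : ℤ)}).primesOver (𝓞 E), f ≤ Q.1.ramificationIdx ℤ * Q.1.inertiaDeg ℤ := by
    intro Q
    have hQp : Q.1.IsPrime := Q.2.1
    have hQl : Q.1.LiesOver (Ideal.span {(q : ℤ)}) := Q.2.2
    have h3 := hf ⟨Q.1, hQp, Ideal.ne_bot_of_liesOver_of_ne_bot hb Q.1⟩ ((p4_over hq Q.1 hQp).2 hQl)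
    have h4 : 0 < Q.1.ramificationIdx ℤ := Ideal.ramificationIdx_pos Q.1 ℤ
    exact h3.trans (Nat.le_mul_of_pos_left _ h4)
  have h3 : Fintype.card ((Ideal.span {(q : ℤ)}).primesOver (𝓞 E)) * f ≤ Module.finrank ℚ E := by
    rw [← hsum, ← Finset.card_univ, ← smul_eq_mul, ← Finset.sum_const]
    exact Finset.sum_le_sum fun Q _ => h2 Q
  have h4 : ((Ideal.span {(q : ℤ)}).primesOver (𝓞 E)).ncard = Fintype.card ((Ideal.span {(q : ℤ)}).primesOver (𝓞 E)) := by
    rw [← Nat.card_coe_set_eq, Nat.card_eq_fintype_card]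
  rw [h4] at h1
  exact (Nat.mul_le_mul_right f h1).trans h3

end H57N
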