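import Mathlib
import Pool.Agent.Lib.H13T.Stm
import Pool.Agent.Lib.H28T.CE
import Pool.Agent.Lib.H57N.P2
import Pool.Agent.Lib.H57N.P3
import Pool.Agent.Lib.H57N.P4

/-! # H57N, chunk E1: K = M B and K' = M B' -/

open NumberField IsDedekindDomain WeierstrassCurve

namespace H57N

open H28T
open H55P H55R
open H55K H55K.TQ

variable {p n l : ℕ} {Q : Finset ℕ} {B : Type} [Field B] [NumberField B] {B' : IntermediateField ℚ B}

/-- Chunk E1 (S). p2_cop M B and p2_cop M B' (a prime number r dividing discr M is not l and not in Q, so B is unramified at r: h.unr, h.unr'); p2_deg for hK: [K : M] = [B : ℚ] = p^(n+1) (h.deg), e : Gal(K/M) ≃* Gal(B/ℚ), cyclic (h.cyc;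
isCyclic_of_surjective e.symm); p2_deg for hK' (IsGalois ℚ B': h.gal'): [K' : M] = [B' : ℚ] = p^n (h.deg'). IsGalois M K: p1_gal. (haveI := h.gal.) -/
theorem e1_cyc (h : Cy p n l Q B B') (M K' K : Type) [Field M] [NumberField M] [Field K'] [NumberField K'] [Field K] [NumberField K]
    [Algebra M K'] [Algebra K' K] [Algebra M K] [IsScalarTower M K' K] [Algebra B' K'] [Algebra B K] (hK' : Cmp M B' K') (hK : Cmp M B K)
    (hd : ∀ r : ℕ, r.Prime → (r : ℤ) ∣ discr M → r ≠ l ∧ r ∉ Q) : H13T.CycT p n M K' K := by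
  haveI := h.gal
  haveI := h.gal'
  have c1 : IsCoprime (discr M) (discr B) := p2_cop M B fun r hr hrd w hw => h.unr w r hr hw (hd r hr hrd).1 (hd r hr hrd).2
  have c2 : IsCoprime (discr M) (discr B') := p2_cop M B' fun r hr hrd w hw => h.unr' w r hr hw (hd r hr hrd).1
  obtain ⟨d1, e, he⟩ := p2_deg hK c1
  obtain ⟨d2, e', he'⟩ := p2_deg hK' c2
  haveI := h.cyc
  exact ⟨inferInstance, p1_gal hK, isCyclic_of_surjective e.symm e.symm.surjective, d1.trans h.deg, d2.trans h.deg'⟩

/-- Chunk E1 (M). L = N B' is in the class ExtG G p: IsGalois F L: p3_gal; [L : F] = [N : F] [L : N] = p^k p^n (Module.finrank_mul_finrank, p2_deg with p2_cop N B', h.deg'). Let w be a prime of L above v of F, ¬ G v; u = w ∩ N, t = w ∩ B' (p4_below). The ramification index of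
w over F is that of u over F (1 by hN) times that of w over N (p4_tower). Let r be the prime number in w (p4_char), it is in v: so r ≠ l (otherwise G v by hG), so t is unramified over ℤ (h.unr'; r in t), so w is unramified over N (p3_unr). -/
theorem e1_ext {F : Type} [Field F] [NumberField F] {G : HeightOneSpectrum (𝓞 F) → Prop} (h : Cy p n l Q B B') (N L : Type) [Field N]
    [NumberField N] [Field L] [NumberField L] [Algebra F N] [Algebra N L] [Algebra F L] [IsScalarTower F N L] [Algebra B' L] (hL : Cmp N B' L)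
    (hN : ExtG G p N) (hd : ∀ r : ℕ, r.Prime → (r : ℤ) ∣ discr N → r ≠ l ∧ r ∉ Q) (hG : GoodL G l) : ExtG G p L := by
  haveI := h.gal'
  haveI := hN.1
  have c2 : IsCoprime (discr N) (discr B') := p2_cop N B' fun r hr hrd w hw => h.unr' w r hr hw (hd r hr hrd).1
  have d2 := (p2_deg hL c2).1
  obtain ⟨k, hk⟩ := hN.2.1
  refine ⟨p3_gal (F := F) hL, ⟨k + n, ?_⟩, ?_⟩
  · have h1 : Module.finrank F L = Module.finrank F N * Module.finrank N L := (Module.finrank_mul_finrank F N L).symm
    rw [h1, hk, d2, h.deg', ← pow_add]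
  · intro w v hv hGv
    obtain ⟨u, hu⟩ := p4_below (B := N) w
    obtain ⟨t, ht⟩ := p4_below (B := B') w
    obtain ⟨r, hr, hrw⟩ := p4_char w
    have hrv : (r : 𝓞 F) ∈ v.asIdeal := by
      rw [hv, Ideal.under_def, Ideal.mem_comap, map_natCast]
      exact hrw
    have hrt : (r : 𝓞 B') ∈ t.asIdeal := by
      rw [ht, Ideal.under_def, Ideal.mem_comap, map_natCast]
      exact hrw
    have hrl : r ≠ l := by
      rintro rfl
      exact hGv (hG v hrv)
    have e1 := h.unr' t r hr hrt hrl
    have e2 := p3_unr hL w t ht e1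
    have hvu : v.asIdeal = u.asIdeal.under (𝓞 F) := by
      rw [hv, hu, Ideal.under_under]
    have e3 := hN.2.2 u v hvu hGv
    rw [(p4_tower (A := F) w u hu).1, e3, e2]

end H57N
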