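import Mathlib
import Pool.Agent.Lib.H55K.BH1
import Pool.Agent.Lib.H57N.P2
import Pool.Agent.Lib.H57N.P3
import Pool.Agent.Lib.H57N.P4

/-! # H57N, chunk E2: p is unramified in K -/

open NumberField IsDedekindDomain

namespace H57N

/-- Chunk E2 (S/M). H55K.TQ.unr_iff (H55K/BH1.lean): UnrP p E iff p is not in w^2 for all primes w; and the ramification index of w over ℤ is 1 iff p is not in w^2, for p in w: Ideal.ramificationIdx'_eq_ramificationIdx, Ideal.le_pow_of_le_ramificationIdx'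
(w lies over span {p}), see x1_pr in H55Z/X1.lean for one direction; the other: Ideal.ramificationIdx'_spec / Ideal.le_pow_iff_le_ramificationIdx'... (if the index is 1 then map (p) is not ≤ w^2; if p is not in w^2 then 2 ≤ index is impossible, and the index is > 0).
Compare H55Z.q10_unr (Lib/H55Z/Q10.lean). -/
theorem e2_iff (E : Type) [Field E] [NumberField E] {p : ℕ} (hp : p.Prime) :
    H55P.UnrP p E ↔ ∀ w : HeightOneSpectrum (𝓞 E), (p : 𝓞 E) ∈ w.asIdeal → w.asIdeal.ramificationIdx ℤ = 1 := by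
  have hkey : ∀ w : HeightOneSpectrum (𝓞 E), (p : 𝓞 E) ∈ w.asIdeal →
      ((p : 𝓞 E) ∈ w.asIdeal ^ 2 ↔ w.asIdeal.ramificationIdx ℤ ≠ 1) := by
    intro w hw
    have hwp := w.isPrime
    have hl : w.asIdeal.LiesOver (Ideal.span {(p : ℤ)}) := (p4_over hp w.asIdeal w.isPrime).1 hw
    have hb : Ideal.span {(p : ℤ)} ≠ ⊥ := by
      rw [Ne, Ideal.span_singleton_eq_bot]
      exact_mod_cast hp.ne_zero
    have hmap : ∀ n : ℕ, Ideal.map (algebraMap ℤ (𝓞 E)) (Ideal.span {(p : ℤ)}) ≤ w.asIdeal ^ n ↔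
        (p : 𝓞 E) ∈ w.asIdeal ^ n := by
      intro n
      rw [Ideal.map_span, Set.image_singleton, Ideal.span_singleton_le_iff_mem]
      simp
    rw [← Ideal.ramificationIdx'_eq_ramificationIdx (Ideal.span {(p : ℤ)}) w.asIdeal hb, ← hmap 2]
    exact (Ideal.ramificationIdx'_ne_one_iff (by
      have h1 := (hmap 1).2 (by rwa [pow_one])
      rwa [pow_one] at h1)).symm
  rw [H55K.TQ.unr_iff hp]
  constructor
  · intro h w hw
    by_contra hne
    exact h w ((hkey w hw).2 hne)
  · intro h w hw2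
    have hw : (p : 𝓞 E) ∈ w.asIdeal := Ideal.pow_le_self two_ne_zero hw2
    exact (hkey w hw).1 hw2 (h w hw)

/-- Chunk E2 (S). e2_iff; a prime w of E above p: u = w ∩ C, t = w ∩ B (p4_below): the index over ℤ is that of u (1 by hC) times that of w over C (p4_towerZ), which is 1 by p3_unr, since t is unramified (h.unr: p ≠ l, p not in Q). haveI := h.gal. -/
theorem e2_unr {p n l : ℕ} {Q : Finset ℕ} {B : Type} [Field B] [NumberField B] {B' : IntermediateField ℚ B} (h : Cy p n l Q B B')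
    (hp : p.Prime) (hpl : p ≠ l) (hpQ : p ∉ Q) {C E : Type} [Field C] [NumberField C] [Field E] [NumberField E] [Algebra C E] [Algebra B E]
    (hE : Cmp C B E) (hC : H55P.UnrP p C) : H55P.UnrP p E := by
  haveI := h.gal
  rw [e2_iff E hp]
  rw [e2_iff C hp] at hC
  intro w hw
  obtain ⟨u, hu⟩ := p4_below (B := C) w
  obtain ⟨t, ht⟩ := p4_below (B := B) w
  have hpu : (p : 𝓞 C) ∈ u.asIdeal := by
    rw [hu, Ideal.mem_comap]
    simpa using hw
  have hpt : (p : 𝓞 B) ∈ t.asIdeal := by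
    rw [ht, Ideal.mem_comap]
    simpa using hw
  rw [(p4_towerZ w u hu).1, hC u hpu, p3_unr hE w t ht (h.unr t p hp hpt hpl hpQ)]

end H57N
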