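import Mathlib

/-! # H57N, chunk A1: points over residue fields -/

open NumberField IsDedekindDomain WeierstrassCurve

namespace H57N

/-- Chunk A1 (S/M), only Mathlib. A homomorphism of fields f : k → k', k' finite: the group of points over k injects in the group over k' (WeierstrassCurve.Affine.Point.map for the ℤ-algebra homomorphism f, Point.map_injective), so its order divides
(Lagrange: AddSubgroup.card_dvd_of_injective; the group over k' is finite). The base changes: W⁄k = W.map (algebraMap ℤ k). -/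
theorem a1_up (W : WeierstrassCurve ℤ) {k k' : Type} [Field k] [Field k'] [Finite k'] [DecidableEq k] [DecidableEq k'] (f : k →+* k') {p : ℕ}
    (h : p ∣ Nat.card (W⁄k).toAffine.Point) : p ∣ Nat.card (W⁄k').toAffine.Point := by
  let g : k →ₐ[ℤ] k' := f.toIntAlgHom
  exact h.trans (AddSubgroup.card_dvd_of_injective (WeierstrassCurve.Affine.Point.map (W' := W.toAffine) g)
    (WeierstrassCurve.Affine.Point.map_injective (W' := W.toAffine) g))

/-- Chunk A1 (S), only Mathlib. K' an extension of K, w' a prime of K' above w. The homomorphism 𝓞 K ⧸ w → 𝓞 K' ⧸ w' (Ideal.quotientMap) and a1_up with Ideal.Quotient.field (letI; the quotients are finite: Ideal.finiteQuotientOfFreeOfNeBot). -/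
theorem a1_above (W : WeierstrassCurve ℤ) {K K' : Type} [Field K] [NumberField K] [Field K'] [NumberField K'] [Algebra K K']
    (w : HeightOneSpectrum (𝓞 K)) (w' : HeightOneSpectrum (𝓞 K')) (hw : w.asIdeal = w'.asIdeal.under (𝓞 K)) {p : ℕ}
    (h : p ∣ Nat.card (W⁄(𝓞 K ⧸ w.asIdeal)).toAffine.Point) : p ∣ Nat.card (W⁄(𝓞 K' ⧸ w'.asIdeal)).toAffine.Point := by
  classical
  let : Field (𝓞 K ⧸ w.asIdeal) := Ideal.Quotient.field w.asIdeal
  let : Field (𝓞 K' ⧸ w'.asIdeal) := Ideal.Quotient.field w'.asIdeal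
  have hfin : Finite (𝓞 K' ⧸ w'.asIdeal) := Ideal.finiteQuotientOfFreeOfNeBot w'.asIdeal w'.ne_bot
  exact a1_up W (Ideal.quotientMap w'.asIdeal (algebraMap (𝓞 K) (𝓞 K')) (le_of_eq hw)) h

/-- Chunk A1 (S/M), only Mathlib. v a prime of F of prime norm q, w a prime of K (no relation between F and K) above the number q: 𝓞 F ⧸ v has q elements, so it is isomorphic to ZMod q (ZMod.ringEquivOfPrime or: ZMod.castHom is bijective), and there is a
homomorphism ZMod q → 𝓞 K ⧸ w (characteristic q: q in w; ZMod.castHom or ZMod.lift), so a homomorphism 𝓞 F ⧸ v → 𝓞 K ⧸ w: a1_up. -/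
theorem a1_deg {F K : Type} [Field F] [NumberField F] [Field K] [NumberField K] (W : WeierstrassCurve ℤ) {q p : ℕ} (hq : q.Prime)
    (v : HeightOneSpectrum (𝓞 F)) (hv : Ideal.absNorm v.asIdeal = q) (w : HeightOneSpectrum (𝓞 K)) (hw : (q : 𝓞 K) ∈ w.asIdeal)
    (h : p ∣ Nat.card (W⁄(𝓞 F ⧸ v.asIdeal)).toAffine.Point) : p ∣ Nat.card (W⁄(𝓞 K ⧸ w.asIdeal)).toAffine.Point := by
  classical
  have : Fact q.Prime := ⟨hq⟩
  let : Field (𝓞 F ⧸ v.asIdeal) := Ideal.Quotient.field v.asIdeal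
  let : Field (𝓞 K ⧸ w.asIdeal) := Ideal.Quotient.field w.asIdeal
  have hfin : Finite (𝓞 K ⧸ w.asIdeal) := Ideal.finiteQuotientOfFreeOfNeBot w.asIdeal w.ne_bot
  have hfin' : Finite (𝓞 F ⧸ v.asIdeal) := Ideal.finiteQuotientOfFreeOfNeBot v.asIdeal v.ne_bot
  let : Fintype (𝓞 F ⧸ v.asIdeal) := Fintype.ofFinite _
  have hcard : Fintype.card (𝓞 F ⧸ v.asIdeal) = q := by
    rw [← Nat.card_eq_fintype_card, ← hv, Ideal.absNorm_apply, Submodule.cardQuot_apply]
  let e : ZMod q ≃+* (𝓞 F ⧸ v.asIdeal) := ZMod.ringEquivOfPrime _ hq hcard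
  have hq0 : ((q : ℕ) : 𝓞 K ⧸ w.asIdeal) = 0 := by
    have h1 : Ideal.Quotient.mk w.asIdeal ((q : ℕ) : 𝓞 K) = 0 := Ideal.Quotient.eq_zero_iff_mem.2 hw
    rw [map_natCast] at h1
    exact h1
  have : CharP (𝓞 K ⧸ w.asIdeal) q := (CharP.charP_iff_prime_eq_zero hq).2 hq0
  let f : ZMod q →+* (𝓞 K ⧸ w.asIdeal) := ZMod.castHom (dvd_refl q) _
  exact a1_up W (f.comp (e.symm : (𝓞 F ⧸ v.asIdeal) →+* ZMod q)) h

/-- Chunk A1 (S), only Mathlib. The iterated base change is the base change (WeierstrassCurve.map_map or baseChange_baseChange.., IsScalarTower ℤ (𝓞 F) k; perhaps rfl after ext). -/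
theorem a1_base {F k : Type} [Field F] [NumberField F] [CommRing k] [Algebra (𝓞 F) k] (W : WeierstrassCurve ℤ) :
    ((W⁄(𝓞 F))⁄k) = (W⁄k) := by
  ext <;> simp [WeierstrassCurve.baseChange]

end H57N
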