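import Mathlib
import Pool.Agent.Lib.H55K.BH
import Pool.Agent.Lib.H55K.DM
import Pool.Agent.Lib.H13R.H1
import Pool.Agent.Lib.H28T.CB2

/-! # H57N, chunk A2: anomalous primes in p-extensions -/

open NumberField IsDedekindDomain WeierstrassCurve

namespace H57N

open H55P H55R
open H55K H55K.TQ

/-- Anomalous primes go down in Galois p-extensions of F. -/
def DownP {F : Type} [Field F] [NumberField F] (W₀ : WeierstrassCurve (𝓞 F)) (p : ℕ) : Prop :=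
  ∀ (L : Type) [Field L] [NumberField L] [Algebra F L] [IsGalois F L], (∃ k : ℕ, Module.finrank F L = p ^ k) →
    ∀ (w : HeightOneSpectrum (𝓞 L)) (v : HeightOneSpectrum (𝓞 F)), v.asIdeal = w.asIdeal.under (𝓞 F) → W₀.Δ ∉ v.asIdeal →
      p ∣ Nat.card (W₀⁄(𝓞 L ⧸ w.asIdeal)).toAffine.Point → p ∣ Nat.card (W₀⁄(𝓞 F ⧸ v.asIdeal)).toAffine.Point

/-- p divides the norm of a prime element above p. -/
theorem a2_nm {F : Type} [Field F] [NumberField F] [IQ F] {p : ℕ} (hp : p.Prime) {π : 𝓞 F} (hπ : Prime π)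
    (hd : π ∣ (p : 𝓞 F)) : p ∣ H55P.Nm π := by
  obtain ⟨c, hc⟩ := hd
  have h1 : H55P.Nm π * H55P.Nm c = p ^ 2 := by rw [← Nm_mul, ← hc, Nm_nat]
  obtain ⟨i, hi, hi2⟩ := (Nat.dvd_prime_pow hp).1 (Dvd.intro _ h1)
  rcases Nat.eq_zero_or_pos i with h0 | h0
  · rw [h0, pow_zero] at hi2
    exfalso
    apply hπ.not_isUnit
    unfold H55P.Nm at hi2
    rwa [Ideal.absNorm_eq_one_iff, Ideal.span_singleton_eq_top] at hi2
  · rw [hi2]
    exact dvd_pow_self p h0.ne'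

/-- If p divides the norm of 1 - x^(p^i) it divides the norm of 1 - x. -/
theorem a2_arith {F : Type} [Field F] [NumberField F] [IQ F] {p : ℕ} (hp : p.Prime) (x : 𝓞 F) (i : ℕ)
    (h : p ∣ H55P.Nm (1 - x ^ p ^ i)) : p ∣ H55P.Nm (1 - x) := by
  obtain ⟨π₀, hπ₀, hd₀⟩ := H28T.cb1_pi (F := F) hp
  obtain ⟨π, hπ, hd, hx⟩ : ∃ π : 𝓞 F, Prime π ∧ π ∣ (p : 𝓞 F) ∧ π ∣ 1 - x ^ p ^ i := by
    obtain ⟨c, hc⟩ := h
    have h1 : π₀ ∣ (1 - x ^ p ^ i) * cj (1 - x ^ p ^ i) := by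
      rw [mul_cj, hc, Nat.cast_mul]
      exact hd₀.mul_right _
    rcases hπ₀.dvd_or_dvd h1 with h2 | h2
    · exact ⟨π₀, hπ₀, hd₀, h2⟩
    · refine ⟨cj π₀, cj_prime hπ₀, ?_, ?_⟩
      · rw [cj_dvd, cj_nat]
        exact hd₀
      · rw [cj_dvd]
        exact h2
  obtain ⟨r, hr⟩ := exists_add_pow_prime_pow_eq hp x (1 - x) i
  have e : x + (1 - x) = 1 := by ring
  rw [e, one_pow] at hr
  have h3 : π ∣ (1 - x) ^ p ^ i := by
    have e2 : (1 - x) ^ p ^ i = (1 - x ^ p ^ i) - (p : 𝓞 F) * x * (1 - x) * r := by linear_combination -hr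
    rw [e2]
    exact dvd_sub hx (((hd.mul_right _).mul_right _).mul_right _)
  obtain ⟨c, hc⟩ := hπ.dvd_of_dvd_pow h3
  rw [hc, Nm_mul]
  exact (a2_nm hp hπ hd).mul_right _

/-- Chunk A2 (M). The number of points modulo w is Nm (1 - ψ (relNorm w)) (H55K.pts_w with hH.data.hecke, hH.deu, and ¬ mK L m ≤ w.asIdeal: H13R.h1_pos), relNorm w = v^f (Ideal.relNorm_eq_pow_of_isMaximal), f = the residue degree divides [L : F] = p^k
(Galois: Ideal.inertiaDeg.. the order of the decomposition group e f divides the order; see card_stab, D5_norm in H55R, or H13S/H28G; or e f g = n: Ideal.ncard_primesOver_mul_ramificationIdxIn_mul_inertiaDegIn), so f = p^i. ψ is multiplicative: ψ (v^f) = (ψ v)^f.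
Let x = ψ v. p ∣ Nm (1 - x^f), Nm y = y * cj y (mul_cj), so a prime element π dividing p (cb1_pi) divides 1 - x^f or its conjugate: after replacing π by cj π, π ∣ 1 - x^f. (1 - x)^(p^i) = 1 - x^(p^i) modulo p (sub_pow_char_pow in the ring 𝓞 F ⧸ (p) of
characteristic p: CharP; or the binomial theorem / induction on i), so π ∣ (1 - x)^f, π ∣ 1 - x, Nm π ∣ Nm (1 - x) (Nm_mul), p ∣ Nm π (Nm π divides p^2 and is not 1: cb2_unit), and Nm (1 - x) is the number of points modulo v (hH.deu). -/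
theorem a2_down {F : Type} [Field F] [NumberField F] [IQ F] {W₀ : WeierstrassCurve (𝓞 F)} {Om : ℂ} {m : Ideal (𝓞 F)}
    {ψ : Ideal (𝓞 F) →*₀ 𝓞 F} {p : ℕ} (hH : BaseH F W₀ Om m ψ) (hp : PrimeH F W₀ p) : DownP W₀ p := by
  intro L _ _ _ _ hk w v hv hΔ hdvd
  obtain ⟨k, hk⟩ := hk
  obtain ⟨v', hv', hN, hf, hmv⟩ := H55K.DD.below (m := m) w
  have hvv : v' = v := HeightOneSpectrum.ext (hv'.trans hv.symm)
  rw [hvv] at hN
  have hΔ' : algebraMap (𝓞 F) (𝓞 L) W₀.Δ ∉ w.asIdeal := by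
    intro hm
    apply hΔ
    rw [hv]
    exact hm
  rw [pts_w hH.data.hecke (fun v hv _ => hH.deu v hv) w hΔ' fun hm => hΔ' ((H13R.h1_pos hH w).2 hm), hN, map_pow] at hdvd
  rw [hH.deu v hΔ]
  have hwp := w.isPrime
  have hwm := w.isMaximal
  have hvp := v.isPrime
  have hvm := v.isMaximal
  have hl : w.asIdeal.LiesOver v.asIdeal := ⟨hv⟩
  have h1 := Ideal.ncard_primesOver_mul_ramificationIdxIn_mul_inertiaDegIn v.asIdeal (𝓞 L) Gal(L/F)
  rw [Ideal.inertiaDegIn_eq_inertiaDeg v.asIdeal w.asIdeal Gal(L/F), IsGalois.card_aut_eq_finrank, hk] at h1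
  obtain ⟨i, -, hi⟩ := (Nat.dvd_prime_pow hp.prime).1 (Dvd.intro_left _ (by rw [← h1, mul_assoc]) :
    w.asIdeal.inertiaDeg (𝓞 F) ∣ p ^ k)
  rw [hi] at hdvd
  exact a2_arith hp.prime _ i hdvd

end H57N
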