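import Mathlib
import Pool.Agent.Lib.H13T.Stm
import Pool.Agent.Lib.H28T.CE
import Pool.Agent.Lib.H57N.A1
import Pool.Agent.Lib.H57N.A2
import Pool.Agent.Lib.H57N.P2
import Pool.Agent.Lib.H57N.P3
import Pool.Agent.Lib.H57N.P4

/-! # H57N, chunk E3: the anomalous primes ramified in K: upper bound -/

open NumberField IsDedekindDomain WeierstrassCurve

namespace H57N

open H28T
open H55P H55R
open H55K H55K.TQ

variable {p n l : ℕ} {Q : Finset ℕ} {B : Type} [Field B] [NumberField B] {B' : IntermediateField ℚ B}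

theorem e3_nat {A E : Type} [Field A] [NumberField A] [Field E] [NumberField E] [Algebra A E] (I : Ideal (𝓞 E)) (q : ℕ) :
    (q : 𝓞 A) ∈ I.under (𝓞 A) ↔ (q : 𝓞 E) ∈ I := by
  rw [Ideal.under_def, Ideal.mem_comap, map_natCast]

theorem e3_int {A E : Type} [Field A] [NumberField A] [Field E] [NumberField E] [Algebra A E] (I : Ideal (𝓞 E)) (q : ℤ) :
    (q : 𝓞 A) ∈ I.under (𝓞 A) ↔ (q : 𝓞 E) ∈ I := by
  rw [Ideal.under_def, Ideal.mem_comap, map_intCast]

/-- Chunk E3 (S/M). Every w in AnR is above a q in Q. Let P be the prime of K above w with ramification index over K' not 1, r the prime number in P (p4_char; r in w). If r ≠ l and r not in Q, then P ∩ B is unramified over ℤ (h.unr), so P is unramified over M (p3_unr), and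
over K' (p4_tower for M, K', K: the product is 1): contradiction. If r = l: let w' be a prime of L above w (H55R.under_exists), v = w' ∩ F: l in v, so Gx v (hG): p ∤ number of points modulo v if Δ not in v. Δ is not in v, because Δ (an integer: (W⁄(𝓞 F)).Δ is the image
of W.Δ; see the proof of gx_conj in H28T/XMain.lean) is not in w. p divides the number of points modulo w, so modulo w' (a1_above), so modulo v (hD applied to L, with a1_base to identify ((W⁄(𝓞 F))⁄k) with (W⁄k)): contradiction. -/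
theorem e3_sub {F : Type} [Field F] [NumberField F] {W : WeierstrassCurve ℤ} (h : Cy p n l Q B B') (M K' K L : Type) [Field M] [NumberField M]
    [Field K'] [NumberField K'] [Field K] [NumberField K] [Field L] [NumberField L]
    [Algebra M K'] [Algebra K' K] [Algebra M K] [IsScalarTower M K' K] [Algebra B K] [Algebra K' L] [Algebra F L] (hK : Cmp M B K)
    (hL : IsGalois F L) (hLp : ∃ k : ℕ, Module.finrank F L = p ^ k) (hG : GoodL (Gx (W⁄(𝓞 F)) p) l) (hD : DownP (W⁄(𝓞 F)) p)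
    (w : HeightOneSpectrum (𝓞 K')) (hw : w ∈ H13T.AnR p W K' K) : ∃ q ∈ Q, (q : 𝓞 K') ∈ w.asIdeal := by
  obtain ⟨hΔ, hpt, P, hPw, hPr⟩ := hw
  obtain ⟨r, hr, hrw⟩ := p4_char w
  by_cases hrQ : r ∈ Q
  · exact ⟨r, hrQ, hrw⟩
  exfalso
  by_cases hrl : r = l
  · subst hrl
    obtain ⟨w', hw'⟩ := H55R.under_exists (L := L) w
    have hw'' : w.asIdeal = w'.asIdeal.under (𝓞 K') := by
      rw [← hw']
      rfl
    obtain ⟨v, hv⟩ := p4_below (B := F) w'
    have hrv : (r : 𝓞 F) ∈ v.asIdeal := by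
      rw [hw'', e3_nat] at hrw
      rw [hv, e3_nat]
      exact hrw
    have hg := hG v hrv
    have hΔv : (W⁄(𝓞 F)).Δ ∉ v.asIdeal := by
      intro h1
      apply hΔ
      have e : (W⁄(𝓞 F)).Δ = ((W.Δ : ℤ) : 𝓞 F) := by
        have e1 : (W⁄(𝓞 F)).Δ = algebraMap ℤ (𝓞 F) W.Δ := W.map_Δ _
        rw [e1]
        simp
      rw [e, hv, e3_int] at h1
      rw [hw'', e3_int]
      exact h1
    have h1 := a1_above W w w' hw'' hpt
    have h2 : ((W⁄(𝓞 F))⁄(𝓞 L ⧸ w'.asIdeal)) = (W⁄(𝓞 L ⧸ w'.asIdeal)) := a1_base W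
    have h3 : p ∣ Nat.card ((W⁄(𝓞 F))⁄(𝓞 L ⧸ w'.asIdeal)).toAffine.Point := by
      rw [h2]
      exact h1
    exact hg.2 hΔv (hD L hLp w' v hv hΔv h3)
  · have hB := h.gal
    obtain ⟨t, ht⟩ := p4_below (B := B) P
    have hrt : (r : 𝓞 B) ∈ t.asIdeal := by
      rw [← hPw, e3_nat] at hrw
      rw [ht, e3_nat]
      exact hrw
    have h1 := p3_unr hK P t ht (h.unr t r hr hrt hrl hrQ)
    rw [(p4_tower (A := M) P w hPw.symm).1] at h1
    exact hPr (Nat.eq_one_of_mul_eq_one_left h1)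

/-- Chunk E3 (S/M). For q in Q every prime w of K' above q has residue degree at least p^n (t = w ∩ B', h.ine, p4_towerZ: f(w) = f(t) f(w/t), f(w/t) > 0), so there are at most [K' : ℚ]/p^n = [M : ℚ] of them (p4_count; [K' : ℚ] = [K' : M] [M : ℚ], hdeg);
hsub: AnR is contained in the union over q in Q (Set.ncard_le_ncard, Finset.card_biUnion / induction on Q). q prime: hq. -/
theorem e3_count (h : Cy p n l Q B B') (hp : p.Prime) (M K' : Type) [Field M] [NumberField M]
    [Field K'] [NumberField K'] [Algebra M K'] [Algebra B' K'] (hdeg : Module.finrank M K' = p ^ n) (hq : ∀ q ∈ Q, q.Prime)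
    (S : Set (HeightOneSpectrum (𝓞 K'))) (hsub : ∀ w ∈ S, ∃ q ∈ Q, (q : 𝓞 K') ∈ w.asIdeal) :
    S.Finite ∧ S.ncard ≤ Q.card * Module.finrank ℚ M := by
  have hM : IsScalarTower ℚ M K' := IsScalarTower.of_algebraMap_eq' (Subsingleton.elim _ _)
  have hpn : 0 < p ^ n := pow_pos hp.pos n
  have hA : ∀ q ∈ Q, {w : HeightOneSpectrum (𝓞 K') | (q : 𝓞 K') ∈ w.asIdeal}.Finite ∧
      {w : HeightOneSpectrum (𝓞 K') | (q : 𝓞 K') ∈ w.asIdeal}.ncard ≤ Module.finrank ℚ M := by
    intro q hqQ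
    have h1 := p4_count K' (hq q hqQ) (p ^ n) (fun w hw => by
      obtain ⟨t, ht⟩ := p4_below (B := B') w
      have hqt : (q : 𝓞 B') ∈ t.asIdeal := by
        rw [ht, e3_nat]
        exact hw
      rw [(p4_towerZ w t ht).2]
      have hwp := w.isPrime
      exact (h.ine t q hqQ hqt).trans (Nat.le_mul_of_pos_right _ (Ideal.inertiaDeg_pos w.asIdeal (𝓞 B'))))
    refine ⟨h1.1, ?_⟩
    have h2 := h1.2
    rw [← Module.finrank_mul_finrank ℚ M K', hdeg] at h2
    exact Nat.le_of_mul_le_mul_right h2 hpn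
  have hss : S ⊆ ⋃ q ∈ Q, {w : HeightOneSpectrum (𝓞 K') | (q : 𝓞 K') ∈ w.asIdeal} := by
    intro w hw
    obtain ⟨q, hqQ, hqw⟩ := hsub w hw
    exact Set.mem_biUnion hqQ hqw
  have hfin : ∀ Q' : Finset ℕ, Q' ⊆ Q → (⋃ q ∈ Q', {w : HeightOneSpectrum (𝓞 K') | (q : 𝓞 K') ∈ w.asIdeal}).Finite ∧
      (⋃ q ∈ Q', {w : HeightOneSpectrum (𝓞 K') | (q : 𝓞 K') ∈ w.asIdeal}).ncard ≤ Q'.card * Module.finrank ℚ M := by
    intro Q'
    induction Q' using Finset.induction_on with
    | empty =>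
      intro _
      simp
    | insert a s ha ih =>
      intro hs
      obtain ⟨h1, h2⟩ := ih ((Finset.subset_insert a s).trans hs)
      obtain ⟨h3, h4⟩ := hA a (hs (Finset.mem_insert_self a s))
      rw [Finset.set_biUnion_insert]
      refine ⟨h3.union h1, (Set.ncard_union_le _ _).trans ?_⟩
      rw [Finset.card_insert_of_notMem ha, add_mul, one_mul, add_comm]
      exact add_le_add h2 h4
  obtain ⟨h5, h6⟩ := hfin Q (Finset.Subset.refl Q)
  exact ⟨h5.subset hss, (Set.ncard_le_ncard hss h5).trans h6⟩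

/-- Chunk E3 (M). For q in Q there is a prime of K' above q in AnR; different q give different primes (p4_uniq), so Q.card ≤ AnR.ncard (hfin; Set.ncard / Finset.card_le_card_of_injOn). Let P be a prime of K above q (p4_above), w = P ∩ K' (p4_below), u = P ∩ M, t = P ∩ B,
t' = w ∩ B'. w is unramified over ℤ: u is (p2_unr: q does not divide discr M) and w is unramified over M (p3_unr for hK': t' is unramified, h.unr', q ≠ l). P is ramified over ℤ: t is (h.ram) and p4_towerZ. So P is ramified over K' (p4_towerZ for K' and K). Δ is not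
in w: otherwise the integer W.Δ, prime to q, is in w (Bezout). p divides the number of points modulo w: a1_deg with the prime v of F of norm q (hv). -/
theorem e3_lower {F : Type} [Field F] [NumberField F] {W : WeierstrassCurve ℤ} (h : Cy p n l Q B B') (M K' K : Type) [Field M] [NumberField M]
    [Field K'] [NumberField K'] [Field K] [NumberField K]
    [Algebra M K'] [Algebra K' K] [Algebra M K] [IsScalarTower M K' K] [Algebra B' K'] [Algebra B K] (hK' : Cmp M B' K') (hK : Cmp M B K)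
    (hd : ∀ r : ℕ, r.Prime → (r : ℤ) ∣ discr M → r ≠ l ∧ r ∉ Q) (hq : ∀ q ∈ Q, q.Prime ∧ q ≠ l ∧ ¬ (q : ℤ) ∣ W.Δ ∧
      ∃ v : HeightOneSpectrum (𝓞 F), Ideal.absNorm v.asIdeal = q ∧ p ∣ Nat.card (W⁄(𝓞 F ⧸ v.asIdeal)).toAffine.Point)
    (hfin : (H13T.AnR p W K' K).Finite) : Q.card ≤ (H13T.AnR p W K' K).ncard := by
  have key : ∀ q ∈ Q, ∃ w ∈ H13T.AnR p W K' K, (q : 𝓞 K') ∈ w.asIdeal := by
    intro q hqQ
    obtain ⟨hqp, hql, hqΔ, v, hv, hpv⟩ := hq q hqQ
    have hB := h.gal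
    have hB' := h.gal'
    obtain ⟨P, hP⟩ := p4_above K hqp
    obtain ⟨w, hw⟩ := p4_below (B := K') P
    obtain ⟨u, hu⟩ := p4_below (B := M) w
    obtain ⟨t, ht⟩ := p4_below (B := B) P
    obtain ⟨t', ht'⟩ := p4_below (B := B') w
    have hqw : (q : 𝓞 K') ∈ w.asIdeal := by
      rw [hw, e3_nat]
      exact hP
    have hqu : (q : 𝓞 M) ∈ u.asIdeal := by
      rw [hu, e3_nat]
      exact hqw
    have hqt : (q : 𝓞 B) ∈ t.asIdeal := by
      rw [ht, e3_nat]
      exact hP
    have hqt' : (q : 𝓞 B') ∈ t'.asIdeal := by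
      rw [ht', e3_nat]
      exact hqw
    have hu1 : u.asIdeal.ramificationIdx ℤ = 1 :=
      (p2_unr M hqp).1 (fun h1 => (hd q hqp h1).2 hqQ) u hqu
    have hw1 : w.asIdeal.ramificationIdx (𝓞 M) = 1 := p3_unr hK' w t' ht' (h.unr' t' q hqp hqt' hql)
    have hwZ : w.asIdeal.ramificationIdx ℤ = 1 := by
      rw [(p4_towerZ w u hu).1, hu1, hw1]
    have hPZ : P.asIdeal.ramificationIdx ℤ ≠ 1 := by
      intro h1
      rw [(p4_towerZ P t ht).1] at h1
      exact h.ram t q hqQ hqt (Nat.eq_one_of_mul_eq_one_right h1)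
    refine ⟨w, ⟨?_, a1_deg W hqp v hv w hqw hpv, P, hw.symm, ?_⟩, hqw⟩
    · intro h1
      obtain ⟨a, b, hab⟩ := ((Nat.prime_iff_prime_int.1 hqp).coprime_iff_not_dvd).2 hqΔ
      have h3 := congrArg (fun z : ℤ => (z : 𝓞 K')) hab
      simp only [Int.cast_add, Int.cast_mul, Int.cast_natCast, Int.cast_one] at h3
      refine w.isPrime.ne_top ((Ideal.eq_top_iff_one _).2 ?_)
      rw [← h3]
      exact add_mem (Ideal.mul_mem_left _ _ hqw) (Ideal.mul_mem_left _ _ h1)
    · intro h1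
      apply hPZ
      rw [(p4_towerZ P w hw).1, hwZ, h1]
  have hne : Nonempty (HeightOneSpectrum (𝓞 K')) := ⟨(p4_above K' Nat.prime_two).choose⟩
  choose! f hf1 hf2 using key
  rw [← Set.ncard_coe_finset]
  refine Set.ncard_le_ncard_of_injOn f (fun q hq' => hf1 q hq') (fun q hq1 q' hq2 hqq => ?_) hfin
  refine p4_uniq (f q) (hq q hq1).1 (hq q' hq2).1 (hf2 q hq1) ?_
  rw [hqq]
  exact hf2 q' hq2

end H57N
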