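import Pool.Agent.Lib.H57N.Defs

/-! # H57N, chunk P5: the compositum in an algebraically closed field -/

open NumberField IsDedekindDomain

namespace H57N

variable {B Ω : Type} [Field B] [Field Ω]

/-- The field generated by C and the image of B in Ω. -/
noncomputable def cE (C : Type) [Field C] [Algebra C Ω] (j : B →+* Ω) : IntermediateField C Ω :=
  IntermediateField.adjoin C (Set.range j)

theorem cE_mem (C : Type) [Field C] [Algebra C Ω] (j : B →+* Ω) (x : B) : j x ∈ cE C j :=
  IntermediateField.subset_adjoin C _ ⟨x, rfl⟩

/-- The map of B to cE. -/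
noncomputable def cj (C : Type) [Field C] [Algebra C Ω] (j : B →+* Ω) : B →+* cE C j :=
  j.codRestrict (cE C j) (cE_mem C j)

@[reducible] noncomputable def cAlg (C : Type) [Field C] [Algebra C Ω] (j : B →+* Ω) : Algebra B (cE C j) := (cj C j).toAlgebra

/-- Chunk P5 (S), only Mathlib. The adjoin over C of the range of B in cE is ⊤: IntermediateField.lift_injective (or map val), lift_adjoin, lift_top, image of the range. -/
theorem p5_cmp (C : Type) [Field C] [Algebra C Ω] (j : B →+* Ω) : @Cmp C B (cE C j) _ _ _ _ (cAlg C j) := by
  let _ := cAlg C j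
  refine ⟨?_⟩
  apply IntermediateField.lift_injective (cE C j)
  rw [IntermediateField.lift_adjoin, IntermediateField.lift_top]
  have h1 : (Subtype.val '' Set.range (algebraMap B (cE C j)) : Set Ω) = Set.range j := by
    rw [← Set.range_comp]
    rfl
  rw [h1]
  rfl

/-- Chunk P5 (S/M), only Mathlib. cE is finite over C: it is generated by the images of a finite ℚ-basis of B (or of a primitive element: Field.exists_primitive_element ℚ B, adjoin C {j α}), which are integral over C
(IntermediateField.adjoin.finiteDimensional, IntermediateField.finiteDimensional_adjoin); so it is a number field (NumberField.of_module_finite C _). See kg_fin in H13R/K0.lean. Ω has characteristic 0. -/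
theorem p5_num (C : Type) [Field C] [NumberField C] [Algebra C Ω] [NumberField B] (j : B →+* Ω) : NumberField (cE C j) := by
  obtain ⟨α, hα⟩ := Field.exists_primitive_element ℚ B
  have hcomp : j.comp (algebraMap ℚ B) = (algebraMap C Ω).comp (algebraMap ℚ C) := Subsingleton.elim _ _
  have h1 : cE C j = IntermediateField.adjoin C {j α} := by
    apply le_antisymm
    · unfold cE
      rw [IntermediateField.adjoin_le_iff]
      rintro _ ⟨x, rfl⟩
      have hx : x ∈ IntermediateField.adjoin ℚ {α} := by
        rw [hα]
        exact IntermediateField.mem_top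
      refine IntermediateField.adjoin_induction ℚ (p := fun x _ => j x ∈ IntermediateField.adjoin C {j α}) ?_ ?_ ?_ ?_ ?_ hx
      · rintro _ rfl
        exact IntermediateField.subset_adjoin C _ rfl
      · intro q
        have e1 : j (algebraMap ℚ B q) = algebraMap C Ω (algebraMap ℚ C q) := RingHom.congr_fun hcomp q
        rw [e1]
        exact (IntermediateField.adjoin C {j α}).algebraMap_mem _
      · intro x y _ _ hx hy
        rw [map_add]
        exact add_mem hx hy
      · intro x _ hx
        rw [map_inv₀]
        exact inv_mem hx
      · intro x y _ _ hx hy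
        rw [map_mul]
        exact mul_mem hx hy
    · rw [IntermediateField.adjoin_le_iff]
      rintro _ rfl
      exact cE_mem C j α
  have h2 : IsIntegral C (j α) := by
    obtain ⟨q, hq, hq0⟩ := (Algebra.IsIntegral.isIntegral (R := ℚ) α)
    refine ⟨q.map (algebraMap ℚ C), hq.map _, ?_⟩
    rw [Polynomial.eval₂_map, ← hcomp, ← Polynomial.hom_eval₂, hq0, map_zero]
  have h3 : FiniteDimensional C (IntermediateField.adjoin C {j α}) := IntermediateField.adjoin.finiteDimensional h2
  rw [← h1] at h3
  exact NumberField.of_module_finite C (cE C j)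

/-- Chunk P5 (S), only Mathlib. B' ≤ B. -/
theorem p5_mono (C : Type) [Field C] [Algebra C Ω] (j : B →+* Ω) {B' : Type} [Field B'] (i : B' →+* B) :
    cE C (j.comp i) ≤ cE C j := by
  unfold cE
  rw [IntermediateField.adjoin_le_iff]
  rintro _ ⟨x, rfl⟩
  exact cE_mem C j (i x)

/-- Chunk P5 (S), only Mathlib. C ⊆ D: every element of cE C j is an element of cE D j (IntermediateField.adjoin_le_iff for the restriction of scalars of cE D j to C, or IntermediateField.adjoin_induction). -/
theorem p5_up (C D : Type) [Field C] [Field D] [Algebra C D] [Algebra C Ω] [Algebra D Ω] [IsScalarTower C D Ω] (j : B →+* Ω) :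
    ∀ x : Ω, x ∈ cE C j → x ∈ cE D j := by
  intro x hx
  refine IntermediateField.adjoin_induction C (p := fun x _ => x ∈ cE D j) ?_ ?_ ?_ ?_ ?_ hx
  · rintro _ ⟨y, rfl⟩
    exact cE_mem D j y
  · intro c
    rw [IsScalarTower.algebraMap_apply C D Ω]
    exact (cE D j).algebraMap_mem _
  · intro x y _ _ hx hy
    exact add_mem hx hy
  · intro x _ hx
    exact inv_mem hx
  · intro x y _ _ hx hy
    exact mul_mem hx hy

end H57N
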