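import Mathlib
import Pool.Agent.Lib.H28T.CB1
import Pool.Agent.Lib.H28T.CB3A
import Pool.Agent.Lib.H28T.DT
import Pool.Agent.Lib.H55K.K1A
import Pool.Agent.Lib.H57N.P3
import Pool.Agent.Lib.H57N.P5

/-! # H57N, chunk D3: a field over which almost all primes of degree one are anomalous -/

open NumberField IsDedekindDomain WeierstrassCurve

namespace H57N

open H55P H55R
open H35P (WAB Ker tt)
open H55K H55K.TQ

/-- Chunk D3a (M). A variant of cb3a_split (H28T/CB3A.lean), shorter. Let S = the primes w of C with w.under (𝓞 F) in the finite set of h.frob, or es F C (w.under) ≠ 1, or p in w (finite: as in cb3a_split). Let w be outside S, of prime norm, v = w.under (𝓞 F):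
absNorm v = absNorm w is prime (D5_norm, fs = 1). V above w (exists_abw Ω w), above v. s from H13S.exists_frob v V: s x = x^q modulo V. s fixes C: triv_of_es (K = F), exactly as hsC in cb3a_split. By hcrd every T in Tor act π has coordinates in C, so
ac s T = T (ac_fix; s fixes algebraMap C Ω x); p • T = 0 (hT1 in cb3a_split; π ∣ p), V(p) = 1, so h.frob: act (ψ v) T = T, so act (ψ v - 1) T = 0 (k2a_sub, k2a_one) for T in Tor act π, T ≠ 0 (exists_tor): π ∣ ψ v - 1 (tor_zero). -/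
theorem d3_div {F : Type} [Field F] [NumberField F] [IQ F] {A B : F} {Om : ℂ} {Ω : Type} [Field Ω] [DecidableEq Ω]
    [Algebra F Ω] {j : Ω →+* ℂ} {act : 𝓞 F →+* AddMonoid.End (Pt (WAB A B) Ω)} {m : Ideal (𝓞 F)}
    {ψ : Ideal (𝓞 F) →*₀ 𝓞 F} {p : ℕ} {C : Type} [Field C] [NumberField C] [Algebra F C] [Algebra C Ω] [IsScalarTower F C Ω]
    [IsAlgClosure F Ω] [IsGalois F C] (h : Dta A B Om j act m ψ p) {π : 𝓞 F} (hπ : Prime π)
    (hd : π ∣ (p : 𝓞 F)) (hcrd : ∀ T ∈ Tor act π, ∃ x y : C, algebraMap C Ω x = xc T ∧ algebraMap C Ω y = yc T) :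
    ∃ S : Set (Pl C), S.Finite ∧ ∀ w : Pl C, w ∉ S → (Ideal.absNorm w.asIdeal).Prime →
      Ideal.absNorm (w.under (𝓞 F)).asIdeal = Ideal.absNorm w.asIdeal ∧ π ∣ ψ (w.under (𝓞 F)).asIdeal - 1 := by
  obtain ⟨S2, hS2f, hS2⟩ := h.frob
  have hpC : ((p : ℕ) : 𝓞 C) ≠ 0 := Nat.cast_ne_zero.2 h.prime.ne_zero
  have hf2 : {w : Pl C | w.under (𝓞 F) ∈ S2}.Finite :=
    hS2f.preimage' (f := fun w : Pl C => w.under (𝓞 F)) fun b _ => above_finite b
  have hf3 : {w : Pl C | es F C (w.under (𝓞 F)) ≠ 1}.Finite :=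
    (ram_fin F C).preimage' (f := fun w : Pl C => w.under (𝓞 F)) fun b _ => above_finite b
  refine ⟨{w : Pl C | w.under (𝓞 F) ∈ S2} ∪
    ({w : Pl C | es F C (w.under (𝓞 F)) ≠ 1} ∪ {w : Pl C | ((p : ℕ) : 𝓞 C) ∈ w.asIdeal}),
    hf2.union (hf3.union (H28R.W5_fin_mem _ hpC)), ?_⟩
  intro w hw hwN
  simp only [Set.mem_union, not_or] at hw
  obtain ⟨hw2, hw3, hw4⟩ := hw
  have hv2 : w.under (𝓞 F) ∉ S2 := hw2
  have he : es F C (w.under (𝓞 F)) = 1 := not_not.1 hw3
  have hwp : ((p : ℕ) : 𝓞 C) ∉ w.asIdeal := hw4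
  have hnorm := D5_norm (w.under (𝓞 F)) w rfl
  have hfs : fs F C (w.under (𝓞 F)) = 1 := by
    have hpos := fs_pos (L := C) (w.under (𝓞 F))
    by_contra hne
    have h2 : 2 ≤ fs F C (w.under (𝓞 F)) := by omega
    have hwN' := hwN
    rw [hnorm] at hwN'
    exact Nat.Prime.not_prime_pow h2 hwN'
  rw [hfs, pow_one] at hnorm
  have hvN : (Ideal.absNorm (w.under (𝓞 F)).asIdeal).Prime := by
    rw [← hnorm]
    exact hwN
  refine ⟨hnorm.symm, ?_⟩
  obtain ⟨V, hV⟩ := exists_abw Ω w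
  have hVv : Abw V (w.under (𝓞 F)) := hV.below rfl
  have hva : ∀ a : 𝓞 F, a ∈ (w.under (𝓞 F)).asIdeal → V.valuation (ak Ω a) < 1 := fun a ha =>
    (hVv.lt _).2 (((w.under (𝓞 F)).valuation_lt_one_iff_mem a).2 ha)
  have hpv : ((p : ℕ) : 𝓞 F) ∉ (w.under (𝓞 F)).asIdeal := by
    intro hm
    apply hwp
    have h1 : algebraMap (𝓞 F) (𝓞 C) ((p : ℕ) : 𝓞 F) ∈ w.asIdeal := hm
    rwa [map_natCast] at h1
  have hcast : ∀ n : ℕ, algebraMap F Ω (((n : 𝓞 F) : F)) = (n : Ω) := by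
    intro n
    have e : ((n : 𝓞 F) : F) = (n : F) := by push_cast; rfl
    rw [e, map_natCast]
  have hp1 : V.valuation (p : Ω) = 1 := by
    have h1 := (hVv.eq_one (((p : ℕ) : 𝓞 F) : F)).2
      ((HeightOneSpectrum.valuation_eq_one_iff_notMem (w.under (𝓞 F))).2 hpv)
    rwa [hcast p] at h1
  obtain ⟨s, -, hs⟩ := H13S.exists_frob (w.under (𝓞 F)) V hva
  have hsC : Fxd C s := by
    refine triv_of_es (K := F) hV he s (fun x => s.commutes x) fun y hy => ?_
    have h1 := hs _ hy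
    have h2 : V.valuation (algebraMap C Ω y ^ Ideal.absNorm (w.under (𝓞 F)).asIdeal - algebraMap C Ω y) < 1 := by
      rw [← hnorm, ← map_pow, ← map_sub, hV.lt]
      exact H28G.pow_norm w y ((hV y).1 hy)
    have e : s (algebraMap C Ω y) - algebraMap C Ω y =
        (s (algebraMap C Ω y) - algebraMap C Ω y ^ Ideal.absNorm (w.under (𝓞 F)).asIdeal) +
        (algebraMap C Ω y ^ Ideal.absNorm (w.under (𝓞 F)).asIdeal - algebraMap C Ω y) := by ring
    rw [e]
    exact V.valuation.map_add_lt h1 h2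
  obtain ⟨T, hT, hT0⟩ := exists_tor h.cma hπ
  have hT1 : p • T = 0 := by
    obtain ⟨c, hc⟩ := hd
    have h1 : act (p : 𝓞 F) T = 0 := by
      rw [hc, mul_comm, map_mul]
      show act c (act π T) = 0
      have h2 : act π T = 0 := hT
      rw [h2, map_zero]
    rw [map_natCast, AddMonoid.End.natCast_apply] at h1
    exact h1
  have hact : act (ψ (w.under (𝓞 F)).asIdeal) T = T := by
    rw [← hS2 _ hv2 hvN V hva s hs p hp1 T hT1]
    obtain ⟨x, y, hx, hy⟩ := hcrd T hT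
    exact ac_fix s (by rw [← hx, hsC x]) (by rw [← hy, hsC y])
  rw [← tor_zero h.cma hπ hT hT0, k2a_sub, k2a_one, hact, sub_self]

/-- A field containing N and the roots of unity. -/
theorem d3_comp {F N : Type} [Field F] [NumberField F] [Field N] [NumberField N] [Algebra F N]
    [Algebra N (AlgebraicClosure F)] [IsScalarTower F N (AlgebraicClosure F)] [IsGalois F N] {p : ℕ} (hp : p.Prime) :
    ∃ (C : Type) (_ : Field C) (_ : NumberField C) (_ : Algebra F C) (_ : Algebra N C)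
      (_ : Algebra C (AlgebraicClosure F)) (_ : IsScalarTower F C (AlgebraicClosure F))
      (_ : IsScalarTower N C (AlgebraicClosure F)), IsGalois F C ∧ ∃ ζ : C, IsPrimitiveRoot ζ p := by
  have hp0 : NeZero p := ⟨hp.ne_zero⟩
  have hcy : IsCyclotomicExtension {p} ℚ (CyclotomicField p ℚ) := CyclotomicField.isCyclotomicExtension p ℚ
  have hgal : IsGalois ℚ (CyclotomicField p ℚ) := IsCyclotomicExtension.isGalois {p} ℚ _
  let j : CyclotomicField p ℚ →+* AlgebraicClosure F :=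
    (IsAlgClosed.lift (R := ℚ) (S := CyclotomicField p ℚ) (M := AlgebraicClosure F)).toRingHom
  let _ : Algebra (CyclotomicField p ℚ) (cE N j) := cAlg N j
  have hN : NumberField (cE N j) := p5_num N j
  have hcmp : Cmp N (CyclotomicField p ℚ) (cE N j) := p5_cmp N j
  have hG : IsGalois F (cE N j) := p3_gal hcmp
  have t1 : IsScalarTower F (cE N j) (AlgebraicClosure F) := IsScalarTower.of_algebraMap_eq fun _ => rfl
  refine ⟨cE N j, inferInstance, hN, inferInstance, inferInstance, inferInstance, t1, inferInstance, hG,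
    cj N j (IsCyclotomicExtension.zeta p ℚ (CyclotomicField p ℚ)), ?_⟩
  exact (IsCyclotomicExtension.zeta_spec p ℚ (CyclotomicField p ℚ)).map_of_injective (cj N j).injective

/-- p divides the norm of a prime element above p. -/
theorem d3_nm {F : Type} [Field F] [NumberField F] [IQ F] {p : ℕ} (hp : p.Prime) {π : 𝓞 F} (hπ : Prime π)
    (hd : π ∣ (p : 𝓞 F)) : p ∣ H55P.Nm π := by
  obtain ⟨c, hc⟩ := hd
  have h1 : H55P.Nm π * H55P.Nm c = p ^ 2 := by rw [← Nm_mul, ← hc, Nm_nat]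
  obtain ⟨i, hi, hi2⟩ := (Nat.dvd_prime_pow hp).1 (Dvd.intro _ h1)
  rcases Nat.eq_zero_or_pos i with h0 | h0
  · rw [h0, pow_zero] at hi2
    exfalso
    apply hπ.not_isUnit
    unfold H55P.Nm at hi2
    rwa [Ideal.absNorm_eq_one_iff, Ideal.span_singleton_eq_top] at hi2
  · rw [hi2]
    exact dvd_pow_self p h0.ne'

/-- Chunk D3b (M). π from cb1_pi, the data A, B, j, act from exists_dta hH hp (H28T/DT.lean; Ω = AlgebraicClosure F), N from exists_TFld (K := F) (H55K/K1A.lean): N/F Galois, the coordinates of Tor act π in N. C = cE N j' (P5.lean) with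
j' : CyclotomicField p ℚ →+* AlgebraicClosure F (IsAlgClosed.lift over ℚ): a number field, C/F is Galois by p3_gal (N/F Galois, CyclotomicField p ℚ / ℚ Galois; the algebra F → C through N), it contains a primitive p-th root of unity ζ (the image of
IsCyclotomicExtension.zeta). S from d3_div, plus the primes containing p, plus those containing the image of W₀.Δ (finite: H28R.W5_fin_mem as in cb3_niceG). For w outside: π ∣ 1 - ψ v, p ∣ Nm π (k10_arith or: Nm π divides Nm p = p^2 (Nm_nat, Nm_mul) and is not 1,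
cb2_unit), Nm π ∣ Nm (1 - ψ v) (Nm_mul) = the number of points (hH.deu v, Δ not in v). p ∣ absNorm w - 1: H28R.W5_dvd hp.prime hζ w. -/
theorem d3_field {F : Type} [Field F] [NumberField F] [IQ F] {W₀ : WeierstrassCurve (𝓞 F)} {Om : ℂ} {m : Ideal (𝓞 F)}
    {ψ : Ideal (𝓞 F) →*₀ 𝓞 F} {p : ℕ} (hH : BaseH F W₀ Om m ψ) (hp : PrimeH F W₀ p) :
    ∃ (C : Type) (_ : Field C) (_ : NumberField C) (_ : Algebra F C) (S : Set (Pl C)), S.Finite ∧
      ∀ w : Pl C, w ∉ S → (Ideal.absNorm w.asIdeal).Prime →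
        p ∣ Ideal.absNorm w.asIdeal - 1 ∧ ∃ v : Pl F, Ideal.absNorm v.asIdeal = Ideal.absNorm w.asIdeal ∧ W₀.Δ ∉ v.asIdeal ∧
          p ∣ Nat.card (W₀⁄(𝓞 F ⧸ v.asIdeal)).toAffine.Point := by
  classical
  obtain ⟨A, B, j, act, h⟩ := H28T.exists_dta hH hp
  obtain ⟨π, hπ, hd⟩ := H28T.cb1_pi (F := F) hp.prime
  obtain ⟨N, iF, iN, i1, i2, i3, t1, t2, t3, hN⟩ := exists_TFld h.cma F hπ.ne_zero
  clear t1 t3
  clear i1
  have hgN : IsGalois F N := hN.gal
  obtain ⟨C, _, _, _, _, _, _, _, hG, ζ, hζ⟩ := d3_comp (F := F) (N := N) hp.prime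
  obtain ⟨S, hS, hw⟩ := d3_div (C := C) h hπ hd (fun T hT => by
    obtain ⟨x, y, hx, hy⟩ := hN.crd T hT
    refine ⟨algebraMap N C x, algebraMap N C y, ?_, ?_⟩
    · rw [← IsScalarTower.algebraMap_apply N C (AlgebraicClosure F), hx]
    · rw [← IsScalarTower.algebraMap_apply N C (AlgebraicClosure F), hy])
  have hΔC : algebraMap (𝓞 F) (𝓞 C) W₀.Δ ≠ 0 := by
    intro h0
    apply hH.data.ell
    apply RingOfIntegers.ext
    have h1 : algebraMap F C ((W₀.Δ : 𝓞 F) : F) = 0 := congrArg (fun x : 𝓞 C => (x : C)) h0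
    rw [map_eq_zero] at h1
    exact h1
  have hpC : ((p : ℕ) : 𝓞 C) ≠ 0 := Nat.cast_ne_zero.2 hp.prime.ne_zero
  refine ⟨C, inferInstance, inferInstance, inferInstance,
    S ∪ ({w : Pl C | algebraMap (𝓞 F) (𝓞 C) W₀.Δ ∈ w.asIdeal} ∪ {w : Pl C | ((p : ℕ) : 𝓞 C) ∈ w.asIdeal}),
    hS.union ((H28R.W5_fin_mem _ hΔC).union (H28R.W5_fin_mem _ hpC)), ?_⟩
  intro w hwS hwN
  simp only [Set.mem_union, not_or] at hwS
  obtain ⟨hw1, hw2, hw3⟩ := hwS
  have hw2' : algebraMap (𝓞 F) (𝓞 C) W₀.Δ ∉ w.asIdeal := hw2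
  have hw3' : (p : 𝓞 C) ∉ w.asIdeal := hw3
  obtain ⟨h1, h2⟩ := hw w hw1 hwN
  refine ⟨H28R.W5_dvd hp.prime hζ w hw3', w.under (𝓞 F), h1, fun hm => hw2' hm, ?_⟩
  rw [hH.deu (w.under (𝓞 F)) fun hm => hw2' hm]
  refine (d3_nm hp.prime hπ hd).trans ?_
  obtain ⟨c, hc⟩ := h2
  have e : 1 - ψ (w.under (𝓞 F)).asIdeal = π * (-c) := by linear_combination -hc
  rw [e, Nm_mul]
  exact Dvd.intro _ rfl

end H57N
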