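import Pool.Agent.Lib.H57N.D2
import Pool.Agent.Lib.H57N.D3
import Pool.Agent.Lib.H28R.W5

/-! # H57N, chunk D4: the prime numbers q -/

open NumberField IsDedekindDomain WeierstrassCurve

namespace H57N

open H55P H55R
open H55K H55K.TQ

/-- The prime numbers q: for all large prime numbers l there are arbitrarily large prime numbers q = 1 mod p, primitive roots modulo l, with a prime v of F of norm q at which the number of points is divisible by p. -/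
def ManyQ {F : Type} [Field F] [NumberField F] (W₀ : WeierstrassCurve (𝓞 F)) (p : ℕ) : Prop :=
  ∃ L0 : ℕ, ∀ l : ℕ, l.Prime → L0 < l → ∀ Bd : ℕ, ∃ q : ℕ, q.Prime ∧ Bd < q ∧ p ∣ q - 1 ∧ orderOf (q : ZMod l) = l - 1 ∧
    ∃ v : HeightOneSpectrum (𝓞 F), Ideal.absNorm v.asIdeal = q ∧ W₀.Δ ∉ v.asIdeal ∧
      p ∣ Nat.card (W₀⁄(𝓞 F ⧸ v.asIdeal)).toAffine.Point

/-- Chunk D4 (S). C, S from d3_field; L0 = |discr C| (discr C ≠ 0: a prime l > |discr C| does not divide it, Int.le_of_dvd / Nat.le_of_dvd). Given l, Bd: d2_prim C with the set S ∪ {w : absNorm w ≤ Bd} (finite: H28R.W5_fin_norm), q = absNorm w. -/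
theorem d4_manyQ {F : Type} [Field F] [NumberField F] [IQ F] {W₀ : WeierstrassCurve (𝓞 F)} {Om : ℂ} {m : Ideal (𝓞 F)}
    {ψ : Ideal (𝓞 F) →*₀ 𝓞 F} {p : ℕ} (hH : BaseH F W₀ Om m ψ) (hp : PrimeH F W₀ p) : ManyQ W₀ p := by
  obtain ⟨C, _, _, _, S, hS, hw⟩ := d3_field hH hp
  refine ⟨(discr C).natAbs, fun l hl hL Bd => ?_⟩
  have hd : ¬ (l : ℤ) ∣ discr C := by
    intro h1
    have h2 : l ∣ (discr C).natAbs := Int.natCast_dvd.1 h1
    have h3 := Nat.le_of_dvd (Int.natAbs_pos.2 (discr_ne_zero C)) h2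
    omega
  obtain ⟨w, hwS, hwN, hwo⟩ := d2_prim C hl hd (S ∪ {w : Pl C | Ideal.absNorm w.asIdeal ≤ Bd})
    (hS.union (H28R.W5_fin_norm Bd))
  rw [Set.mem_union, not_or] at hwS
  obtain ⟨h1, v, h2, h3, h4⟩ := hw w hwS.1 hwN
  exact ⟨Ideal.absNorm w.asIdeal, hwN, not_le.1 hwS.2, h1, hwo, v, h2, h3, h4⟩

end H57N
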