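import Mathlib
import Pool.Agent.Lib.H28T.CE
import Pool.Agent.Lib.H57N.A1
import Pool.Agent.Lib.H57N.A2
import Pool.Agent.Lib.H57N.D4
import Pool.Agent.Lib.H57N.P2
import Pool.Agent.Lib.H57N.P3

/-! # H57N, chunk E4: choice of the prime numbers; the group -/

open NumberField IsDedekindDomain WeierstrassCurve

namespace H57N

open H28T
open H55P H55R
open H55K H55K.TQ

/-- Chunk E4 (M). Choose n ≥ 1 with p^n > 2 R₀ [M : ℚ] (Nat.lt_pow_self); L0 from hQ; l from hdir (n + 1) (max L0 |discr N|): l prime, p^(n+1) ∣ l - 1, GoodL, so l does not divide discr N (discr N ≠ 0). Then choose R₀ different prime numbers q by induction on R₀ (each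
larger than l, |discr N|, |W.Δ|, p and all the previous ones; hQ l). Q = the set of them. A prime number dividing discr N is ≤ |discr N|. -/
theorem e4_choice {F : Type} [Field F] [NumberField F] {W : WeierstrassCurve ℤ} {p : ℕ} (hp : p.Prime) (hΔ : W.Δ ≠ 0)
    (hdir : DirH (Gx (W⁄(𝓞 F)) p) p) (hQ : ManyQ (W⁄(𝓞 F)) p) (N : Type) [Field N] [NumberField N] (d R₀ : ℕ) :
    ∃ (n l : ℕ) (Q : Finset ℕ), 1 ≤ n ∧ Prm p n l Q ∧ Q.card = R₀ ∧ 2 * (R₀ * d) < p ^ n ∧ GoodL (Gx (W⁄(𝓞 F)) p) l ∧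
      (∀ r : ℕ, r.Prime → (r : ℤ) ∣ discr N → r ≠ l ∧ r ∉ Q) ∧ p ≠ l ∧ p ∉ Q ∧
      ∀ q ∈ Q, ¬ (q : ℤ) ∣ W.Δ ∧ ∃ v : HeightOneSpectrum (𝓞 F), Ideal.absNorm v.asIdeal = q ∧
        p ∣ Nat.card (W⁄(𝓞 F ⧸ v.asIdeal)).toAffine.Point := by
  classical
  obtain ⟨L0, hL0⟩ := hQ
  obtain ⟨l, hl, hlN, hpl, hG⟩ := hdir (2 * (R₀ * d) + 1 + 1) (max L0 (max p (discr N).natAbs))
  have hlL : L0 < l := lt_of_le_of_lt (le_max_left _ _) hlN
  have hlp : p < l := lt_of_le_of_lt ((le_max_left _ _).trans (le_max_right _ _)) hlN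
  have hlD : (discr N).natAbs < l := lt_of_le_of_lt ((le_max_right _ _).trans (le_max_right _ _)) hlN
  have hD0 : discr N ≠ 0 := discr_ne_zero N
  let C : Set ℕ := {q | (q.Prime ∧ p ∣ q - 1 ∧ orderOf (q : ZMod l) = l - 1 ∧
    ∃ v : HeightOneSpectrum (𝓞 F), Ideal.absNorm v.asIdeal = q ∧ (W⁄(𝓞 F)).Δ ∉ v.asIdeal ∧
      p ∣ Nat.card ((W⁄(𝓞 F))⁄(𝓞 F ⧸ v.asIdeal)).toAffine.Point) ∧ l < q ∧ (discr N).natAbs < q ∧ W.Δ.natAbs < q}
  have hinf : C.Infinite := by
    apply Set.infinite_of_forall_exists_gt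
    intro a
    obtain ⟨q, h1, h2, h3, h4, h5⟩ := hL0 l hl hlL (max a (max l (max (discr N).natAbs W.Δ.natAbs)))
    have b1 : a < q := lt_of_le_of_lt (le_max_left _ _) h2
    have b2 : l < q := lt_of_le_of_lt ((le_max_left _ _).trans (le_max_right _ _)) h2
    have b3 : (discr N).natAbs < q := lt_of_le_of_lt (((le_max_left _ _).trans (le_max_right _ _)).trans (le_max_right _ _)) h2
    have b4 : W.Δ.natAbs < q := lt_of_le_of_lt (((le_max_right _ _).trans (le_max_right _ _)).trans (le_max_right _ _)) h2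
    exact ⟨q, ⟨⟨h1, h3, h4, h5⟩, b2, b3, b4⟩, b1⟩
  obtain ⟨Q, hQC, hcard⟩ := hinf.exists_subset_card_eq R₀
  have hnd : ∀ (z : ℤ) (r : ℕ), z ≠ 0 → z.natAbs < r → ¬ (r : ℤ) ∣ z := by
    intro z r hz hlt hdv
    have := Nat.le_of_dvd (Int.natAbs_pos.2 hz) (Int.natCast_dvd.1 hdv)
    omega
  refine ⟨2 * (R₀ * d) + 1, l, Q, by omega, ⟨hp, hl, hpl, ?_⟩, hcard, ?_, hG, ?_, ?_, ?_, ?_⟩
  · intro q hq
    obtain ⟨⟨h1, h2, h3, -⟩, h4, -, -⟩ := hQC hq
    exact ⟨h1, h2, h4.ne', h3⟩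
  · exact lt_of_lt_of_le (Nat.lt_succ_self _) (Nat.lt_pow_self hp.one_lt).le
  · intro r _ hrd
    constructor
    · rintro rfl
      exact hnd _ _ hD0 hlD hrd
    · intro hrQ
      obtain ⟨-, -, h5, -⟩ := hQC hrQ
      exact hnd _ _ hD0 h5 hrd
  · exact hlp.ne
  · intro hpQ
    obtain ⟨-, h4, -, -⟩ := hQC hpQ
    omega
  · intro q hq
    obtain ⟨⟨-, -, -, v, hv1, -, hv3⟩, -, -, h6⟩ := hQC hq
    refine ⟨hnd _ _ hΔ h6, v, hv1, ?_⟩
    rwa [a1_base] at hv3

/-- Chunk E4 (M). Gal(K/F) → Gal(M/F) × Gal(B/ℚ), the two restrictions (AlgEquiv.restrictNormalHom M, and p1_res-like restriction to B: AlgEquiv.restrictNormalHom B after restriction of scalars to ℚ), is injective (an element trivial on M and B is trivial by h.gen) and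
the orders agree: [K : F] = [M : F] [K : M] = [M : F] [B : ℚ] (p2_deg; K/F is Galois: p3_gal; IsGalois.card_aut_eq_finrank). So it is bijective, and φ σ = the preimage of (σ, 1) is an injective homomorphism. -/
theorem e4_emb {F M B K : Type} [Field F] [NumberField F] [Field M] [NumberField M] [Field B] [NumberField B] [Field K] [NumberField K]
    [Algebra F M] [Algebra M K] [Algebra F K] [IsScalarTower F M K] [Algebra B K] [IsGalois F M] [IsGalois ℚ B] (h : Cmp M B K)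
    (hd : IsCoprime (discr M) (discr B)) : ∃ φ : (M ≃ₐ[F] M) →* (K ≃ₐ[F] K), Function.Injective φ := by
  haveI hgK : IsGalois F K := p3_gal (F := F) h
  haveI tF : IsScalarTower ℚ F K := IsScalarTower.of_algebraMap_eq' (Subsingleton.elim _ _)
  haveI tB : IsScalarTower ℚ B K := IsScalarTower.of_algebraMap_eq' (Subsingleton.elim _ _)
  obtain ⟨-, e, he⟩ := p2_deg h hd
  let rs : (K ≃ₐ[F] K) →* (K ≃ₐ[ℚ] K) :=
    { toFun := fun g => g.restrictScalars ℚ
      map_one' := by ext x; rfl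
      map_mul' := fun a b => by ext x; rfl }
  let rB : (K ≃ₐ[F] K) →* (B ≃ₐ[ℚ] B) := (AlgEquiv.restrictNormalHom B).comp rs
  have hrB : ∀ (g : K ≃ₐ[F] K) (x : B), g (algebraMap B K x) = algebraMap B K (rB g x) := fun g x =>
    (AlgEquiv.restrictNormal_commutes (rs g) B x).symm
  let r : (K ≃ₐ[F] K) →* (M ≃ₐ[F] M) := AlgEquiv.restrictNormalHom M
  have hr : ∀ (g : K ≃ₐ[F] K) (x : M), g (algebraMap M K x) = algebraMap M K (r g x) := fun g x =>
    (AlgEquiv.restrictNormal_commutes g M x).symm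
  have hrs : Function.Surjective r := AlgEquiv.restrictNormalHom_surjective K
  let ρ : rB.ker →* (M ≃ₐ[F] M) := r.comp rB.ker.subtype
  have hρi : Function.Injective ρ := by
    rw [injective_iff_map_eq_one]
    rintro ⟨x, hx⟩ hx1
    have hxM : ∀ y : M, x (algebraMap M K y) = algebraMap M K y := by
      intro y
      have h1 : r x = 1 := hx1
      rw [hr x y, h1, AlgEquiv.one_apply]
    have hxB : ∀ y : B, x (algebraMap B K y) = algebraMap B K y := by
      intro y
      have h1 : rB x = 1 := hx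
      rw [hrB x y, h1, AlgEquiv.one_apply]
    let g : K ≃ₐ[M] K := AlgEquiv.ofRingEquiv (f := (x : K ≃+* K)) hxM
    have hg1 : e g = 1 := by
      ext y
      apply (algebraMap B K).injective
      rw [← he g y, AlgEquiv.one_apply]
      exact hxB y
    have hg : g = 1 := by
      rw [← map_one e] at hg1
      exact e.injective hg1
    apply Subtype.ext
    ext y
    have h2 : g y = y := by rw [hg, AlgEquiv.one_apply]
    exact h2
  have hρs : Function.Surjective ρ := by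
    intro σ
    obtain ⟨τ, hτ⟩ := hrs σ
    obtain ⟨g, hg⟩ := e.surjective (rB τ)
    have h1 : r (g.restrictScalars F) = 1 := by
      ext y
      apply (algebraMap M K).injective
      rw [← hr, AlgEquiv.one_apply]
      exact g.commutes y
    have h2 : rB (g.restrictScalars F) = rB τ := by
      ext y
      apply (algebraMap B K).injective
      rw [← hrB, ← hg, ← he]
      rfl
    refine ⟨⟨τ * (g.restrictScalars F)⁻¹, ?_⟩, ?_⟩
    · rw [MonoidHom.mem_ker, map_mul, map_inv, h2, mul_inv_cancel]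
    · show r (τ * (g.restrictScalars F)⁻¹) = σ
      rw [map_mul, map_inv, h1, inv_one, mul_one, hτ]
  refine ⟨rB.ker.subtype.comp (MulEquiv.ofBijective ρ ⟨hρi, hρs⟩).symm.toMonoidHom, ?_⟩
  exact Subtype.val_injective.comp (MulEquiv.injective _)

end H57N
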