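import Mathlib
import Pool.Agent.Lib.H13R.I1
import Pool.Agent.Lib.H28I.A1
import Pool.Agent.Lib.H57N.A2
import Pool.Agent.Lib.H57N.D4

/-! # H57N, chunk E5: the isogenous curves -/

open NumberField IsDedekindDomain WeierstrassCurve

namespace H57N

open H28T
open H55P H55R
open H55K H55K.TQ
open H28I

/-- Chunk E5 (S). The numbers of points agree: H13R.i1_pts (over L: [Algebra F L]) and H28I.tw_deu (over F), H28I.tw_supp for the discriminants; so DownP for W' follows from a2_down for W (h.base, (tw_prime h).1 hp'). -/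
theorem e5_down {F : Type} [Field F] [NumberField F] [IQ F] {W W' : WeierstrassCurve ℤ} {Om : ℂ} {m : Ideal (𝓞 F)}
    {ψ : Ideal (𝓞 F) →*₀ 𝓞 F} {kap : ℤ} {e t u lam : ℚ} {p : ℕ} (h : TW F W W' Om m ψ kap e t u lam) (hp' : PrimeH F (W'⁄(𝓞 F)) p) :
    DownP (W'⁄(𝓞 F)) p := by
  intro L _ _ _ _ hk w v hvw hΔ' hd
  have hΔ : (W⁄(𝓞 F)).Δ ∉ v.asIdeal := mt (tw_supp h v).2 hΔ'
  have hΔw : algebraMap (𝓞 F) (𝓞 L) (W⁄(𝓞 F)).Δ ∉ w.asIdeal := by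
    intro h1
    apply hΔ
    rw [hvw]
    exact h1
  rw [H13R.i1_pts h w hΔw] at hd
  rw [(tw_deu h v hΔ').1]
  exact a2_down h.base ((tw_prime h).1 hp') L hk w v hvw hΔ hd

/-- Chunk E5 (S). The same for ManyQ (d4_manyQ for W, tw_deu, tw_supp). -/
theorem e5_manyQ {F : Type} [Field F] [NumberField F] [IQ F] {W W' : WeierstrassCurve ℤ} {Om : ℂ} {m : Ideal (𝓞 F)}
    {ψ : Ideal (𝓞 F) →*₀ 𝓞 F} {kap : ℤ} {e t u lam : ℚ} {p : ℕ} (h : TW F W W' Om m ψ kap e t u lam) (hp' : PrimeH F (W'⁄(𝓞 F)) p) :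
    ManyQ (W'⁄(𝓞 F)) p := by
  obtain ⟨L0, hL0⟩ := d4_manyQ h.base ((tw_prime h).1 hp')
  refine ⟨L0, fun l hl hl0 Bd => ?_⟩
  obtain ⟨q, hq, hB, hpq, ho, v, hv, hΔ, hd⟩ := hL0 l hl hl0 Bd
  have hΔ' : (W'⁄(𝓞 F)).Δ ∉ v.asIdeal := mt (tw_supp h v).1 hΔ
  exact ⟨q, hq, hB, hpq, ho, v, hv, hΔ', by rw [(tw_deu h v hΔ').1]; exact hd⟩

end H57N
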