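import Mathlib
import Pool.Agent.Lib.H13T.Stm
import Pool.Agent.Lib.H55Z.X1
import Pool.Agent.Lib.H57N.C5
import Pool.Agent.Lib.H57N.P5
import Pool.Agent.Lib.H57N.E1
import Pool.Agent.Lib.H57N.E2
import Pool.Agent.Lib.H57N.E3
import Pool.Agent.Lib.H57N.E4
import Pool.Agent.Lib.H57N.E5

/-! # H57N: the existence theorem (assembly) -/

open NumberField IsDedekindDomain WeierstrassCurve

namespace H57N

open H28T
open H55P H55R
open H55K H55K.TQ

/-- The facts on the curve. -/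
structure Fct {F : Type} [Field F] [NumberField F] [IQ F] (W : WeierstrassCurve ℤ) (p : ℕ) : Prop where
  hp : p.Prime
  ell : W.Δ ≠ 0
  unrF : UnrP p F
  dir : DirH (Gx (W⁄(𝓞 F)) p) p
  down : DownP (W⁄(𝓞 F)) p
  manyQ : ManyQ (W⁄(𝓞 F)) p
  bsd : ∀ (K : Type) [Field K] [NumberField K], InPF (W⁄(𝓞 F)) p K → BSDPG p W K
  bad : ∀ (K N : Type) [Field K] [NumberField K] [Field N] [NumberField N] [Algebra F N] [Algebra K N], IsGalois F N →
    (∃ k : ℕ, Module.finrank F N = p ^ k) → ∀ ιM : K →ₐ[ℚ] AlgebraicClosure F, H13R.BadM (W⁄(𝓞 F)) (KG F K ιM)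

variable {F : Type} [Field F] [NumberField F] [IQ F] {W : WeierstrassCurve ℤ} {p : ℕ}

theorem e6_deg (F M K : Type) [Field F] [Field M] [Field K] [Algebra F M] [Algebra M K] [Algebra F K] [IsScalarTower F M K] :
    Module.finrank F K = Module.finrank F M * Module.finrank M K :=
  (Module.finrank_mul_finrank F M K).symm

/-- Over a base field M which is Galois over F. -/
theorem e6_gal (hF : Fct (F := F) W p) (M : Type) [Field M] [NumberField M] [Algebra F M] (hM : ExtG (Gx (W⁄(𝓞 F)) p) p M) (R₀ : ℕ) :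
    ∃ (K' K : Type) (_ : Field K') (_ : NumberField K') (_ : Field K) (_ : NumberField K)
      (_ : Algebra M K') (_ : Algebra K' K) (_ : Algebra M K) (_ : Algebra F K) (n : ℕ),
      IsGalois F K ∧ (∃ r : ℕ, Module.finrank F K = p ^ r) ∧ (∃ φ : (M ≃ₐ[F] M) →* (K ≃ₐ[F] K), Function.Injective φ) ∧
      (∀ ιK : K →ₐ[ℚ] AlgebraicClosure F, H13T.HypS F p n W M K' K ιK) ∧ R₀ ≤ (H13T.AnR p W K' K).ncard := by
  have hU : UnrP p M := ce_unr hF.hp hF.unrF (fun v h => h.1) hM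
  obtain ⟨n, l, Q, hn, hPr, hQc, hfew, hG, hd, hpl, hpQ, hq⟩ := e4_choice hF.hp hF.ell hF.dir hF.manyQ M (Module.finrank ℚ M) R₀
  obtain ⟨B, i1, i2, B', hC⟩ := c5_exists hPr
  obtain ⟨j⟩ : Nonempty (B →+* AlgebraicClosure M) := ⟨(IsAlgClosed.lift : B →ₐ[ℚ] AlgebraicClosure M).toRingHom⟩
  obtain ⟨j', hj'⟩ : ∃ j' : B' →+* AlgebraicClosure M, j' = j.comp (algebraMap B' B) := ⟨_, rfl⟩
  have hle : cE M j' ≤ cE M j := by rw [hj']; exact p5_mono M j _
  letI nK : NumberField (cE M j) := p5_num M j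
  letI nK' : NumberField (cE M j') := p5_num M j'
  letI aB : Algebra B (cE M j) := cAlg M j
  letI aB' : Algebra B' (cE M j') := cAlg M j'
  letI aKK : Algebra (cE M j') (cE M j) := (IntermediateField.inclusion hle).toRingHom.toAlgebra
  haveI tM : IsScalarTower M (cE M j') (cE M j) := IsScalarTower.of_algebraMap_eq fun _ => rfl
  letI aF : Algebra F (cE M j) := ((algebraMap M (cE M j)).comp (algebraMap F M)).toAlgebra
  haveI tF : IsScalarTower F M (cE M j) := IsScalarTower.of_algebraMap_eq fun _ => rfl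
  letI aF' : Algebra F (cE M j') := ((algebraMap M (cE M j')).comp (algebraMap F M)).toAlgebra
  haveI tF' : IsScalarTower F M (cE M j') := IsScalarTower.of_algebraMap_eq fun _ => rfl
  have hc : Cmp M B (cE M j) := p5_cmp M j
  have hc' : Cmp M B' (cE M j') := p5_cmp M j'
  haveI gB := hC.gal
  haveI gB' := hC.gal'
  haveI gM := hM.1
  have hcyc := e1_cyc hC M (cE M j') (cE M j) hc' hc hd
  have hext : ExtG (Gx (W⁄(𝓞 F)) p) p (cE M j') := e1_ext hC M (cE M j') hc' hM hd hG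
  have hcop : IsCoprime (discr M) (discr B) := p2_cop M B fun r hr hrd w hw => hC.unr w r hr hw (hd r hr hrd).1 (hd r hr hrd).2
  have hgK : IsGalois F (cE M j) := p3_gal (F := F) hc
  obtain ⟨k, hk⟩ := hM.2.1
  have hdK : @Module.finrank F (cE M j) _ _ aF.toModule = p ^ (k + (n + 1)) := by
    rw [e6_deg F M (cE M j), hk, hcyc.deg, ← pow_add]
  have hInP : InPF (W⁄(𝓞 F)) p (cE M j') :=
    (inPF_iff hF.hp hF.unrF (cE M j')).2 ⟨cE M j', inferInstance, inferInstance, inferInstance, Algebra.id _, hext⟩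
  have hsub := e3_sub (F := F) (W := W) hC M (cE M j') (cE M j) (cE M j') (hK := hc) hext.1 hext.2.1 hG hF.down
  obtain ⟨hfin, hle2⟩ := e3_count hC hF.hp M (cE M j') hcyc.sub (fun q hq' => (hPr.hq q hq').1) (H13T.AnR p W (cE M j') (cE M j))
    (fun w hw => hsub w hw)
  have hlow := e3_lower (F := F) (W := W) hC M (cE M j') (cE M j) hc' hc hd
    (fun q hq' => ⟨(hPr.hq q hq').1, (hPr.hq q hq').2.2.1, (hq q hq').1, (hq q hq').2⟩) hfin
  refine ⟨cE M j', cE M j, inferInstance, nK', inferInstance, nK, inferInstance, aKK, inferInstance, aF, n, hgK, ⟨_, hdK⟩,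
    e4_emb (F := F) hc hcop, fun ιK => ⟨hn, hcyc, e2_unr hC hF.hp hpl hpQ hc hU, ?_, hF.bsd _ hInP, ?_⟩, ?_⟩
  · exact hF.bad M M hM.1 hM.2.1 _
  · rw [hQc] at hle2
    exact lt_of_le_of_lt (Nat.mul_le_mul_left 2 hle2) hfew
  · rw [← hQc]
    exact hlow

theorem e6_exist (hF : Fct (F := F) W p) (hE : ∀ (H : Type) [Group H] [Finite H] (k : ℕ), Nat.card H = p ^ k → ∀ B : ℕ,
    EmbP (Gx (W⁄(𝓞 F)) p) p H B) : H13T.ExistS F p W := by
  intro H _ _ k hk R₀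
  obtain ⟨M, i1, i2, i3, hM, φ, hφ⟩ := hE H k hk 0
  obtain ⟨K', K, j1, j2, j3, j4, j5, j6, j7, j8, n, h1, h2, ⟨ψ, hψ⟩, h3, h4⟩ := e6_gal hF M hM.1 R₀
  exact ⟨M, K', K, i1, i2, j1, j2, j3, j4, j5, j6, j7, j8, n, h1, h2, ⟨ψ.comp φ, hψ.comp hφ⟩, h3, h4⟩

/-- The facts for the curves with complex multiplication by the maximal order. -/
theorem e6_fct {Om : ℂ} {m : Ideal (𝓞 F)} {ψ : Ideal (𝓞 F) →*₀ 𝓞 F} (hH : BaseH F (W⁄(𝓞 F)) Om m ψ) (hp : PrimeH F (W⁄(𝓞 F)) p)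
    (hA : AnUnitG p W ℚ) : Fct (F := F) W p where
  hp := hp.prime
  ell := by
    intro h0
    apply hH.data.ell
    have e1 : (W⁄(𝓞 F)).Δ = algebraMap ℤ (𝓞 F) W.Δ := W.map_Δ _
    rw [e1, h0, map_zero]
  unrF := hp.unr
  dir := xm_dir hH hp
  down := a2_down hH hp
  manyQ := d4_manyQ hH hp
  bsd := by
    intro K _ _ hInP
    obtain ⟨hcrit, hbsd, -⟩ := main_Q hH hp K (H55Z.x1_sub hInP)
    exact hbsd (hcrit.2 ⟨hA, hInP⟩)
  bad := by
    intro K N _ _ _ _ _ _ hG hk ιM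
    obtain ⟨k, hk⟩ := hk
    exact H55Z.x1_bad hH hp hG hk ιM

open H28I in
/-- The facts for the isogenous curves. -/
theorem e6_fct_iso {W' : WeierstrassCurve ℤ} {Om : ℂ} {m : Ideal (𝓞 F)}
    {ψ : Ideal (𝓞 F) →*₀ 𝓞 F} {kap : ℤ} {e t u lam : ℚ} (h : TW F W W' Om m ψ kap e t u lam) (hp' : PrimeH F (W'⁄(𝓞 F)) p)
    (hA : AnUnitG p W' ℚ) : Fct (F := F) W' p where
  hp := hp'.prime
  ell := by
    intro h0
    obtain ⟨v⟩ : Nonempty (HeightOneSpectrum (𝓞 F)) := by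
      obtain ⟨w, -⟩ := p4_above F hp'.prime
      exact ⟨w⟩
    have h1 := hp'.cop
    have e1 : (W'⁄(𝓞 F)).Δ = algebraMap ℤ (𝓞 F) W'.Δ := W'.map_Δ _
    rw [e1, h0, map_zero, Ideal.span_singleton_zero, ← Ideal.zero_eq_bot, isCoprime_zero_left] at h1
    have h2 : Ideal.span {(p : 𝓞 F)} = ⊤ := by
      rw [← Ideal.isUnit_iff]
      exact h1
    obtain ⟨w, hw⟩ := p4_above F hp'.prime
    apply w.isPrime.ne_top
    rw [eq_top_iff, ← h2, Ideal.span_singleton_le_iff_mem]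
    exact hw
  unrF := hp'.unr
  dir := by
    have r := (rich_iso h hp').1
    exact r.inf
  down := e5_down h hp'
  manyQ := e5_manyQ h hp'
  bsd := by
    intro K _ _ hInP
    have hp := (tw_prime h).1 hp'
    obtain ⟨-, hcrit, hbsd, -⟩ := main_iso h hp' K (H55Z.x1_sub ((tw_inPF h K).1 hInP))
    exact hbsd (hcrit.2 ⟨hA, hInP⟩)
  bad := by
    intro K N _ _ _ _ _ _ hG hk ιM
    obtain ⟨k, hk⟩ := hk
    exact (H13R.i1_bad h _).2 (H55Z.x1_bad h.base ((tw_prime h).1 hp') hG hk ιM)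

/-- EXISTENCE for the maximal order. -/
theorem exist_main {Om : ℂ} {m : Ideal (𝓞 F)} {ψ : Ideal (𝓞 F) →*₀ 𝓞 F} (hH : BaseH F (W⁄(𝓞 F)) Om m ψ)
    (hp : PrimeH F (W⁄(𝓞 F)) p) (hA : AnUnitG p W ℚ) : H13T.ExistS F p W :=
  e6_exist (e6_fct hH hp hA) (rich_of hH hp).emb

open H28I in
/-- EXISTENCE for the isogenous curves. -/
theorem exist_iso {W' : WeierstrassCurve ℤ} {Om : ℂ} {m : Ideal (𝓞 F)}
    {ψ : Ideal (𝓞 F) →*₀ 𝓞 F} {kap : ℤ} {e t u lam : ℚ} (h : TW F W W' Om m ψ kap e t u lam) (hp' : PrimeH F (W'⁄(𝓞 F)) p)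
    (hA : AnUnitG p W' ℚ) : H13T.ExistS F p W' :=
  e6_exist (e6_fct_iso h hp' hA) (rich_iso h hp').1.emb

end H57N
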