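import Mathlib
import Pool.Agent.Lib.H28R.Defs
import Pool.Agent.Lib.H57N.P3

/-! # H57N, chunk E7: real places, subquotients -/

open NumberField IsDedekindDomain

namespace H57N

/-- Chunk E7 (S/M), only Mathlib. K/M Galois of odd degree: a real place v of M; a place w of K above v (InfinitePlace.comap_surjective); K/M is unramified at all infinite places (Mathlib: IsUnramifiedAtInfinitePlaces_of_odd_finrank or of_odd_card_aut,
Mathlib/NumberTheory/NumberField/InfinitePlace/Ramification.lean), so w is real (InfinitePlace.IsUnramified, isUnramified_iff / not_isUnramified_iff: ramified iff w complex and w.comap real). So nrRealPlaces K > 0 (Fintype.card_pos_iff; nrRealPlaces is the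
cardinality of {w // IsReal w}). -/
theorem e7_real (M K : Type) [Field M] [NumberField M] [Field K] [NumberField K] [Algebra M K] [IsGalois M K] (ho : Odd (Module.finrank M K))
    (h : 0 < InfinitePlace.nrRealPlaces M) : 0 < InfinitePlace.nrRealPlaces K := by
  classical
  obtain ⟨⟨v, hv⟩⟩ := Fintype.card_pos_iff.1 h
  obtain ⟨w, hw⟩ := InfinitePlace.comap_surjective (K := K) v
  have h1 : IsUnramifiedAtInfinitePlaces M K := IsUnramifiedAtInfinitePlaces_of_odd_finrank ho
  have h2 := (InfinitePlace.isUnramified_iff (k := M)).1 (InfinitePlace.isUnramified M w)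
  refine Fintype.card_pos_iff.2 ⟨⟨w, ?_⟩⟩
  rcases h2 with h2 | h2
  · exact h2
  · rw [show w.comap (algebraMap M K) = v from hw] at h2
    exact absurd hv (InfinitePlace.not_isReal_iff_isComplex.2 h2)

/-- Chunk E7 (S). N/F Galois inside L/F Galois: Gal(L/F) → Gal(N/F) is surjective (AlgEquiv.restrictNormalHom N, restrictNormalHom_surjective); the preimage of S and the composition. -/
theorem e7_subq {F N L : Type} [Field F] [NumberField F] [Field N] [NumberField N] [Field L] [NumberField L] [Algebra F N] [Algebra N L] [Algebra F L]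
    [IsScalarTower F N L] [IsGalois F N] [IsGalois F L] (H : Type) [Group H] (h : H28R.SubQ (N ≃ₐ[F] N) H) : H28R.SubQ (L ≃ₐ[F] L) H := by
  obtain ⟨S, φ, hφ⟩ := h
  let r : (L ≃ₐ[F] L) →* (N ≃ₐ[F] N) := AlgEquiv.restrictNormalHom N
  have hr : Function.Surjective r := AlgEquiv.restrictNormalHom_surjective L
  refine ⟨S.comap r, φ.comp (r.subgroupComap S), ?_⟩
  intro x
  obtain ⟨⟨y, hy⟩, rfl⟩ := hφ x
  obtain ⟨z, rfl⟩ := hr y
  exact ⟨⟨z, hy⟩, rfl⟩

/-- Chunk E7 (S), only Mathlib. N/ℚ and B/ℚ Galois: L = N B is Galois over ℚ. As p3_gal, with ℚ in place of F: let K₁, K₂ be the ranges of N → L, B → L (IntermediateField ℚ L), both normal (Normal.of_algEquiv), K₁ ⊔ K₂ = ⊤, IntermediateField.normal_sup. (p3_gal itself needs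
[NumberField F] only: it applies with F = ℚ, the algebra ℚ → N, tower by Subsingleton.) -/
theorem e7_galQ (N B L : Type) [Field N] [NumberField N] [Field B] [NumberField B] [Field L] [NumberField L] [Algebra N L] [Algebra B L]
    [IsGalois ℚ N] [IsGalois ℚ B] (h : Cmp N B L) : IsGalois ℚ L := by
  letI : Algebra ℚ N := inferInstance
  haveI : IsScalarTower ℚ N L := IsScalarTower.of_algebraMap_eq' (Subsingleton.elim _ _)
  exact p3_gal (F := ℚ) h

end H57N
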