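import Mathlib
import Pool.Agent.Lib.H57N.E6
import Pool.Agent.Lib.H57N.E7

/-! # H57N: the existence theorem, real version (assembly) -/

open NumberField IsDedekindDomain WeierstrassCurve

namespace H57N

open H28T
open H55P H55R
open H55K H55K.TQ

/-- For every finite p-group H and every bound R₀ the theorem applies to a field K with a real place, with at least R₀ primes in AnR, such that H is
a subquotient of the Galois group over F of the field N generated by F and K (quadratic over K, Galois over ℚ). -/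
def ExistRealS (F : Type) [Field F] [NumberField F] [IQ F] (p : ℕ) (W : WeierstrassCurve ℤ) : Prop :=
  ∀ (H : Type) [Group H] [Finite H] (k : ℕ), Nat.card H = p ^ k → ∀ R₀ : ℕ,
    ∃ (M K' K : Type) (_ : Field M) (_ : NumberField M) (_ : Field K') (_ : NumberField K') (_ : Field K) (_ : NumberField K)
      (_ : Algebra M K') (_ : Algebra K' K) (_ : Algebra M K) (n : ℕ),
      0 < InfinitePlace.nrRealPlaces K ∧
      (∀ ιK : K →ₐ[ℚ] AlgebraicClosure F, H13T.HypS F p n W M K' K ιK) ∧ R₀ ≤ (H13T.AnR p W K' K).ncard ∧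
      ∃ (N : Type) (_ : Field N) (_ : NumberField N) (_ : Algebra F N) (_ : Algebra K N),
        Module.finrank K N = 2 ∧ IsGalois ℚ N ∧ (∃ r : ℕ, Module.finrank F N = p ^ r) ∧ H28R.SubQ (N ≃ₐ[F] N) H

variable {F : Type} [Field F] [NumberField F] [IQ F] {W : WeierstrassCurve ℤ} {p : ℕ}

/-- Over a base field M contained in a field N₀ of the class. -/
theorem e8_real (hF : Fct (F := F) W p) (h2 : p ≠ 2) (M N₀ : Type) [Field M] [NumberField M] [Field N₀] [NumberField N₀] [Algebra F N₀]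
    [Algebra M N₀] (hN : ExtG (Gx (W⁄(𝓞 F)) p) p N₀) (hQ : IsGalois ℚ N₀) (hMN : Module.finrank M N₀ = 2)
    (hre : 0 < InfinitePlace.nrRealPlaces M) (H : Type) [Group H] (hH : H28R.SubQ (N₀ ≃ₐ[F] N₀) H) (R₀ : ℕ) :
    ∃ (K' K : Type) (_ : Field K') (_ : NumberField K') (_ : Field K) (_ : NumberField K)
      (_ : Algebra M K') (_ : Algebra K' K) (_ : Algebra M K) (n : ℕ),
      0 < InfinitePlace.nrRealPlaces K ∧
      (∀ ιK : K →ₐ[ℚ] AlgebraicClosure F, H13T.HypS F p n W M K' K ιK) ∧ R₀ ≤ (H13T.AnR p W K' K).ncard ∧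
      ∃ (N : Type) (_ : Field N) (_ : NumberField N) (_ : Algebra F N) (_ : Algebra K N),
        Module.finrank K N = 2 ∧ IsGalois ℚ N ∧ (∃ r : ℕ, Module.finrank F N = p ^ r) ∧ H28R.SubQ (N ≃ₐ[F] N) H := by
  have hUN : UnrP p N₀ := ce_unr hF.hp hF.unrF (fun v h => h.1) hN
  obtain ⟨n, l, Q, hn, hPr, hQc, hfew, hG, hd, hpl, hpQ, hq⟩ := e4_choice hF.hp hF.ell hF.dir hF.manyQ N₀ (Module.finrank ℚ M) R₀
  obtain ⟨B, i1, i2, B', hC⟩ := c5_exists hPr
  have hdM : ∀ r : ℕ, r.Prime → (r : ℤ) ∣ discr M → r ≠ l ∧ r ∉ Q := fun r hr h => hd r hr (h.trans (discr_dvd_discr M N₀))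
  obtain ⟨j⟩ : Nonempty (B →+* AlgebraicClosure N₀) := ⟨(IsAlgClosed.lift : B →ₐ[ℚ] AlgebraicClosure N₀).toRingHom⟩
  obtain ⟨j', hj'⟩ : ∃ j' : B' →+* AlgebraicClosure N₀, j' = j.comp (algebraMap B' B) := ⟨_, rfl⟩
  haveI tMΩ : IsScalarTower M N₀ (AlgebraicClosure N₀) := inferInstance
  have hle : cE M j' ≤ cE M j := by rw [hj']; exact p5_mono M j _
  have hle' : cE N₀ j' ≤ cE N₀ j := by rw [hj']; exact p5_mono N₀ j _
  letI nK : NumberField (cE M j) := p5_num M j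
  letI nK' : NumberField (cE M j') := p5_num M j'
  letI nL : NumberField (cE N₀ j) := p5_num N₀ j
  letI nL' : NumberField (cE N₀ j') := p5_num N₀ j'
  letI aB : Algebra B (cE M j) := cAlg M j
  letI aB' : Algebra B' (cE M j') := cAlg M j'
  letI bB : Algebra B (cE N₀ j) := cAlg N₀ j
  letI bB' : Algebra B' (cE N₀ j') := cAlg N₀ j'
  letI aKK : Algebra (cE M j') (cE M j) := (IntermediateField.inclusion hle).toRingHom.toAlgebra
  haveI tM : IsScalarTower M (cE M j') (cE M j) := IsScalarTower.of_algebraMap_eq fun _ => rfl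
  letI aF : Algebra F (cE N₀ j) := ((algebraMap N₀ (cE N₀ j)).comp (algebraMap F N₀)).toAlgebra
  haveI tF : IsScalarTower F N₀ (cE N₀ j) := IsScalarTower.of_algebraMap_eq fun _ => rfl
  letI aF' : Algebra F (cE N₀ j') := ((algebraMap N₀ (cE N₀ j')).comp (algebraMap F N₀)).toAlgebra
  haveI tF' : IsScalarTower F N₀ (cE N₀ j') := IsScalarTower.of_algebraMap_eq fun _ => rfl
  -- K → L and K' → L'
  letI aKL : Algebra (cE M j) (cE N₀ j) :=
    (({ toFun := fun x => ⟨x, p5_up M N₀ j x x.2⟩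
        map_one' := rfl
        map_mul' := fun _ _ => rfl
        map_zero' := rfl
        map_add' := fun _ _ => rfl } : (cE M j) →+* (cE N₀ j))).toAlgebra
  letI aKL' : Algebra (cE M j') (cE N₀ j') :=
    (({ toFun := fun x => ⟨x, p5_up M N₀ j' x x.2⟩
        map_one' := rfl
        map_mul' := fun _ _ => rfl
        map_zero' := rfl
        map_add' := fun _ _ => rfl } : (cE M j') →+* (cE N₀ j'))).toAlgebra
  letI aML : Algebra M (cE N₀ j) := ((algebraMap N₀ (cE N₀ j)).comp (algebraMap M N₀)).toAlgebra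
  haveI t1 : IsScalarTower M N₀ (cE N₀ j) := IsScalarTower.of_algebraMap_eq fun _ => rfl
  haveI t2 : IsScalarTower M (cE M j) (cE N₀ j) := IsScalarTower.of_algebraMap_eq fun _ => rfl
  have hc : Cmp M B (cE M j) := p5_cmp M j
  have hc' : Cmp M B' (cE M j') := p5_cmp M j'
  have hL : Cmp N₀ B (cE N₀ j) := p5_cmp N₀ j
  have hL' : Cmp N₀ B' (cE N₀ j') := p5_cmp N₀ j'
  haveI gB := hC.gal
  haveI gB' := hC.gal'
  haveI gN := hN.1
  have hcyc := e1_cyc hC M (cE M j') (cE M j) hc' hc hdM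
  have hext : ExtG (Gx (W⁄(𝓞 F)) p) p (cE N₀ j') := e1_ext hC N₀ (cE N₀ j') hL' hN hd hG
  haveI hgK : IsGalois M (cE M j) := hcyc.gal
  haveI hgL : IsGalois F (cE N₀ j) := p3_gal (F := F) hL
  have hcop : IsCoprime (discr N₀) (discr B) := p2_cop N₀ B fun r hr hrd w hw => hC.unr w r hr hw (hd r hr hrd).1 (hd r hr hrd).2
  have hdL : Module.finrank N₀ (cE N₀ j) = p ^ (n + 1) := (p2_deg hL hcop).1.trans hC.deg
  obtain ⟨k, hk⟩ := hN.2.1
  have hdF : @Module.finrank F (cE N₀ j) _ _ aF.toModule = p ^ (k + (n + 1)) := by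
    rw [e6_deg F N₀ (cE N₀ j), hk, hdL, ← pow_add]
  have hdKL : @Module.finrank (cE M j) (cE N₀ j) _ _ aKL.toModule = 2 := by
    have h1 := e6_deg M (cE M j) (cE N₀ j)
    have h3 := e6_deg M N₀ (cE N₀ j)
    rw [hdL, hMN] at h3
    rw [hcyc.deg, h3, mul_comm] at h1
    exact (Nat.eq_of_mul_eq_mul_left (Nat.pow_pos hF.hp.pos) h1).symm
  have hInP : InPF (W⁄(𝓞 F)) p (cE M j') :=
    (inPF_iff hF.hp hF.unrF (cE M j')).2 ⟨cE N₀ j', inferInstance, nL', aF', aKL', hext⟩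
  have hUM : UnrP p M := by
    rw [e2_iff M hF.hp]
    intro w hw
    obtain ⟨P, hP⟩ := under_exists (L := N₀) w
    have hPw : w.asIdeal = P.asIdeal.under (𝓞 M) := by rw [← hP]; rfl
    have hpP : (p : 𝓞 N₀) ∈ P.asIdeal := by
      have h1 : (p : 𝓞 M) ∈ P.asIdeal.under (𝓞 M) := hPw ▸ hw
      rw [Ideal.mem_under, map_natCast] at h1
      exact h1
    have h1 := (e2_iff N₀ hF.hp).1 hUN P hpP
    rw [(p4_towerZ P w hPw).1] at h1
    exact Nat.eq_one_of_mul_eq_one_right h1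
  have hsub := e3_sub (F := F) (W := W) hC M (cE M j') (cE M j) (cE N₀ j') (hK := hc) hext.1 hext.2.1 hG hF.down
  obtain ⟨hfin, hle2⟩ := e3_count hC hF.hp M (cE M j') hcyc.sub (fun q hq' => (hPr.hq q hq').1) (H13T.AnR p W (cE M j') (cE M j))
    (fun w hw => hsub w hw)
  have hlow := e3_lower (F := F) (W := W) hC M (cE M j') (cE M j) hc' hc hdM
    (fun q hq' => ⟨(hPr.hq q hq').1, (hPr.hq q hq').2.2.1, (hq q hq').1, (hq q hq').2⟩) hfin
  refine ⟨cE M j', cE M j, inferInstance, nK', inferInstance, nK, inferInstance, aKK, inferInstance, n,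
    e7_real M (cE M j) ?_ hre, fun ιK => ⟨hn, hcyc, e2_unr hC hF.hp hpl hpQ hc hUM, ?_, hF.bsd _ hInP, ?_⟩, ?_,
    cE N₀ j, inferInstance, nL, aF, aKL, hdKL, e7_galQ N₀ B (cE N₀ j) hL, ⟨_, hdF⟩, e7_subq (F := F) (N := N₀) (L := cE N₀ j) H hH⟩
  · rw [hcyc.deg]
    exact (hF.hp.odd_of_ne_two h2).pow
  · exact hF.bad M N₀ hN.1 hN.2.1 _
  · rw [hQc] at hle2
    exact lt_of_le_of_lt (Nat.mul_le_mul_left 2 hle2) hfew
  · rw [← hQc]
    exact hlow

theorem e8_exist (hF : Fct (F := F) W p) (h2 : p ≠ 2) (hE : ∀ (H : Type) [Group H] [Finite H] (k : ℕ), Nat.card H = p ^ k →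
    RealG (W⁄(𝓞 F)) p H) : ExistRealS F p W := by
  intro H _ _ k hk R₀
  obtain ⟨M, i1, i2, hre, -, N₀, j1, j2, j3, j4, hMN, hQ, hN, hH⟩ := hE H k hk
  obtain ⟨K', K, a1, a2, a3, a4, a5, a6, a7, n, h1, h3, h4, h5⟩ := e8_real hF h2 M N₀ hN hQ hMN hre H hH R₀
  exact ⟨M, K', K, i1, i2, a1, a2, a3, a4, a5, a6, a7, n, h1, h3, h4, h5⟩

/-- EXISTENCE, real version, for the maximal order. -/
theorem real_main {Om : ℂ} {m : Ideal (𝓞 F)} {ψ : Ideal (𝓞 F) →*₀ 𝓞 F} (hH : BaseH F (W⁄(𝓞 F)) Om m ψ)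
    (hp : PrimeH F (W⁄(𝓞 F)) p) (hA : AnUnitG p W ℚ) : ExistRealS F p W :=
  e8_exist (e6_fct hH hp hA) (by have := hp.five; omega) (fun H _ _ k hk => real_Q hH hp H k hk)

open H28I in
/-- EXISTENCE, real version, for the isogenous curves. -/
theorem real_iso {W' : WeierstrassCurve ℤ} {Om : ℂ} {m : Ideal (𝓞 F)}
    {ψ : Ideal (𝓞 F) →*₀ 𝓞 F} {kap : ℤ} {e t u lam : ℚ} (h : TW F W W' Om m ψ kap e t u lam) (hp' : PrimeH F (W'⁄(𝓞 F)) p)
    (hA : AnUnitG p W' ℚ) : ExistRealS F p W' :=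
  e8_exist (e6_fct_iso h hp' hA) (by have := hp'.five; omega) (rich_iso h hp').2

end H57N
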