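import Pool.Agent.Lib.H57N.Defs

/-! # H57N, chunk C3: the inertia group in a cyclotomic field -/

open NumberField IsDedekindDomain

namespace H57N

theorem c3_root {R : Type*} [CommRing R] [IsDomain R] (P : Ideal R) (hP : P ≠ ⊤) {m' q : ℕ} (hm0 : m' ≠ 0)
    (hco : Nat.Coprime q m') (hq : (q : R) ∈ P) {y z : R} (hy : y ^ m' = 1) (hz : z ^ m' = 1) (h : z - y ∈ P) : z = y := by
  by_contra hne
  obtain ⟨η, hη⟩ : ∃ η, η = z * y ^ (m' - 1) := ⟨_, rfl⟩
  have hyy : y * y ^ (m' - 1) = 1 := by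
    rw [← pow_succ', Nat.sub_add_cancel (Nat.pos_of_ne_zero hm0), hy]
  have hη1 : η ≠ 1 := by
    intro h1
    apply hne
    calc z = (z * y ^ (m' - 1)) * y := by rw [mul_assoc, mul_comm (y ^ (m' - 1)) y, hyy, mul_one]
      _ = y := by rw [← hη, h1, one_mul]
  have hηm : η ^ m' = 1 := by
    rw [hη, mul_pow, hz, one_mul, ← pow_mul, mul_comm (m' - 1) m', pow_mul, hy, one_pow]
  have hηP : η - 1 ∈ P := by
    have e : η - 1 = (z - y) * y ^ (m' - 1) := by rw [sub_mul, hyy, hη]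
    rw [e]
    exact P.mul_mem_right _ h
  have hgeom : ∑ i ∈ Finset.range m', η ^ i = 0 := by
    have e := mul_geom_sum η m'
    rw [hηm, sub_self] at e
    exact (mul_eq_zero.1 e).resolve_left (sub_ne_zero.2 hη1)
  have hmP : (m' : R) ∈ P := by
    have e : ∑ i ∈ Finset.range m', (η ^ i - 1) ∈ P := P.sum_mem fun i _ => by
      have e2 := sub_dvd_pow_sub_pow η 1 i
      rw [one_pow] at e2
      exact P.mem_of_dvd e2 hηP
    rw [Finset.sum_sub_distrib, hgeom, Finset.sum_const, Finset.card_range, nsmul_eq_mul, mul_one, zero_sub] at e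
    exact (Submodule.neg_mem_iff P).1 e
  obtain ⟨a, b, hab⟩ := Nat.isCoprime_iff_coprime.2 hco
  apply hP
  rw [Ideal.eq_top_iff_one]
  have e : (1 : R) = (a : R) * q + (b : R) * m' := by
    have := congrArg (fun t : ℤ => (t : R)) hab
    push_cast at this
    exact this.symm
  rw [e]
  exact P.add_mem (P.mul_mem_left _ hq) (P.mul_mem_left _ hmP)

/-- Chunk C3 (M), only Mathlib. m = q * m', q prime, not dividing m'; Z the field of the m-th roots of unity, w a prime of Z above q, σ in Gal(Z/ℚ) fixing the m'-th roots of unity. Then σ is in the inertia group I of w. Proof by counting: let H be the subgroup of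
the σ with σ x = x for all x with x^m' = 1. (a) I ≤ H: let σ in I, x^m' = 1: σ x is an m'-th root of unity, σ x - x in w (x integral: x = algebraMap of y : 𝓞 Z); if σ x ≠ x then x⁻¹ σ x = η ≠ 1 is an m'-th root of unity and 1 - η in w, but 1 - η divides m'
(m' = ∏ (1 - η^i) type identity for the order of η, or: the polynomial X^(m') - 1 is separable modulo w: derivative m' x^(m'-1) is a unit modulo w; simplest: 1 + η + ... + η^(m'-1) = 0 and η = 1 mod w give m' = 0 mod w, so m' in w with q in w, m', q coprime,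
1 in w: contradiction). (b) |I| = ramification index = q - 1 (Ideal.card_inertia_eq_ramificationIdxIn, Ideal.ramificationIdxIn_eq_ramificationIdx, IsCyclotomicExtension.Rat.ramificationIdx_eq m with k = 0). (c) |H| ≤ q - 1: Gal(Z/ℚ) has order φ(m) = φ(m')(q - 1)
(IsCyclotomicExtension.Rat.galEquivZMod, ZMod.card_units_eq_totient, Nat.totient_mul, Nat.totient_prime); H is the kernel of the surjection to (ZMod m')ˣ: (galEquivZMod σ) followed by ZMod.unitsMap (m' ∣ m) (ZMod.unitsMap_surjective; kernel in terms of roots of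
unity with galEquivZMod_apply_of_pow_eq), so |H| = φ(m)/φ(m'). (d) I ≤ H, |H| ≤ |I|, finite: I = H (Subgroup.eq_of_le_of_card_ge). -/
theorem c3_inertia {m m' q : ℕ} (hm : m = q * m') (hq : q.Prime) (hm' : ¬ q ∣ m') (hm0 : m' ≠ 0)
    (w : HeightOneSpectrum (𝓞 (Zf m))) (hw : (q : 𝓞 (Zf m)) ∈ w.asIdeal) (σ : Zf m ≃ₐ[ℚ] Zf m)
    (hσ : ∀ x : Zf m, x ^ m' = 1 → σ x = x) : ∀ y : 𝓞 (Zf m), σ • y - y ∈ w.asIdeal := by
  haveI : Fact q.Prime := ⟨hq⟩
  haveI : NeZero m := ⟨by rw [hm]; exact mul_ne_zero hq.ne_zero hm0⟩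
  haveI : NeZero ((m : ℕ) : ℚ) := ⟨Nat.cast_ne_zero.2 (NeZero.ne m)⟩
  haveI : IsCyclotomicExtension {m} ℚ (Zf m) := CyclotomicField.isCyclotomicExtension m ℚ
  haveI : IsGalois ℚ (Zf m) := IsCyclotomicExtension.isGalois {m} ℚ (Zf m)
  haveI := w.isPrime
  have hco : Nat.Coprime q m' := (Nat.Prime.coprime_iff_not_dvd hq).2 hm'
  haveI hlo : w.asIdeal.LiesOver (Ideal.span {(q : ℤ)}) :=
    (Ideal.liesOver_span_iff Ideal.IsPrime.ne_top' (Nat.prime_iff_prime_int.1 hq)).mpr (by exact_mod_cast hw)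
  haveI : (Ideal.span {(q : ℤ)}).IsMaximal := by
    have e : Ideal.span {(q : ℤ)} = w.asIdeal.under ℤ := hlo.1
    rw [e]
    haveI := w.isMaximal
    exact Ideal.IsMaximal.under ℤ w.asIdeal
  haveI : Finite (ℤ ⧸ Ideal.span {(q : ℤ)}) := Ring.HasFiniteQuotients.finiteQuotient (by
    rw [Ne, Ideal.span_singleton_eq_bot]
    exact_mod_cast hq.ne_zero)
  have hI : Nat.card (w.asIdeal.inertia (Zf m ≃ₐ[ℚ] Zf m)) = q - 1 := by
    rw [Ideal.card_inertia_eq_ramificationIdxIn (Ideal.span {(q : ℤ)}) w.asIdeal,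
      IsCyclotomicExtension.Rat.ramificationIdxIn_eq (p := q) (k := 0) (m := m') m (Zf m) (by rw [hm]; ring) hm', pow_zero, one_mul]
  have hIH : ((w.asIdeal.inertia (Zf m ≃ₐ[ℚ] Zf m) : Subgroup (Zf m ≃ₐ[ℚ] Zf m)) : Set (Zf m ≃ₐ[ℚ] Zf m)) ⊆
      {σ | ∀ x : Zf m, x ^ m' = 1 → σ x = x} := by
    intro τ hτ x hx
    have hxi : IsIntegral ℤ x := by
      refine IsIntegral.of_pow (Nat.pos_of_ne_zero hm0) ?_
      rw [hx]
      exact isIntegral_one
    obtain ⟨y, rfl⟩ : ∃ y : 𝓞 (Zf m), algebraMap (𝓞 (Zf m)) (Zf m) y = x := ⟨⟨x, hxi⟩, rfl⟩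
    have hinj : Function.Injective (algebraMap (𝓞 (Zf m)) (Zf m)) := FaithfulSMul.algebraMap_injective _ _
    have hy : y ^ m' = 1 := by
      apply hinj
      rw [map_pow, hx, map_one]
    have hz : (τ • y) ^ m' = 1 := by
      rw [← smul_pow', hy, smul_one]
    have h1 := c3_root w.asIdeal Ideal.IsPrime.ne_top' hm0 hco hw hy hz (hτ y)
    exact congrArg (algebraMap (𝓞 (Zf m)) (Zf m)) h1
  have hroot : ∀ τ ∈ {σ : Zf m ≃ₐ[ℚ] Zf m | ∀ x : Zf m, x ^ m' = 1 → σ x = x},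
      ((IsCyclotomicExtension.Rat.galEquivZMod m (Zf m) τ).val.val) ≡ 1 [MOD m'] := by
    intro τ hτ
    have hζ := IsCyclotomicExtension.zeta_spec m ℚ (Zf m)
    have hξ : IsPrimitiveRoot (IsCyclotomicExtension.zeta m ℚ (Zf m) ^ q) m' := hζ.pow (NeZero.pos m) hm
    have h1 := IsCyclotomicExtension.Rat.galEquivZMod_apply_of_pow_eq m (Zf m) τ
      (x := IsCyclotomicExtension.zeta m ℚ (Zf m) ^ q) (by rw [← pow_mul, mul_comm, pow_mul, hζ.pow_eq_one, one_pow])
    rw [hτ _ hξ.pow_eq_one] at h1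
    have h2 : (IsCyclotomicExtension.zeta m ℚ (Zf m) ^ q) ^ (IsCyclotomicExtension.Rat.galEquivZMod m (Zf m) τ).val.val =
        (IsCyclotomicExtension.zeta m ℚ (Zf m) ^ q) ^ 1 := by rw [← h1, pow_one]
    rw [(hξ.isOfFinOrder hm0).pow_inj_mod, ← hξ.eq_orderOf] at h2
    exact h2
  have hinj : Set.InjOn (fun τ : Zf m ≃ₐ[ℚ] Zf m => ZMod.unitsMap (Dvd.intro m' hm.symm) (IsCyclotomicExtension.Rat.galEquivZMod m (Zf m) τ))
      {σ | ∀ x : Zf m, x ^ m' = 1 → σ x = x} := by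
    intro τ hτ τ' hτ' he
    have e1 := (hroot τ hτ).trans (hroot τ' hτ').symm
    have e2 : (IsCyclotomicExtension.Rat.galEquivZMod m (Zf m) τ).val.val ≡
        (IsCyclotomicExtension.Rat.galEquivZMod m (Zf m) τ').val.val [MOD q] := by
      have he' := congrArg Units.val he
      simp only [ZMod.unitsMap_val] at he'
      rw [← ZMod.natCast_eq_natCast_iff, ZMod.natCast_val, ZMod.natCast_val]
      exact he'
    have e3 := (Nat.modEq_and_modEq_iff_modEq_mul hco).1 ⟨e2, e1⟩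
    rw [← hm, ← ZMod.natCast_eq_natCast_iff, ZMod.natCast_zmod_val, ZMod.natCast_zmod_val] at e3
    exact (IsCyclotomicExtension.Rat.galEquivZMod m (Zf m)).injective (Units.ext e3)
  have hH : ({σ : Zf m ≃ₐ[ℚ] Zf m | ∀ x : Zf m, x ^ m' = 1 → σ x = x}).ncard ≤ q - 1 := by
    rw [← hinj.ncard_image]
    refine (Set.ncard_le_ncard (Set.subset_univ _) Set.finite_univ).trans ?_
    rw [Set.ncard_univ, Nat.card_eq_fintype_card, ZMod.card_units]
  have hEq := Set.eq_of_subset_of_ncard_le hIH (by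
    refine hH.trans (le_of_eq ?_)
    rw [← hI]
    rfl) (Set.toFinite _)
  have hmem : σ ∈ ((w.asIdeal.inertia (Zf m ≃ₐ[ℚ] Zf m) : Subgroup (Zf m ≃ₐ[ℚ] Zf m)) : Set (Zf m ≃ₐ[ℚ] Zf m)) := by
    rw [hEq]; exact hσ
  exact hmem

end H57N
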