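import Pool.Agent.Lib.H57N.C2
import Pool.Agent.Lib.H57N.C3
import Pool.Agent.Lib.H57N.P4

/-! # H57N, chunk C4: ramification in the subfields of the cyclotomic field -/

open NumberField IsDedekindDomain

namespace H57N

/-- a prime above a given prime -/
theorem c4_over {B Z : Type} [Field B] [NumberField B] [Field Z] [NumberField Z] [Algebra B Z] (w : HeightOneSpectrum (𝓞 B)) :
    ∃ W : HeightOneSpectrum (𝓞 Z), w.asIdeal = W.asIdeal.under (𝓞 B) := by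
  have hwp := w.isPrime
  obtain ⟨P, hP1, hP2⟩ : ∃ P : Ideal (𝓞 Z), P.IsPrime ∧ P.LiesOver w.asIdeal := by
    obtain ⟨⟨P, h3, h4⟩⟩ := w.asIdeal.nonempty_primesOver (S := 𝓞 Z)
    exact ⟨P, h3, h4⟩
  have hne : P ≠ ⊥ := by
    intro h
    apply w.ne_bot
    rw [hP2.over, h]
    exact Ideal.comap_bot_of_injective _ (FaithfulSMul.algebraMap_injective _ _)
  exact ⟨⟨P, hP1, hne⟩, hP2.over⟩

/-- a prime containing a prime number lies over it -/
theorem c4_lies {Z : Type} [Field Z] [NumberField Z] (w : HeightOneSpectrum (𝓞 Z)) {p : ℕ} (hp : p.Prime)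
    (hpw : (p : 𝓞 Z) ∈ w.asIdeal) : w.asIdeal.LiesOver (Ideal.span {(p : ℤ)}) := by
  have hp' : Prime (p : ℤ) := Nat.prime_iff_prime_int.1 hp
  have hmax : (Ideal.span {(p : ℤ)}).IsMaximal :=
    PrincipalIdealRing.isMaximal_of_irreducible hp'.irreducible
  have hwp := w.isPrime
  have hu : (w.asIdeal.under ℤ).IsPrime := inferInstance
  refine ⟨hmax.eq_of_le hu.ne_top ?_⟩
  rw [Ideal.span_singleton_le_iff_mem, Ideal.under_def, Ideal.mem_comap, map_natCast]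
  exact hpw

theorem c4_mem {B Z : Type} [Field B] [NumberField B] [Field Z] [NumberField Z] [Algebra B Z] (w : HeightOneSpectrum (𝓞 B))
    (W : HeightOneSpectrum (𝓞 Z)) (hW : w.asIdeal = W.asIdeal.under (𝓞 B)) {r : ℕ} (hr : (r : 𝓞 B) ∈ w.asIdeal) :
    (r : 𝓞 Z) ∈ W.asIdeal := by
  rw [hW, Ideal.under_def, Ideal.mem_comap, map_natCast] at hr
  exact hr

theorem c4_le {K1 K : Type} [Field K1] [NumberField K1] [Field K] [NumberField K] [Algebra K1 K]
    (w : HeightOneSpectrum (𝓞 K)) :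
    w.asIdeal.ramificationIdx (𝓞 K1) * w.asIdeal.inertiaDeg (𝓞 K1) ≤ Module.finrank K1 K := by
  have hwp := w.isPrime
  have hp : (w.asIdeal.under (𝓞 K1)).IsPrime := inferInstance
  have hf : Fintype ((w.asIdeal.under (𝓞 K1)).primesOver (𝓞 K)) :=
    (Algebra.QuasiFinite.finite_primesOver _).fintype
  have h := Ideal.sum_ramification_inertia_eq_finrank (w.asIdeal.under (𝓞 K1)) (𝓞 K)
  rw [← IsFractionRing.finrank_eq (𝓞 K1) K1 (𝓞 K) K] at h
  rw [← h]
  have hmem : w.asIdeal ∈ (w.asIdeal.under (𝓞 K1)).primesOver (𝓞 K) := ⟨hwp, ⟨rfl⟩⟩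
  exact Finset.single_le_sum (f := fun q : (w.asIdeal.under (𝓞 K1)).primesOver (𝓞 K) =>
    q.1.ramificationIdx (𝓞 K1) * q.1.inertiaDeg (𝓞 K1)) (fun _ _ => Nat.zero_le _)
    (Finset.mem_univ ⟨w.asIdeal, hmem⟩)

theorem c4_card (L : Type) [Field L] [NumberField L] (hG : IsGalois ℚ L)
    (w : HeightOneSpectrum (𝓞 L)) :
    Nat.card (w.asIdeal.inertia (L ≃ₐ[ℚ] L)) = w.asIdeal.ramificationIdx ℤ := by
  have hwm := w.isMaximal
  have hwp := w.isPrime
  have hl : w.asIdeal.LiesOver (w.asIdeal.under ℤ) := ⟨rfl⟩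
  have hum : (w.asIdeal.under ℤ).IsMaximal := Ideal.IsMaximal.under _ _
  have hub : w.asIdeal.under ℤ ≠ ⊥ := Ideal.IsIntegral.comap_ne_bot _ w.ne_bot
  have hfin : Finite (ℤ ⧸ w.asIdeal.under ℤ) :=
    Ideal.finiteQuotientOfFreeOfNeBot _ hub
  rw [Ideal.card_inertia_eq_ramificationIdxIn (G := L ≃ₐ[ℚ] L)
      (w.asIdeal.under ℤ) w.asIdeal,
      Ideal.ramificationIdxIn_eq_ramificationIdx (w.asIdeal.under ℤ) w.asIdeal (L ≃ₐ[ℚ] L)]

theorem c4_div {p n l : ℕ} {Q : Finset ℕ} (h : Prm p n l Q) {q : ℕ} (hq : q ∈ Q) :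
    md l Q = q * (md l Q / q) ∧ ¬ q ∣ md l Q / q ∧ md l Q / q ≠ 0 := by
  have hq1 := (h.hq q hq).1
  have h1 : md l Q = q * (l * ∏ r ∈ Q.erase q, r) := by
    unfold md
    rw [← Finset.mul_prod_erase Q (fun r => r) hq]
    ring
  have h2 : md l Q / q = l * ∏ r ∈ Q.erase q, r := by
    rw [h1, Nat.mul_div_cancel_left _ hq1.pos]
  rw [h2]
  refine ⟨h1, ?_, ?_⟩
  · intro hd
    rcases (hq1.dvd_mul).1 hd with h3 | h3
    · exact (h.hq q hq).2.2.1 ((Nat.prime_dvd_prime_iff_eq hq1 h.hl).1 h3)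
    · obtain ⟨r, hr, h4⟩ := (hq1.prime.dvd_finsetProd_iff _).1 h3
      have h5 := (Nat.prime_dvd_prime_iff_eq hq1 (h.hq r (Finset.mem_of_mem_erase hr)).1).1 h4
      exact (Finset.ne_of_mem_erase hr) h5.symm
  · exact Nat.mul_ne_zero h.hl.ne_zero
      (Finset.prod_ne_zero_iff.2 fun r hr => (h.hq r (Finset.mem_of_mem_erase hr)).1.ne_zero)

/-- Chunk C4 (S/M). W a prime of Z = Zf (md l Q) above w (going up: 𝓞 Z integral over 𝓞 B: Ideal.exists_ideal_over_prime.. or a prime containing; for number fields H55R.under_exists). σ from c2_gal for q: ρ σ ≠ 1, so σ is not trivial on B (hfix), and σ is in the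
inertia group of W by c3_inertia (m = q * m', m' = md l Q / q, not divisible by q: q ≠ l and q does not divide the other primes). The restriction g of σ to B (AlgEquiv.restrictNormalHom B) is in the inertia group of w: g • y - y in W ∩ 𝓞 B = w, and g ≠ 1. The
order of the inertia group of w in Gal(B/ℚ) is w.ramificationIdx ℤ (Ideal.card_inertia_eq_ramificationIdxIn, Ideal.ramificationIdxIn_eq_ramificationIdx; see ge_card in H28T/Gen.lean), so it is not 1. -/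
theorem c4_ram {p n l : ℕ} {Q : Finset ℕ} (h : Prm p n l Q) (ρ : (Zf (md l Q) ≃ₐ[ℚ] Zf (md l Q)) →* Cg (p ^ (n + 1)))
    (hρ : ∀ q ∈ Q, ∃ σ, (∀ x : Zf (md l Q), x ^ (md l Q / q) = 1 → σ x = x) ∧ ρ σ ≠ 1)
    (B : IntermediateField ℚ (Zf (md l Q))) [IsGalois ℚ B] (hfix : ∀ σ : Zf (md l Q) ≃ₐ[ℚ] Zf (md l Q), (∀ x : B, σ (x : Zf (md l Q)) = x) → ρ σ = 1)
    (w : HeightOneSpectrum (𝓞 B)) (q : ℕ) (hq : q ∈ Q) (hw : (q : 𝓞 B) ∈ w.asIdeal) : w.asIdeal.ramificationIdx ℤ ≠ 1 := by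
  obtain ⟨σ, hσ1, hσ2⟩ := hρ q hq
  obtain ⟨W, hW⟩ := c4_over (Z := Zf (md l Q)) w
  have hqW := c4_mem w W hW hw
  obtain ⟨d1, d2, d3⟩ := c4_div h hq
  have hin := c3_inertia d1 (h.hq q hq).1 d2 d3 W hqW σ hσ1
  obtain ⟨g, hg⟩ : ∃ g : B ≃ₐ[ℚ] B, ∀ x : B, ((g x : B) : Zf (md l Q)) = σ (x : Zf (md l Q)) :=
    ⟨AlgEquiv.restrictNormalHom B σ, fun x => AlgEquiv.restrictNormal_commutes σ B x⟩
  have hg1 : g ≠ 1 := by
    intro hg1
    apply hσ2
    refine hfix σ fun x => ?_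
    rw [← hg, hg1]
    rfl
  have hgI : g ∈ w.asIdeal.inertia (B ≃ₐ[ℚ] B) := by
    intro y
    show g • y - y ∈ w.asIdeal
    rw [hW, Ideal.under_def, Ideal.mem_comap, map_sub]
    have h1 : algebraMap (𝓞 B) (𝓞 (Zf (md l Q))) (g • y) = σ • algebraMap (𝓞 B) (𝓞 (Zf (md l Q))) y := by
      apply RingOfIntegers.ext
      exact hg _
    rw [h1]
    exact hin _
  intro h1
  have h2 := c4_card B inferInstance w
  rw [h1] at h2
  have h3 := Subgroup.card_eq_one.1 h2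
  rw [h3, Subgroup.mem_bot] at hgI
  exact hg1 hgI

/-- Chunk C4 (S). W above w in Z (as in c4_ram), W.ramificationIdx ℤ = 1 (IsCyclotomicExtension.Rat.ramificationIdx_eq_of_not_dvd r: W lies over span {r}, r does not divide m), and the tower formula (p4_towerZ): the factor w.ramificationIdx ℤ is 1. -/
theorem c4_unr {m r : ℕ} [NeZero m] (Z : Type) [Field Z] [NumberField Z] [IsCyclotomicExtension {m} ℚ Z] (B : Type) [Field B] [NumberField B]
    [Algebra B Z] (hr : r.Prime) (hm : ¬ r ∣ m) (w : HeightOneSpectrum (𝓞 B)) (hw : (r : 𝓞 B) ∈ w.asIdeal) : w.asIdeal.ramificationIdx ℤ = 1 := by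
  have : Fact r.Prime := ⟨hr⟩
  obtain ⟨W, hW⟩ := c4_over (Z := Z) w
  have hWp := W.isPrime
  have hl := c4_lies W hr (c4_mem w W hW hw)
  have h1 := IsCyclotomicExtension.Rat.ramificationIdx_eq_of_not_dvd r Z W.asIdeal hm
  have h2 := (p4_towerZ W w hW).1
  rw [h1] at h2
  exact Nat.eq_one_of_mul_eq_one_right h2.symm

/-- Chunk C4 (S/M). Z/ℚ generated by the l-th roots of unity, q a primitive root modulo l. W above w in Z: W.inertiaDeg ℤ = orderOf (q : ZMod l) = l - 1 (IsCyclotomicExtension.Rat.inertiaDeg_eq_of_not_dvd q, q ≠ l), and [Z : ℚ] = φ(l) = l - 1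
(IsCyclotomicExtension.Rat.finrank), = [B : ℚ] [Z : B]. W.inertiaDeg ℤ = w.inertiaDeg ℤ * W.inertiaDeg (𝓞 B) (p4_towerZ) and W.inertiaDeg (𝓞 B) ≤ [Z : B] (Ideal.inertiaDeg_le_finrank or the sum formula: e f ≤ n), so
[B : ℚ] ≤ w.inertiaDeg ℤ. -/
theorem c4_ine {l q : ℕ} (hl : l.Prime) (hq : q.Prime) (hql : q ≠ l) (ho : orderOf (q : ZMod l) = l - 1) (Z : Type) [Field Z] [NumberField Z]
    [IsCyclotomicExtension {l} ℚ Z] (B : Type) [Field B] [NumberField B] [Algebra B Z] (w : HeightOneSpectrum (𝓞 B))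
    (hw : (q : 𝓞 B) ∈ w.asIdeal) : Module.finrank ℚ B ≤ w.asIdeal.inertiaDeg ℤ := by
  have : Fact q.Prime := ⟨hq⟩
  have : NeZero l := ⟨hl.ne_zero⟩
  obtain ⟨W, hW⟩ := c4_over (Z := Z) w
  have hWp := W.isPrime
  have hL := c4_lies W hq (c4_mem w W hW hw)
  have hm : ¬ q ∣ l := fun hd => hql ((Nat.prime_dvd_prime_iff_eq hq hl).1 hd)
  have h1 := IsCyclotomicExtension.Rat.inertiaDeg_eq_of_not_dvd q Z W.asIdeal hm
  rw [ho] at h1
  have h2 := (p4_towerZ W w hW).2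
  rw [h1] at h2
  have h3 : Module.finrank ℚ Z = l - 1 := by
    rw [IsCyclotomicExtension.Rat.finrank l Z, Nat.totient_prime hl]
  have h4 := Module.finrank_mul_finrank ℚ B Z
  have h5 := c4_le (K1 := B) W
  have h6 := W.asIdeal.ramificationIdx_pos (𝓞 B)
  have h7 : W.asIdeal.inertiaDeg (𝓞 B) ≤ Module.finrank B Z :=
    le_trans (Nat.le_mul_of_pos_left _ h6) h5
  have h8 : 0 < Module.finrank B Z := Module.finrank_pos
  rw [h3, h2] at h4
  by_contra hlt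
  push Not at hlt
  have h9 : w.asIdeal.inertiaDeg ℤ * W.asIdeal.inertiaDeg (𝓞 B) < Module.finrank ℚ B * Module.finrank B Z :=
    lt_of_le_of_lt (Nat.mul_le_mul_left _ h7) (Nat.mul_lt_mul_of_pos_right hlt h8)
  omega

end H57N
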