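import Pool.Agent.Lib.H57N.D1
import Pool.Agent.Lib.H57N.P2
import Pool.Agent.Lib.H57N.P5
import Pool.Agent.Lib.H57N.C4

/-! # H57N, chunk D2: primes of degree one whose norm is a primitive root modulo l -/

open NumberField IsDedekindDomain

namespace H57N

/-- In a domain R with a primitive l-th root of unity z, if z^a - z^b is in the proper ideal W then a = b mod l or l in W. -/
theorem d2_root {R : Type} [CommRing R] [IsDomain R] (W : Ideal R) {l : ℕ} (hl : l.Prime) {z : R} (hz : IsPrimitiveRoot z l)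
    {a b : ℕ} (hab : (a : ZMod l) ≠ (b : ZMod l)) (h : z ^ a - z ^ b ∈ W) : (l : R) ∈ W := by
  have hl1 : 1 < l := hl.one_lt
  -- u = z ^ (a + (l - 1) * b)
  obtain ⟨u, hu⟩ : ∃ u : R, u = z ^ (a + (l - 1) * b) := ⟨_, rfl⟩
  have hzb : z ^ b * z ^ ((l - 1) * b) = 1 := by
    rw [← pow_add]
    have : b + (l - 1) * b = l * b := by
      obtain ⟨k, rfl⟩ : ∃ k, l = k + 1 := ⟨l - 1, by omega⟩
      rw [Nat.add_sub_cancel]; ring
    rw [this, pow_mul, hz.pow_eq_one, one_pow]
  have hu1 : u - 1 ∈ W := by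
    have h1 := W.mul_mem_right (z ^ ((l - 1) * b)) h
    rw [sub_mul, hzb, ← pow_add, ← hu] at h1
    exact h1
  have hul : u ^ l = 1 := by
    rw [hu, ← pow_mul, mul_comm, pow_mul, hz.pow_eq_one, one_pow]
  have hune : u ≠ 1 := by
    intro h1
    have h2 : z ^ a = z ^ b := by
      have h3 : z ^ a * z ^ ((l - 1) * b) = z ^ b * z ^ ((l - 1) * b) := by
        rw [hzb, ← pow_add, ← hu, h1]
      have h4 : z ^ ((l - 1) * b) ≠ 0 := pow_ne_zero _ (hz.ne_zero (by omega))
      exact mul_right_cancel₀ h4 h3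
    apply hab
    rw [ZMod.natCast_eq_natCast_iff]
    have ho := hz.eq_orderOf
    have h5 : z ^ (a % l) = z ^ (b % l) := by
      have h6 := pow_mod_orderOf z a
      have h7 := pow_mod_orderOf z b
      rw [← ho] at h6 h7
      rw [h6, h7, h2]
    exact hz.pow_inj (Nat.mod_lt _ hl.pos) (Nat.mod_lt _ hl.pos) h5
  have hsum : ∑ i ∈ Finset.range l, u ^ i = 0 := by
    have h1 : (∑ i ∈ Finset.range l, u ^ i) * (u - 1) = 0 := by
      rw [geom_sum_mul, hul, sub_self]
    rcases mul_eq_zero.1 h1 with h2 | h2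
    · exact h2
    · exact absurd (sub_eq_zero.1 h2) hune
  have hq : Ideal.Quotient.mk W u = 1 := by
    have h1 := Ideal.Quotient.eq.2 hu1
    rw [h1, map_one]
  rw [← Ideal.Quotient.eq_zero_iff_mem]
  have h2 := congrArg (Ideal.Quotient.mk W) hsum
  rw [map_sum, map_zero] at h2
  simp only [map_pow, hq, one_pow, Finset.sum_const, Finset.card_range, nsmul_eq_mul, mul_one] at h2
  rw [map_natCast]
  exact h2

theorem d2_key (C B L : Type) [Field C] [NumberField C] [Field B] [NumberField B] [Field L] [NumberField L]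
    [Algebra C L] [Algebra B L] {l : ℕ} [NeZero l] (hl : l.Prime) [IsCyclotomicExtension {l} ℚ B]
    (σ : L ≃ₐ[C] L) (τ : B ≃ₐ[ℚ] B) (hστ : ∀ x : B, σ (algebraMap B L x) = algebraMap B L (τ x))
    (W : HeightOneSpectrum (𝓞 L)) (hW : CHEB.FrAt C W σ) (hl' : (l : 𝓞 C) ∉ (CFT.below C W).asIdeal) :
    ((Ideal.absNorm (CFT.below C W).asIdeal : ℕ) : ZMod l) =
      ((IsCyclotomicExtension.Rat.galEquivZMod l B τ : (ZMod l)ˣ) : ZMod l) := by
  have hζ := IsCyclotomicExtension.zeta_spec l ℚ B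
  obtain ⟨ζ, hζe⟩ : ∃ ζ : B, ζ = IsCyclotomicExtension.zeta l ℚ B := ⟨_, rfl⟩
  rw [← hζe] at hζ
  have hzL : IsPrimitiveRoot (algebraMap B L ζ) l := hζ.map_of_injective (algebraMap B L).injective
  obtain ⟨z, hz⟩ : ∃ z : 𝓞 L, algebraMap (𝓞 L) L z = algebraMap B L ζ :=
    ⟨⟨algebraMap B L ζ, hzL.isIntegral hl.pos⟩, rfl⟩
  have hzp : IsPrimitiveRoot z l := by
    refine IsPrimitiveRoot.of_map_of_injective (f := algebraMap (𝓞 L) L) ?_ (FaithfulSMul.algebraMap_injective (𝓞 L) L)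
    rw [hz]
    exact hzL
  have hval := IsCyclotomicExtension.Rat.galEquivZMod_apply_of_pow_eq l B τ (x := ζ) hζ.pow_eq_one
  obtain ⟨a, ha⟩ : ∃ a : ℕ, a = (IsCyclotomicExtension.Rat.galEquivZMod l B τ).val.val := ⟨_, rfl⟩
  rw [← ha] at hval
  have hσz : σ • z = z ^ a := by
    apply FaithfulSMul.algebraMap_injective (𝓞 L) L
    rw [map_pow, hz, ← map_pow, ← hval, ← hστ, ← hz]
    rfl
  have h1 := hW z
  rw [hσz] at h1
  have hNm : CFT.Nm (CFT.below C W) = Ideal.absNorm (CFT.below C W).asIdeal := rfl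
  rw [hNm] at h1
  by_contra hne
  have h2 : ((a : ℕ) : ZMod l) ≠ ((Ideal.absNorm (CFT.below C W).asIdeal : ℕ) : ZMod l) := by
    intro h3
    apply hne
    rw [← h3, ha, ZMod.natCast_zmod_val]
  have h3 := d2_root W.asIdeal hl hzp h2 h1
  apply hl'
  have h4 : (algebraMap (𝓞 C) (𝓞 L)) (l : 𝓞 C) ∈ W.asIdeal := by
    rw [map_natCast]
    exact h3
  exact h4

theorem d2_fin (C : Type) [Field C] [NumberField C] {l : ℕ} (hl : l ≠ 0) :
    {w : HeightOneSpectrum (𝓞 C) | (l : 𝓞 C) ∈ w.asIdeal}.Finite := by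
  have h : Ideal.span {(l : 𝓞 C)} ≠ 0 := by
    rw [Ideal.zero_eq_bot, Ne, Ideal.span_singleton_eq_bot]
    exact_mod_cast hl
  refine (Ideal.finite_factors h).subset fun w hw => ?_
  rw [Set.mem_setOf_eq] at hw ⊢
  rw [Ideal.dvd_iff_le, Ideal.span_singleton_le_iff_mem]
  exact hw

/-- Chunk D2 (M). B = CyclotomicField l ℚ, Ω = AlgebraicClosure C, j : B →+* Ω (IsAlgClosed.lift over ℚ), L = cE C j (P5.lean): a number field (p5_num), generated by C and B (p5_cmp; algebra cAlg C j, use letI). The discriminants of C and B are coprime: p2_cop,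
r ∣ discr C gives r ≠ l (hd), so B is unramified at r (c4_unr with Z = B, m = l, r does not divide l). p2_deg: e : Gal(L/C) ≃* Gal(B/ℚ), and IsCyclotomicExtension.Rat.galEquivZMod l B : Gal(B/ℚ) ≃* (ZMod l)ˣ. Let g be a generator of (ZMod l)ˣ
(IsCyclic.exists_generator; of order l - 1: orderOf_eq_card_of_forall_mem_zpowers, ZMod.card_units_eq_totient), σ with image g. d1_cheb C L σ with the set S ∪ {w : (l : 𝓞 C) ∈ w} (finite: H28R.W5_fin_mem or Ideal.finite_factors). N = absNorm w, W above w with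
σ y - y^N in W for y in 𝓞 L. Let ζ be a primitive l-th root of unity in B, z its image in 𝓞 L: σ z = z^(g.val) (galEquivZMod_apply_of_pow_eq and p2_deg), so z^(g.val) - z^N in W; if g.val and N were different modulo l, then z^a (1 - η) in W for an l-th root of
unity η ≠ 1, z is a unit, 1 - η divides l (1 + η + ... + η^(l-1) = 0, η = 1 mod W gives l = 0 mod W), l in W, l in w: contradiction. So (N : ZMod l) = g, of order l - 1 (orderOf_units). -/
theorem d2_prim (C : Type) [Field C] [NumberField C] {l : ℕ} (hl : l.Prime) (hd : ¬ (l : ℤ) ∣ discr C)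
    (S : Set (HeightOneSpectrum (𝓞 C))) (hS : S.Finite) :
    ∃ w : HeightOneSpectrum (𝓞 C), w ∉ S ∧ (Ideal.absNorm w.asIdeal).Prime ∧
      orderOf ((Ideal.absNorm w.asIdeal : ℕ) : ZMod l) = l - 1 := by
  have hlf : Fact l.Prime := ⟨hl⟩
  have hl0 : NeZero l := ⟨hl.ne_zero⟩
  have hcy : IsCyclotomicExtension {l} ℚ (CyclotomicField l ℚ) := CyclotomicField.isCyclotomicExtension l ℚ
  have hgal : IsGalois ℚ (CyclotomicField l ℚ) := IsCyclotomicExtension.isGalois {l} ℚ _
  let j : CyclotomicField l ℚ →+* AlgebraicClosure C :=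
    (IsAlgClosed.lift (R := ℚ) (S := CyclotomicField l ℚ) (M := AlgebraicClosure C)).toRingHom
  letI : Algebra (CyclotomicField l ℚ) (cE C j) := cAlg C j
  have hN : NumberField (cE C j) := p5_num C j
  have hcmp : Cmp C (CyclotomicField l ℚ) (cE C j) := p5_cmp C j
  have hcop : IsCoprime (discr C) (discr (CyclotomicField l ℚ)) := by
    refine p2_cop C (CyclotomicField l ℚ) fun r hr hrd w hw => ?_
    refine c4_unr (m := l) (CyclotomicField l ℚ) (CyclotomicField l ℚ) hr ?_ w hw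
    intro hrl
    rw [(Nat.prime_dvd_prime_iff_eq hr hl).1 hrl] at hrd
    exact hd hrd
  obtain ⟨-, e, he⟩ := p2_deg hcmp hcop
  have hgalC : IsGalois C (cE C j) := p1_gal hcmp
  obtain ⟨g, hg⟩ := IsCyclic.exists_generator (α := (ZMod l)ˣ)
  obtain ⟨τ, hτ⟩ : ∃ τ, IsCyclotomicExtension.Rat.galEquivZMod l (CyclotomicField l ℚ) τ = g :=
    (IsCyclotomicExtension.Rat.galEquivZMod l (CyclotomicField l ℚ)).surjective g
  obtain ⟨σ, hσ⟩ := e.surjective τ
  obtain ⟨w, hw, hwp, W, hWw, hWF⟩ := d1_cheb C (cE C j) σ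
    (S ∪ {w : HeightOneSpectrum (𝓞 C) | (l : 𝓞 C) ∈ w.asIdeal}) (hS.union (d2_fin C hl.ne_zero))
  rw [Set.mem_union, not_or] at hw
  refine ⟨w, hw.1, hwp, ?_⟩
  have h1 := d2_key C (CyclotomicField l ℚ) (cE C j) hl σ τ (fun x => by rw [he, hσ]) W hWF
    (by rw [hWw]; exact hw.2)
  rw [hWw, hτ] at h1
  rw [h1, orderOf_units, orderOf_eq_card_of_forall_mem_zpowers hg, Nat.card_eq_fintype_card,
    ZMod.card_units_eq_totient, Nat.totient_prime hl]

end H57N
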