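import Pool.Agent.Lib.H57N.Defs

/-! # H57N, chunk C1: characters of the cyclotomic group -/

open NumberField IsDedekindDomain

namespace H57N

/-- The cyclic group of order N. -/
abbrev Cg (N : ℕ) : Type := Multiplicative (ZMod N)

/-- Auxiliary: the homomorphism of the group of units modulo a prime which maps a generator to a given element. -/
theorem c1_aux {q : ℕ} (hq : q.Prime) {A : Type} [CommGroup A] (c : A) (hc : c ^ (q - 1) = 1) :
    ∃ (u : (ZMod q)ˣ) (φ : (ZMod q)ˣ →* A), φ u = c ∧ ∀ x, ∃ k : ℤ, φ x = c ^ k := by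
  have : Fact q.Prime := ⟨hq⟩
  obtain ⟨u, hu⟩ := IsCyclic.exists_generator (α := (ZMod q)ˣ)
  have hord : orderOf c ∣ orderOf u := by
    have h1 : orderOf u = Nat.card (ZMod q)ˣ := orderOf_eq_card_of_forall_mem_zpowers hu
    have h2 : Nat.card (ZMod q)ˣ = q - 1 := by
      rw [Nat.card_eq_fintype_card, ZMod.card_units]
    rw [h1, h2]
    exact orderOf_dvd_of_pow_eq_one hc
  have h3 : monoidHomOfForallMemZpowers hu hord u = c := monoidHomOfForallMemZpowers_apply_gen hu hord
  refine ⟨u, monoidHomOfForallMemZpowers hu hord, h3, fun x => ?_⟩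
  obtain ⟨k, hk⟩ := Subgroup.mem_zpowers_iff.1 (hu x)
  exact ⟨k, by rw [← hk, map_zpow, h3]⟩

/-- Auxiliary: the Chinese remainder theorem for units. -/
theorem c1_crt {ι : Type} [Fintype ι] (L : ι → ℕ) (hcop : Pairwise (Function.onFun Nat.Coprime L)) {m : ℕ}
    (hm : m = ∏ i, L i) (hdvd : ∀ i, L i ∣ m) (y : ∀ i, (ZMod (L i))ˣ) :
    ∃ x : (ZMod m)ˣ, ∀ i, ZMod.unitsMap (hdvd i) x = y i := by
  subst hm
  let e := ZMod.prodEquivPi L hcop
  have he : ∀ a x, (ZMod.castHom (hdvd a) (ZMod (L a))) x = e x a := by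
    intro a x
    have h1 : ZMod.castHom (hdvd a) (ZMod (L a)) = (Pi.evalRingHom (fun a => ZMod (L a)) a).comp
      (e : ZMod (∏ a, L a) →+* ∀ a, ZMod (L a)) := Subsingleton.elim _ _
    rw [h1]
    rfl
  let x : (ZMod (∏ a, L a))ˣ :=
    { val := e.symm (fun a => (y a : ZMod (L a)))
      inv := e.symm (fun a => ((y a)⁻¹ : (ZMod (L a))ˣ))
      val_inv := by
        rw [← map_mul]
        have : (fun a => (y a : ZMod (L a))) * (fun a => (((y a)⁻¹ : (ZMod (L a))ˣ) : ZMod (L a))) = 1 := by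
          funext a
          exact Units.mul_inv (y a)
        rw [this, map_one]
      inv_val := by
        rw [← map_mul]
        have : (fun a => (((y a)⁻¹ : (ZMod (L a))ˣ) : ZMod (L a))) * (fun a => (y a : ZMod (L a))) = 1 := by
          funext a
          exact Units.inv_mul (y a)
        rw [this, map_one] }
  refine ⟨x, fun a => ?_⟩
  apply Units.ext
  show ZMod.castHom (hdvd a) (ZMod (L a)) (e.symm (fun a => (y a : ZMod (L a)))) = y a
  rw [he, RingEquiv.apply_symm_apply]

/-- Auxiliary: residues and the maps of the unit groups. -/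
theorem c1_val {m r : ℕ} [NeZero m] (h : r ∣ m) (a : (ZMod m)ˣ) :
    (a : ZMod m).val ≡ 1 [MOD r] ↔ ZMod.unitsMap h a = 1 := by
  have h1 : ((ZMod.unitsMap h a : (ZMod r)ˣ) : ZMod r) = (((a : ZMod m).val : ℕ) : ZMod r) := by
    have h2 : ((ZMod.unitsMap h a : (ZMod r)ˣ) : ZMod r) = ZMod.castHom h (ZMod r) (a : ZMod m) := rfl
    rw [h2]
    conv_lhs => rw [← ZMod.natCast_zmod_val (a : ZMod m)]
    rw [map_natCast]
  constructor
  · intro h2
    apply Units.ext
    rw [h1, Units.val_one, ← Nat.cast_one, ZMod.natCast_eq_natCast_iff]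
    exact h2
  · intro h2
    rw [h2, Units.val_one, ← Nat.cast_one, eq_comm, ZMod.natCast_eq_natCast_iff] at h1
    exact h1

/-- Chunk C1 (S/M), only Mathlib. (ZMod l)ˣ is cyclic of order l - 1 (l prime; ZMod.card_units, IsCyclic instance): for a divisor N of l - 1 there is a surjection to the cyclic group of order N: choose a generator g (IsCyclic.exists_generator),
zmodCyclicMulEquiv or the isomorphism Multiplicative (ZMod (l - 1)) ≃* (ZMod l)ˣ (zmodMulEquivOfGenerator), and the reduction ZMod.castHom (N ∣ l - 1). See H55C.Y17_surj (Lib/H55C/Y17.lean) for a similar proof (it can be used: with one prime). -/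
theorem c1_one {l N : ℕ} (hl : l.Prime) (hN : N ∣ l - 1) : ∃ θ : (ZMod l)ˣ →* Cg N, Function.Surjective θ := by
  have hN0 : N ≠ 0 := by
    rintro rfl
    have h1 := Nat.eq_zero_of_zero_dvd hN
    have h2 := hl.two_le
    omega
  have : NeZero N := ⟨hN0⟩
  let c : Cg N := Multiplicative.ofAdd (1 : ZMod N)
  have hc : c ^ (l - 1) = 1 := by
    have h1 : c ^ (l - 1) = Multiplicative.ofAdd ((l - 1) • (1 : ZMod N)) := rfl
    rw [h1, nsmul_eq_mul, mul_one]
    have h2 : (((l - 1 : ℕ)) : ZMod N) = 0 := (ZMod.natCast_eq_zero_iff _ _).2 hN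
    rw [h2]
    rfl
  obtain ⟨u, φ, hu, -⟩ := c1_aux hl c hc
  refine ⟨φ, fun z => ⟨u ^ (Multiplicative.toAdd z).val, ?_⟩⟩
  rw [map_pow, hu]
  have h1 : c ^ (Multiplicative.toAdd z).val =
      Multiplicative.ofAdd ((Multiplicative.toAdd z).val • (1 : ZMod N)) := rfl
  rw [h1, nsmul_eq_mul, mul_one, ZMod.natCast_zmod_val]
  rfl

/-- Chunk C1 (M), only Mathlib. For each q in Q there is a nontrivial homomorphism χ_q : (ZMod q)ˣ → Cg (p^(n+1)) with χ_q^p = 1: c1_one with N = p, followed by Cg p → Cg (p^(n+1)), the multiplication by p^n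
(ZMod.lift or Multiplicative: the element ofAdd (p^n) has order p: zpowersHom / ZMod.lift p ⟨..⟩; or choose: the cyclic group Cg (p^(n+1)) has an element c of order p (orderOf_dvd, Cauchy: exists_prime_orderOf_dvd_card'), and Cg p ≃ zpowers c). θ from c1_one with
N = p^(n+1). Θ a = θ (a mod l) * ∏ q ∈ Q, χ_q (a mod q), with a mod q = ZMod.unitsMap (h : q ∣ md l Q) a. The statement is written with the residues of natural numbers: the hypothesis (a : ZMod (md l Q)).val ≡ 1 [MOD r] for r ∣ md l Q says that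
ZMod.unitsMap _ a = 1. (1) surjective: given c, u with θ u = c; the Chinese remainder theorem for md l Q = l * ∏ q gives a with a mod l = u and a mod q = 1 for q in Q (the primes l, q are different: coprime: Nat.Coprime.prod_right; ZMod.chineseRemainder
and units of a product). (2) if a mod l = 1 then Θ a = ∏ χ_q (..), so its p-th power is 1. (3) md l Q = q * (md l Q / q) with coprime factors (q does not divide the other factors): there is a with a mod q = u, χ_q u ≠ 1, a mod (md l Q / q) = 1;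
then a mod l = 1 and a mod q' = 1 for q' ≠ q in Q (they divide md l Q / q), so Θ a = χ_q u ≠ 1. -/
theorem c1_char {p n l : ℕ} {Q : Finset ℕ} (h : Prm p n l Q) : ∃ Θ : (ZMod (md l Q))ˣ →* Cg (p ^ (n + 1)),
    Function.Surjective Θ ∧
    (∀ a : (ZMod (md l Q))ˣ, (a : ZMod (md l Q)).val ≡ 1 [MOD l] → Θ a ^ p = 1) ∧
    ∀ q ∈ Q, ∃ a : (ZMod (md l Q))ˣ, (a : ZMod (md l Q)).val ≡ 1 [MOD (md l Q / q)] ∧ Θ a ≠ 1 := by
  classical
  have hp := h.hp
  have hl := h.hl
  have : NeZero (p ^ (n + 1)) := ⟨pow_ne_zero _ hp.ne_zero⟩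
  -- the element of order p
  let c : Cg (p ^ (n + 1)) := Multiplicative.ofAdd (((p ^ n : ℕ)) : ZMod (p ^ (n + 1)))
  have hcpow : ∀ k : ℕ, c ^ k = Multiplicative.ofAdd (((k * p ^ n : ℕ)) : ZMod (p ^ (n + 1))) := by
    intro k
    have h1 : c ^ k = Multiplicative.ofAdd (k • (((p ^ n : ℕ)) : ZMod (p ^ (n + 1)))) := rfl
    rw [h1, nsmul_eq_mul, Nat.cast_mul]
  have hcp : c ^ p = 1 := by
    rw [hcpow]
    have h2 : (((p * p ^ n : ℕ)) : ZMod (p ^ (n + 1))) = 0 := by
      rw [ZMod.natCast_eq_zero_iff, pow_succ, mul_comm]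
    rw [h2]
    rfl
  have hc1 : c ≠ 1 := by
    intro h1
    have h2 : (((p ^ n : ℕ)) : ZMod (p ^ (n + 1))) = 0 := h1
    rw [ZMod.natCast_eq_zero_iff] at h2
    have h3 := (Nat.pow_dvd_pow_iff_le_right hp.one_lt).1 h2
    omega
  have hχ : ∀ q : {q // q ∈ Q}, ∃ (u : (ZMod (q : ℕ))ˣ) (φ : (ZMod (q : ℕ))ˣ →* Cg (p ^ (n + 1))), φ u = c ∧
      ∀ x, φ x ^ p = 1 := by
    intro q
    have h1 := h.hq q.1 q.2
    have h2 : c ^ ((q : ℕ) - 1) = 1 := by
      obtain ⟨k, hk⟩ := h1.2.1
      rw [hk, pow_mul, hcp, one_pow]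
    obtain ⟨u, φ, h3, h4⟩ := c1_aux h1.1 c h2
    refine ⟨u, φ, h3, fun x => ?_⟩
    obtain ⟨k, hk⟩ := h4 x
    rw [hk, ← zpow_natCast, ← zpow_mul, mul_comm, zpow_mul, zpow_natCast, hcp, one_zpow]
  choose u χ hu hχp using hχ
  obtain ⟨θ, hθ⟩ := c1_one hl h.hpl
  -- the family of the primes
  let L : Option {q // q ∈ Q} → ℕ := fun i => i.elim l (fun q => (q : ℕ))
  have hLp : ∀ i, (L i).Prime := by
    intro i
    cases i with
    | none => exact hl
    | some q => exact (h.hq q.1 q.2).1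
  have hLinj : Function.Injective L := by
    intro i j hij
    cases i with
    | none =>
      cases j with
      | none => rfl
      | some q => exact absurd (show l = (q : ℕ) from hij).symm (h.hq q.1 q.2).2.2.1
    | some q =>
      cases j with
      | none => exact absurd (show (q : ℕ) = l from hij) (h.hq q.1 q.2).2.2.1
      | some q' => exact congrArg some (Subtype.ext (show (q : ℕ) = (q' : ℕ) from hij))
  have hcop : Pairwise (Function.onFun Nat.Coprime L) := by
    intro a b hab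
    exact (Nat.coprime_primes (hLp a) (hLp b)).2 (fun h1 => hab (hLinj h1))
  have hm : md l Q = ∏ i, L i := by
    rw [Fintype.prod_option]
    have h1 : ∏ i : {q // q ∈ Q}, L (some i) = ∏ i : {q // q ∈ Q}, (i : ℕ) := rfl
    rw [h1, Finset.prod_coe_sort Q (fun q => q)]
    rfl
  have hm0 : md l Q ≠ 0 := by
    rw [hm]
    exact Finset.prod_ne_zero_iff.2 fun i _ => (hLp i).ne_zero
  have : NeZero (md l Q) := ⟨hm0⟩
  have hdvd : ∀ i, L i ∣ md l Q := by
    intro i
    rw [hm]
    exact Finset.dvd_prod_of_mem L (Finset.mem_univ i)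
  have hdl : l ∣ md l Q := hdvd none
  have hdq : ∀ q : {q // q ∈ Q}, (q : ℕ) ∣ md l Q := fun q => hdvd (some q)
  let Θ : (ZMod (md l Q))ˣ →* Cg (p ^ (n + 1)) :=
    (θ.comp (ZMod.unitsMap hdl)) * ∏ q : {q // q ∈ Q}, (χ q).comp (ZMod.unitsMap (hdq q))
  have hΘ : ∀ x, Θ x = θ (ZMod.unitsMap hdl x) * ∏ q : {q // q ∈ Q}, χ q (ZMod.unitsMap (hdq q) x) := by
    intro x
    have h1 : Θ x = θ (ZMod.unitsMap hdl x) *
      (∏ q : {q // q ∈ Q}, (χ q).comp (ZMod.unitsMap (hdq q)) : (ZMod (md l Q))ˣ →* Cg (p ^ (n + 1))) x := rfl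
    rw [h1, MonoidHom.finsetProd_apply]
    rfl
  refine ⟨Θ, ?_, ?_, ?_⟩
  · intro z
    obtain ⟨w, hw⟩ := hθ z
    let y : ∀ i, (ZMod (L i))ˣ := fun i => match i with
      | none => w
      | some _ => 1
    obtain ⟨x, hx⟩ := c1_crt L hcop hm hdvd y
    refine ⟨x, ?_⟩
    rw [hΘ]
    have h1 : ZMod.unitsMap hdl x = w := hx none
    have h2 : ∏ q : {q // q ∈ Q}, χ q (ZMod.unitsMap (hdq q) x) = 1 := by
      refine Finset.prod_eq_one fun q _ => ?_
      have h3 : ZMod.unitsMap (hdq q) x = 1 := hx (some q)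
      rw [h3, map_one]
    rw [h1, h2, mul_one, hw]
  · intro a ha
    have h1 := (c1_val hdl a).1 ha
    rw [hΘ, h1, map_one, one_mul, ← Finset.prod_pow]
    exact Finset.prod_eq_one fun q _ => hχp q _
  · intro q hq
    let q' : {q // q ∈ Q} := ⟨q, hq⟩
    let y : ∀ i, (ZMod (L i))ˣ := Function.update (fun _ => 1) (some q') (u q')
    obtain ⟨x, hx⟩ := c1_crt L hcop hm hdvd y
    have hy : ∀ i, i ≠ some q' → y i = 1 := fun i hi => Function.update_of_ne hi _ _
    have hyq : y (some q') = u q' := Function.update_self _ _ _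
    refine ⟨x, ?_, ?_⟩
    · have h1 : md l Q / q = ∏ i ∈ Finset.univ.erase (some q'), L i := by
        have h2 : L (some q') * ∏ i ∈ Finset.univ.erase (some q'), L i = ∏ i, L i :=
          Finset.mul_prod_erase Finset.univ L (Finset.mem_univ _)
        have h3 : L (some q') = q := rfl
        rw [hm, ← h2, h3]
        exact Nat.mul_div_cancel_left _ (h.hq q hq).1.pos
      rw [h1]
      rw [Nat.modEq_iff_dvd, Nat.cast_prod]
      refine Finset.prod_dvd_of_coprime ?_ ?_
      · intro i _ j _ hij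
        exact Nat.isCoprime_iff_coprime.2 (hcop hij)
      · intro i hi
        have h2 : ZMod.unitsMap (hdvd i) x = 1 := by
          rw [hx i, hy i (Finset.mem_erase.1 hi).1]
        exact (Nat.modEq_iff_dvd.1 ((c1_val (hdvd i) x).2 h2))
    · rw [hΘ]
      have h1 : ZMod.unitsMap hdl x = 1 := by
        have h2 := hx none
        rw [hy none (fun h3 => Option.some_ne_none _ h3.symm)] at h2
        exact h2
      rw [h1, map_one, one_mul, Finset.prod_eq_single q']
      · have h2 : ZMod.unitsMap (hdq q') x = u q' := by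
          have h3 := hx (some q')
          rw [hyq] at h3
          exact h3
        rw [h2, hu]
        exact hc1
      · intro b _ hb
        have h2 : ZMod.unitsMap (hdq b) x = 1 := by
          have h3 := hx (some b)
          rw [hy (some b) (fun h4 => hb (Option.some_injective _ h4))] at h3
          exact h3
        rw [h2, map_one]
      · intro h2
        exact absurd (Finset.mem_univ _) h2

end H57N
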