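import Pool.Agent.Lib.H57N.C1

/-! # H57N, chunk C2: the character of the Galois group of the cyclotomic field; its fields -/

open NumberField IsDedekindDomain

namespace H57N

theorem md_ne {p n l : ℕ} {Q : Finset ℕ} (h : Prm p n l Q) : NeZero (md l Q) :=
  ⟨Nat.mul_ne_zero h.hl.ne_zero (Finset.prod_ne_zero_iff.2 fun q hq => (h.hq q hq).1.ne_zero)⟩

theorem c2_pow {M : Type*} [Monoid M] {x : M} {d m : ℕ} (hd : d ∣ m) (hx : x ^ d = 1) : x ^ m = 1 := by
  obtain ⟨c, rfl⟩ := hd
  rw [pow_mul, hx, one_pow]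

/-- Chunk C2 (S/M). Compose Θ of c1_char with IsCyclotomicExtension.Rat.galEquivZMod (md l Q) (Zf (md l Q)) : Gal ≃* (ZMod (md l Q))ˣ. (Θ' σ with the hypothesis that σ fixes all x with x^l = 1: let ζ be a primitive root of unity of order md l Q
(IsCyclotomicExtension.zeta_spec), a = galEquivZMod σ, x = ζ^(md l Q / l) has x^l = 1, so x = σ x = x^(a.val) (galEquivZMod_apply_of_pow_eq; x^(md l Q) = 1), and x is a primitive l-th root of unity (IsPrimitiveRoot.pow), so a.val ≡ 1 mod l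
(IsPrimitiveRoot.pow_inj / orderOf). Conversely if a.val ≡ 1 mod d then σ x = x^(a.val) = x for all x with x^d = 1, d ∣ md l Q.) -/
theorem c2_gal {p n l : ℕ} {Q : Finset ℕ} (h : Prm p n l Q) : ∃ ρ : (Zf (md l Q) ≃ₐ[ℚ] Zf (md l Q)) →* Cg (p ^ (n + 1)),
    Function.Surjective ρ ∧
    (∀ σ, (∀ x : Zf (md l Q), x ^ l = 1 → σ x = x) → ρ σ ^ p = 1) ∧
    ∀ q ∈ Q, ∃ σ, (∀ x : Zf (md l Q), x ^ (md l Q / q) = 1 → σ x = x) ∧ ρ σ ≠ 1 := by
  obtain ⟨Θ, hΘ, hl1, hq1⟩ := c1_char h
  have hne : NeZero (md l Q) := md_ne h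
  have hcyc : IsCyclotomicExtension {md l Q} ℚ (Zf (md l Q)) := CyclotomicField.isCyclotomicExtension (md l Q) ℚ
  have hdl : l ∣ md l Q := Dvd.intro _ rfl
  let e := IsCyclotomicExtension.Rat.galEquivZMod (md l Q) (Zf (md l Q))
  refine ⟨Θ.comp e.toMonoidHom, hΘ.comp e.surjective, ?_, ?_⟩
  · intro σ hσ
    have key : ((e σ : (ZMod (md l Q))ˣ) : ZMod (md l Q)).val ≡ 1 [MOD l] := by
      have hζ := IsCyclotomicExtension.zeta_spec (md l Q) ℚ (Zf (md l Q))
      have hx : IsPrimitiveRoot (IsCyclotomicExtension.zeta (md l Q) ℚ (Zf (md l Q)) ^ (md l Q / l)) l :=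
        hζ.pow (Nat.pos_of_ne_zero hne.ne) (Nat.div_mul_cancel hdl).symm
      have h1 := hσ _ hx.pow_eq_one
      have hxm : (IsCyclotomicExtension.zeta (md l Q) ℚ (Zf (md l Q)) ^ (md l Q / l)) ^ (md l Q) = 1 := by
        exact c2_pow hdl hx.pow_eq_one
      have h2 := IsCyclotomicExtension.Rat.galEquivZMod_apply_of_pow_eq (md l Q) (Zf (md l Q)) σ hxm
      rw [h1] at h2
      have hfo : IsOfFinOrder (IsCyclotomicExtension.zeta (md l Q) ℚ (Zf (md l Q)) ^ (md l Q / l)) :=
        isOfFinOrder_iff_pow_eq_one.2 ⟨l, h.hl.pos, hx.pow_eq_one⟩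
      have h3 := hfo.pow_eq_pow_iff_modEq.1 (h2.symm.trans (pow_one _).symm)
      rw [← hx.eq_orderOf] at h3
      exact h3
    exact hl1 (e σ) key
  · intro q hq
    obtain ⟨a, ha, hne1⟩ := hq1 q hq
    have hdq : q ∣ md l Q := Dvd.dvd.mul_left (Finset.dvd_prod_of_mem (fun q => q) hq) _
    refine ⟨e.symm a, ?_, ?_⟩
    · intro x hx
      have hxm : x ^ (md l Q) = 1 := by
        exact c2_pow (Nat.div_dvd_of_dvd hdq) hx
      have h2 := IsCyclotomicExtension.Rat.galEquivZMod_apply_of_pow_eq (md l Q) (Zf (md l Q)) (e.symm a) hxm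
      have h3 : IsCyclotomicExtension.Rat.galEquivZMod (md l Q) (Zf (md l Q)) (e.symm a) = a := e.apply_symm_apply a
      rw [h2, h3, pow_eq_pow_mod _ hx, ha, ← pow_eq_pow_mod _ hx, pow_one]
    · intro h1
      refine hne1 ?_
      have h3 : e (e.symm a) = a := e.apply_symm_apply a
      have h4 : Θ (e (e.symm a)) = 1 := h1
      rwa [h3] at h4

/-- Chunk C2 (M), only Mathlib. Z/ℚ finite Galois, ρ : Gal(Z/ℚ) → Cg (p^(n+1)) surjective: B = fixedField ρ.ker: IsGalois.of_fixedField_normal_subgroup, Gal(B/ℚ) ≃ Gal(Z/ℚ) ⧸ ker ρ ≃ Cg (IsGalois.normalAutEquivQuotient,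
QuotientGroup.quotientKerEquivOfSurjective; as in aq2_abelian, H28T/AQ2.lean), so cyclic of order p^(n+1) (isCyclic_of_surjective, Nat.card). B' : IntermediateField ℚ B is the fixed field of the subgroup P of Gal(B/ℚ) of the elements g with g^p = 1
((powMonoidHom p).ker, the group is commutative: IsCyclic.commGroup; or P = the range of g ↦ g^(p^n)); it has order p (in a cyclic group of order p^(n+1): IsCyclic.card_pow_eq_one_eq... / IsCyclic.card_powMonoidHom_ker...), so [B : B'] = p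
(IntermediateField.finrank_fixedField_eq_card) and [B' : ℚ] = p^n; Galois over ℚ since P is normal. fix: σ x = x for all x in B iff σ in ker ρ (IntermediateField.mem_fixedField_iff, fixingSubgroup_fixedField). fix': if ρ(σ)^p = 1, then ρ(σ^p) = 1, so σ^p
fixes B, so the restriction g of σ to B (AlgEquiv.restrictNormalHom B, restrictNormal_commutes) has g^p = 1, g ∈ P, so g x = x for x in B'. -/
theorem c2_fields {p n : ℕ} (hp : p.Prime) (Z : Type) [Field Z] [NumberField Z] [IsGalois ℚ Z] (ρ : (Z ≃ₐ[ℚ] Z) →* Cg (p ^ (n + 1)))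
    (hρ : Function.Surjective ρ) : ∃ (B : IntermediateField ℚ Z) (B' : IntermediateField ℚ B),
      IsGalois ℚ B ∧ IsCyclic (B ≃ₐ[ℚ] B) ∧ Module.finrank ℚ B = p ^ (n + 1) ∧ IsGalois ℚ B' ∧ Module.finrank ℚ B' = p ^ n ∧
      (∀ σ : Z ≃ₐ[ℚ] Z, (∀ x : B, σ (x : Z) = x) ↔ ρ σ = 1) ∧
      ∀ σ : Z ≃ₐ[ℚ] Z, ρ σ ^ p = 1 → ∀ x : B', σ ((x : B) : Z) = ((x : B) : Z) := by
  have hp0 : NeZero (p ^ (n + 1)) := ⟨pow_ne_zero _ hp.ne_zero⟩
  have hnor : ρ.ker.Normal := ρ.normal_ker
  have hgal : IsGalois ℚ (IntermediateField.fixedField ρ.ker) := IsGalois.of_fixedField_normal_subgroup ρ.ker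
  let e : Gal((IntermediateField.fixedField ρ.ker)/ℚ) ≃* Cg (p ^ (n + 1)) :=
    (IsGalois.normalAutEquivQuotient ρ.ker).symm.trans (QuotientGroup.quotientKerEquivOfSurjective ρ hρ)
  have hcyc : IsCyclic Gal((IntermediateField.fixedField ρ.ker)/ℚ) := e.isCyclic.2 inferInstance
  have hcard : Nat.card (Cg (p ^ (n + 1))) = p ^ (n + 1) := by
    rw [Nat.card_congr (Multiplicative.toAdd (α := ZMod (p ^ (n + 1)))), Nat.card_zmod]
  have hdeg : Module.finrank ℚ (IntermediateField.fixedField ρ.ker) = p ^ (n + 1) := by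
    rw [← IsGalois.card_aut_eq_finrank, Nat.card_congr e.toEquiv, hcard]
  let P : Subgroup Gal((IntermediateField.fixedField ρ.ker)/ℚ) :=
    (powMonoidHom p : Cg (p ^ (n + 1)) →* Cg (p ^ (n + 1))).ker.comap e.toMonoidHom
  have hPn : P.Normal := Subgroup.Normal.comap (MonoidHom.normal_ker _) _
  have hPcard : Nat.card P = p := by
    have h1 : Nat.card P = Nat.card (powMonoidHom p : Cg (p ^ (n + 1)) →* Cg (p ^ (n + 1))).ker := by
      refine Nat.card_congr ?_
      exact (e.toEquiv.subtypeEquiv fun a => Iff.rfl)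
    rw [h1, IsCyclic.card_powMonoidHom_ker, hcard]
    exact Nat.gcd_eq_right (dvd_pow_self p (Nat.succ_ne_zero n))
  have hgal' : IsGalois ℚ (IntermediateField.fixedField P) := IsGalois.of_fixedField_normal_subgroup P
  have hdeg' : Module.finrank ℚ (IntermediateField.fixedField P) = p ^ n := by
    have h1 := Module.finrank_mul_finrank ℚ (IntermediateField.fixedField P) (IntermediateField.fixedField ρ.ker)
    rw [IntermediateField.finrank_fixedField_eq_card, hPcard, hdeg] at h1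
    exact Nat.eq_of_mul_eq_mul_right hp.pos (h1.trans (pow_succ p n))
  have hfix : ∀ σ : Z ≃ₐ[ℚ] Z, (∀ x : IntermediateField.fixedField ρ.ker, σ (x : Z) = x) ↔ ρ σ = 1 := by
    intro σ
    constructor
    · intro h
      have h1 : σ ∈ (IntermediateField.fixedField ρ.ker).fixingSubgroup :=
        (IntermediateField.mem_fixingSubgroup_iff _ _).2 fun x hx => h ⟨x, hx⟩
      rw [IntermediateField.fixingSubgroup_fixedField] at h1
      exact h1
    · intro h x
      have h1 : σ ∈ ρ.ker := h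
      rw [← IntermediateField.fixingSubgroup_fixedField ρ.ker] at h1
      exact (IntermediateField.mem_fixingSubgroup_iff _ _).1 h1 x x.2
  refine ⟨IntermediateField.fixedField ρ.ker, IntermediateField.fixedField P, hgal, hcyc, hdeg, hgal', hdeg', hfix, ?_⟩
  intro σ hσ x
  have h1 : ρ (σ ^ p) = 1 := by rw [map_pow, hσ]
  have h2 := (hfix (σ ^ p)).2 h1
  let g : Gal((IntermediateField.fixedField ρ.ker)/ℚ) :=
    AlgEquiv.restrictNormalHom (IntermediateField.fixedField ρ.ker) σ
  have hg : g ^ p = 1 := by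
    have h3 : g ^ p = AlgEquiv.restrictNormalHom (IntermediateField.fixedField ρ.ker) (σ ^ p) := by
      rw [map_pow]
    rw [h3]
    ext y
    have h4 := AlgEquiv.restrictNormal_commutes (σ ^ p) (IntermediateField.fixedField ρ.ker) y
    exact h4.trans (h2 y)
  have hgP : g ∈ P := by
    have h5 : (e g) ^ p = 1 := by
      rw [← map_pow, hg, map_one]
    exact h5
  have h6 : g (x : IntermediateField.fixedField ρ.ker) = x := by
    have h7 := x.2
    rw [IntermediateField.mem_fixedField_iff] at h7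
    exact h7 g hgP
  have h8 := AlgEquiv.restrictNormal_commutes σ (IntermediateField.fixedField ρ.ker) (x : IntermediateField.fixedField ρ.ker)
  have h9 : ((g (x : IntermediateField.fixedField ρ.ker) : IntermediateField.fixedField ρ.ker) : Z) = σ ((x : IntermediateField.fixedField ρ.ker) : Z) := h8
  rw [← h9, h6]

end H57N
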