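import Pool.Agent.Lib.H57N.Defs
import Pool.Agent.Lib.CHEB.Main

/-! # H57N, chunk D1: primes of degree one with a given Frobenius element -/

open NumberField IsDedekindDomain Filter Topology

namespace H57N

open CFT

/-- Chunk D1 (M). For σ in Gal(L/C) there are infinitely many primes w of C of prime norm with Frobenius element σ. Proof: suppose all w of prime norm with this property are in the finite set S. CHEB.cheb_centralizer (CHEB/Main.lean): the number a(x) of the
v with Nm v ≤ x, Unr, FrAt σ, divided by π(x) tends to 1/card(centralizer) > 0. But all these v are in S or have Nm v ≤ x, Nm v not prime, so (Nm v).minFac ≤ sqrt x (Nat.minFac_sq_le_self, Nat.le_sqrt'), and CHEB.card_le' (CHEB/C3.lean) bounds their number by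
Pool.Agent.SZ.dg C * (sqrt x + 1). So a(x) / π(x) ≤ (S.ncard + dg C (sqrt x + 1)) / π(x) → 0 by CFTC.c10_sqrt (sqrt x / π(x) → 0; see e2 and e3 in the proof of CHEB.dens_C, and h4 in CFT.chebotarev_infinite for the contradiction): contradiction. -/
theorem d1_cheb (C L : Type) [Field C] [NumberField C] [Field L] [NumberField L] [Algebra C L] [IsGalois C L] (σ : L ≃ₐ[C] L)
    (S : Set (Pr C)) (hS : S.Finite) :
    ∃ w : Pr C, w ∉ S ∧ (Ideal.absNorm w.asIdeal).Prime ∧ ∃ W : Pr L, below C W = w ∧ CHEB.FrAt C W σ := by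
  classical
  by_contra hcon
  push Not at hcon
  have h1 := CHEB.cheb_centralizer (K := C) (L := L) σ
  have hπ : Tendsto (fun x : ℕ => ((Nat.primeCounting x : ℝ))⁻¹) atTop (𝓝 0) :=
    tendsto_inv_atTop_zero.comp (tendsto_natCast_atTop_atTop.comp Nat.tendsto_primeCounting)
  have h2 : Tendsto (fun x : ℕ => (S.ncard : ℝ) * ((Nat.primeCounting x : ℝ))⁻¹ +
      (Pool.Agent.SZ.dg C : ℝ) * ((Nat.sqrt x : ℝ) / (Nat.primeCounting x : ℝ) + ((Nat.primeCounting x : ℝ))⁻¹)) atTop (𝓝 0) := by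
    have e2 := (hπ.const_mul (S.ncard : ℝ)).add ((CFTC.c10_sqrt.add hπ).const_mul (Pool.Agent.SZ.dg C : ℝ))
    rwa [add_zero, mul_zero, mul_zero, add_zero] at e2
  have h3 : (1 / (Nat.card (Subgroup.centralizer {σ}) : ℝ)) ≤ 0 := by
    refine le_of_tendsto_of_tendsto' h1 h2 fun x => ?_
    have e0 : (S.ncard : ℝ) * ((Nat.primeCounting x : ℝ))⁻¹ +
        (Pool.Agent.SZ.dg C : ℝ) * ((Nat.sqrt x : ℝ) / (Nat.primeCounting x : ℝ) + ((Nat.primeCounting x : ℝ))⁻¹) =
        ((S.ncard + Pool.Agent.SZ.dg C * (Nat.sqrt x + 1) : ℕ) : ℝ) / (Nat.primeCounting x : ℝ) := by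
      push_cast
      ring
    rw [e0]
    refine div_le_div_of_nonneg_right ?_ (Nat.cast_nonneg _)
    have hfin : {w : Pr C | Nm w ≤ x}.Finite := CFTC.nm_fin x
    have hfD : {w : Pr C | Nm w ≤ x ∧ ¬ (Nm w).Prime}.Finite := hfin.subset fun w hw => hw.1
    have e1 : {v : Pr C | Nm v ≤ x ∧ Unr C L v ∧ ∃ W : Pr L, below C W = v ∧ CHEB.FrAt C W σ} ⊆
        S ∪ {w : Pr C | Nm w ≤ x ∧ ¬ (Nm w).Prime} := by
      rintro v ⟨h4, _, W, h6, h7⟩
      by_cases h8 : v ∈ S
      · exact Or.inl h8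
      · refine Or.inr ⟨h4, fun h9 => ?_⟩
        exact hcon v h8 h9 W h6 h7
    have e2 := (Set.ncard_le_ncard e1 (hS.union hfD)).trans (Set.ncard_union_le _ _)
    have e3 : Set.ncard {w : Pr C | Nm w ≤ x ∧ ¬ (Nm w).Prime} ≤ Pool.Agent.SZ.dg C * (Nat.sqrt x + 1) := by
      rw [Set.ncard_eq_toFinset_card _ hfD]
      apply CHEB.card_le'
      intro w hw
      rw [Set.Finite.mem_toFinset] at hw
      have h4 := CHEB.two_le_Nm w
      rw [Nat.le_sqrt']
      exact (Nat.minFac_sq_le_self (by omega) hw.2).trans hw.1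
    exact_mod_cast e2.trans (Nat.add_le_add_left e3 _)
  have h4 : (0 : ℝ) < Nat.card (Subgroup.centralizer {σ}) := by exact_mod_cast Nat.card_pos
  have h5 := one_div_pos.2 h4
  linarith

end H57N
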