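import Mathlib

/-!
# H57N: base fields with cyclic p-extensions in which many anomalous primes ramify (module EXISTENCE of theorem (S), MP_f50388_nt)

See PROOF.md. Definitions (only Mathlib).
-/

open NumberField IsDedekindDomain

namespace H57N

/-- E is generated by C and B. -/
structure Cmp (C B E : Type) [Field C] [Field B] [Field E] [Algebra C E] [Algebra B E] : Prop where
  gen : IntermediateField.adjoin C (Set.range (algebraMap B E)) = ⊤

/-- The conductor of the cyclotomic field. -/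
def md (l : ℕ) (Q : Finset ℕ) : ℕ := l * ∏ q ∈ Q, q

/-- The prime numbers: p^(n+1) divides l - 1; the q in Q are 1 modulo p and primitive roots modulo l. -/
structure Prm (p n l : ℕ) (Q : Finset ℕ) : Prop where
  hp : p.Prime
  hl : l.Prime
  hpl : p ^ (n + 1) ∣ l - 1
  hq : ∀ q ∈ Q, q.Prime ∧ p ∣ q - 1 ∧ q ≠ l ∧ orderOf (q : ZMod l) = l - 1

/-- B/Q is cyclic of degree p^(n+1), unramified outside l and Q, ramified at the q in Q; B' is the subfield of degree p^n, unramified outside l;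
the q in Q are inert in B'. -/
structure Cy (p n l : ℕ) (Q : Finset ℕ) (B : Type) [Field B] [NumberField B] (B' : IntermediateField ℚ B) : Prop where
  gal : IsGalois ℚ B
  cyc : IsCyclic (B ≃ₐ[ℚ] B)
  deg : Module.finrank ℚ B = p ^ (n + 1)
  gal' : IsGalois ℚ B'
  deg' : Module.finrank ℚ B' = p ^ n
  unr : ∀ (w : HeightOneSpectrum (𝓞 B)) (r : ℕ), r.Prime → (r : 𝓞 B) ∈ w.asIdeal → r ≠ l → r ∉ Q → w.asIdeal.ramificationIdx ℤ = 1
  unr' : ∀ (w : HeightOneSpectrum (𝓞 B')) (r : ℕ), r.Prime → (r : 𝓞 B') ∈ w.asIdeal → r ≠ l → w.asIdeal.ramificationIdx ℤ = 1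
  ram : ∀ (w : HeightOneSpectrum (𝓞 B)) (q : ℕ), q ∈ Q → (q : 𝓞 B) ∈ w.asIdeal → w.asIdeal.ramificationIdx ℤ ≠ 1
  ine : ∀ (w : HeightOneSpectrum (𝓞 B')) (q : ℕ), q ∈ Q → (q : 𝓞 B') ∈ w.asIdeal → p ^ n ≤ w.asIdeal.inertiaDeg ℤ

/-- The group of the cyclotomic field of conductor m. -/
abbrev Zf (m : ℕ) : Type := CyclotomicField m ℚ

end H57N
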