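import Pool.Agent.Lib.H57N.Defs

/-! # H57N, chunk P1: the compositum with a Galois extension of the rationals is Galois -/

open NumberField IsDedekindDomain

namespace H57N

variable {C B E : Type} [Field C] [NumberField C] [Field B] [NumberField B] [Field E] [NumberField E] [Algebra C E] [Algebra B E]

/-- Chunk P1 (M), only Mathlib. E is generated over C by the image of B, B/Q Galois. Proof as in Mathlib: IsGalois.sup_right (Mathlib/FieldTheory/Galois/Basic.lean): obtain T : ℚ[X] separable with
T.IsSplittingField ℚ B from IsGalois.is_separable_splitting_field ℚ B, T' := T.map (algebraMap ℚ C) is separable (Separable.map); T'.IsSplittingField C E (isSplittingField_iff_intermediateField: T' splits in E, since T splits in B and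
B → E; the adjoin of its roots over C is ⊤: it contains algebraMap B E b for all b, because B = adjoin ℚ (T.rootSet B), and h.gen). Then IsGalois.of_separable_splitting_field. Other route: let K₁ = (the ℚ-algebra map B → E).fieldRange and
K₂ = (C → E).fieldRange in IntermediateField ℚ E; K₁ ⊔ K₂ = ⊤; IsGalois.sup_right K₁ K₂ gives IsGalois K₂ E; transport with IsGalois.of_equiv_equiv along C ≃ K₂ (IsGalois ℚ K₁: IsGalois.of_algEquiv). -/
theorem p1_gal [IsGalois ℚ B] (h : Cmp C B E) : IsGalois C E := by
  have hC : IsScalarTower ℚ C E := IsScalarTower.of_algebraMap_eq' (Subsingleton.elim _ _)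
  have hB : IsScalarTower ℚ B E := IsScalarTower.of_algebraMap_eq' (Subsingleton.elim _ _)
  obtain ⟨T, hT₁, hT₂⟩ := IsGalois.is_separable_splitting_field ℚ B
  have hT : (T.map (algebraMap ℚ C)).IsSplittingField C E := by
    rw [isSplittingField_iff_intermediateField] at hT₂ ⊢
    obtain ⟨hs, ha⟩ := hT₂
    constructor
    · rw [Polynomial.map_map, ← IsScalarTower.algebraMap_eq]
      exact Polynomial.Splits.of_algHom hs (IsScalarTower.toAlgHom ℚ B E)
    · rw [eq_top_iff, ← h.gen, IntermediateField.adjoin_le_iff]
      rintro _ ⟨b, rfl⟩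
      have h1 : IntermediateField.adjoin ℚ (T.rootSet B) ≤
          IntermediateField.comap (IsScalarTower.toAlgHom ℚ B E)
            ((IntermediateField.adjoin C ((T.map (algebraMap ℚ C)).rootSet E)).restrictScalars ℚ) := by
        rw [IntermediateField.adjoin_le_iff]
        intro x hx
        show algebraMap B E x ∈ IntermediateField.adjoin C ((T.map (algebraMap ℚ C)).rootSet E)
        apply IntermediateField.subset_adjoin
        rw [Polynomial.mem_rootSet'] at hx ⊢
        obtain ⟨hx0, hx1⟩ := hx
        have hT0 : T ≠ 0 := hT₁.ne_zero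
        refine ⟨?_, ?_⟩
        · rw [Polynomial.map_map, ← IsScalarTower.algebraMap_eq]
          exact (Polynomial.map_ne_zero_iff (algebraMap ℚ E).injective).2 hT0
        · rw [Polynomial.aeval_map_algebraMap]
          have h2 := Polynomial.aeval_algebraMap_apply E x T
          rw [h2, hx1, map_zero]
      rw [ha] at h1
      exact h1 (IntermediateField.mem_top (x := b))
  exact IsGalois.of_separable_splitting_field (p := T.map (algebraMap ℚ C)) hT₁.map

/-- Chunk P1 (S), only Mathlib. The towers of ℚ-algebras: IsScalarTower.of_algebraMap_eq' (Subsingleton.elim _ _). res = IntermediateField.restrictRestrictAlgEquivMapHom ℚ B C E (needs Normal ℚ B), that is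
(AlgEquiv.restrictNormalHom B).comp (restriction of scalars); the compatibility is AlgEquiv.restrictNormal_commutes. Injective: if res g = 1 then g fixes C and the image of B, so the intermediate field of the elements fixed by g
(IntermediateField.fixedField (Subgroup.zpowers g)) contains Set.range (algebraMap B E), so it is ⊤ by h.gen. Model: hres, hinj in H28T/AQ3A.lean. -/
theorem p1_res [IsGalois ℚ B] (h : Cmp C B E) : ∃ res : (E ≃ₐ[C] E) →* (B ≃ₐ[ℚ] B), Function.Injective res ∧
    ∀ (g : E ≃ₐ[C] E) (x : B), g (algebraMap B E x) = algebraMap B E (res g x) := by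
  have hC : IsScalarTower ℚ C E := IsScalarTower.of_algebraMap_eq' (Subsingleton.elim _ _)
  have hB : IsScalarTower ℚ B E := IsScalarTower.of_algebraMap_eq' (Subsingleton.elim _ _)
  let rs : (E ≃ₐ[C] E) →* (E ≃ₐ[ℚ] E) :=
    { toFun := fun g => g.restrictScalars ℚ
      map_one' := by ext x; rfl
      map_mul' := fun a b => by ext x; rfl }
  let res : (E ≃ₐ[C] E) →* (B ≃ₐ[ℚ] B) := (AlgEquiv.restrictNormalHom B).comp rs
  have hres : ∀ (g : E ≃ₐ[C] E) (x : B), g (algebraMap B E x) = algebraMap B E (res g x) := by
    intro g x
    exact (AlgEquiv.restrictNormal_commutes (rs g) B x).symm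
  refine ⟨res, ?_, hres⟩
  rw [injective_iff_map_eq_one]
  intro g hg
  apply AlgEquiv.ext
  intro x
  have hx : x ∈ IntermediateField.adjoin C (Set.range (algebraMap B E)) := by
    rw [h.gen]
    exact IntermediateField.mem_top
  show g x = x
  induction hx using IntermediateField.adjoin_induction with
  | mem y hy =>
    obtain ⟨b, rfl⟩ := hy
    rw [hres g b, hg]
    rfl
  | algebraMap c => exact g.commutes c
  | add a b _ _ ha hb => rw [map_add, ha, hb]
  | inv a _ ha => rw [map_inv₀, ha]
  | mul a b _ _ ha hb => rw [map_mul, ha, hb]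

end H57N
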